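import Pool.Agent.IWar.Defs
import Pool.Agent.MWg.Tools

/-!
# IWar.DistN: for almost all coefficients the values are not too close to integers

PROOF. Let `P = XX r`, `η = P^(-9/8)`. It is enough to consider `t` with `|t i| ≤ A` for all `i`
(countable union over natural `A`). For `x ≥ 1` and fixed `t_1, ..., t_(d-1)` the function
`t_0 ↦ ff k d g t x = t_0 x^(k-1) + const` is affine with slope `x^(k-1) ≥ 1`; the set of
`t_0 ∈ [-A, A]` with `|ff - n| < η` for some integer `n` is a union of at most `2A x^(k-1) + 2`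
intervals of length `2η/x^(k-1)`, so its measure is at most `(2A + 2) 2η`. By Fubini (the first
coordinate; for example `MeasureTheory.volume_preserving_piFinSuccAbove`, or
`MeasureTheory.measure_pi..`) the set of `t ∈ [-A, A]^d` with such an `n` has measure at most
`(2A)^(d-1) (2A+2) 2η`. Sum over `1 ≤ x ≤ 16P`: at most `C_A P · P^(-9/8) = C_A P^(-1/8)`, which is
summable over `r` (`P = 2^r`). Borel-Cantelli (`MeasureTheory.ae_eventually_notMem`).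
-/

namespace IWar

open Filter Topology MeasureTheory MWg HWar

private theorem DistN_one (c m A η : ℝ) (hm : 1 ≤ m) (hA : 0 ≤ A) (hη : 0 < η) (hη1 : η ≤ 1) :
    volume {s : ℝ | |s| ≤ A ∧ ∃ n : ℤ, |s * m + c - n| < η} ≤
      ENNReal.ofReal ((2 * A + 5) * (2 * η)) := by
  have hm0 : 0 < m := by linarith
  obtain ⟨F, hF⟩ : ∃ F : Finset ℤ, F = Finset.Icc ⌊c - A * m - 1⌋ ⌈c + A * m + 1⌉ := ⟨_, rfl⟩
  have hsub : {s : ℝ | |s| ≤ A ∧ ∃ n : ℤ, |s * m + c - n| < η} ⊆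
      ⋃ n ∈ F, Set.Ioo (((n : ℝ) - c - η) / m) (((n : ℝ) - c + η) / m) := by
    rintro s ⟨hs, n, hn⟩
    rw [abs_lt] at hn
    rw [abs_le] at hs
    have h1 : s * m ≤ A * m := mul_le_mul_of_nonneg_right hs.2 hm0.le
    have h2 : -(A * m) ≤ s * m := by
      have := mul_le_mul_of_nonneg_right hs.1 hm0.le
      linarith
    simp only [Set.mem_iUnion]
    refine ⟨n, ?_, ?_, ?_⟩
    · rw [hF, Finset.mem_Icc]
      constructor
      · have h3 := Int.floor_le (c - A * m - 1)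
        have h4 : ((⌊c - A * m - 1⌋ : ℤ) : ℝ) ≤ (n : ℝ) := by linarith
        exact_mod_cast h4
      · have h3 := Int.le_ceil (c + A * m + 1)
        have h4 : (n : ℝ) ≤ ((⌈c + A * m + 1⌉ : ℤ) : ℝ) := by linarith
        exact_mod_cast h4
    · rw [div_lt_iff₀ hm0]
      linarith
    · rw [lt_div_iff₀ hm0]
      linarith
  have hcard : (F.card : ℝ) ≤ 2 * (A * m) + 5 := by
    rw [hF, Int.card_Icc]
    have h3 := Int.floor_le (c - A * m - 1)
    have h4 := Int.lt_floor_add_one (c - A * m - 1)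
    have h5 := Int.le_ceil (c + A * m + 1)
    have h6 := Int.ceil_lt_add_one (c + A * m + 1)
    have h7 : 0 ≤ A * m := by positivity
    have h8 : (0 : ℤ) ≤ ⌈c + A * m + 1⌉ + 1 - ⌊c - A * m - 1⌋ := by
      have : ((⌊c - A * m - 1⌋ : ℤ) : ℝ) ≤ ((⌈c + A * m + 1⌉ + 1 : ℤ) : ℝ) := by
        push_cast
        linarith
      have h9 : ⌊c - A * m - 1⌋ ≤ ⌈c + A * m + 1⌉ + 1 := by exact_mod_cast this
      omega
    have h10 : (((⌈c + A * m + 1⌉ + 1 - ⌊c - A * m - 1⌋).toNat : ℕ) : ℝ) =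
        ((⌈c + A * m + 1⌉ + 1 - ⌊c - A * m - 1⌋ : ℤ) : ℝ) := by
      have : (((⌈c + A * m + 1⌉ + 1 - ⌊c - A * m - 1⌋).toNat : ℕ) : ℤ) =
          ⌈c + A * m + 1⌉ + 1 - ⌊c - A * m - 1⌋ := Int.toNat_of_nonneg h8
      exact_mod_cast this
    rw [h10]
    push_cast
    linarith
  refine (measure_mono hsub).trans ((measure_biUnion_finset_le _ _).trans ?_)
  have hvol : ∀ n ∈ F, volume (Set.Ioo (((n : ℝ) - c - η) / m) (((n : ℝ) - c + η) / m)) =
      ENNReal.ofReal (2 * η / m) := by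
    intro n _
    rw [Real.volume_Ioo]
    congr 1
    ring
  rw [Finset.sum_congr rfl hvol, Finset.sum_const, nsmul_eq_mul]
  have e1 : (F.card : ENNReal) = ENNReal.ofReal (F.card : ℝ) := by
    rw [ENNReal.ofReal_natCast]
  rw [e1, ← ENNReal.ofReal_mul (Nat.cast_nonneg _)]
  apply ENNReal.ofReal_le_ofReal
  calc (F.card : ℝ) * (2 * η / m) ≤ (2 * (A * m) + 5) * (2 * η / m) :=
        mul_le_mul_of_nonneg_right hcard (by positivity)
    _ ≤ (2 * (A * m) + 5 * m) * (2 * η / m) := by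
        apply mul_le_mul_of_nonneg_right _ (by positivity)
        linarith
    _ = (2 * A + 5) * (2 * η) := by
        field_simp

private theorem DistN_line (k : ℕ) (c : ℕ → ℝ) :
    ∀ᵐ s : ℝ, ∀ᶠ r : ℕ in atTop, ∀ x : ℕ, 1 ≤ x → (x : ℝ) ≤ 16 * XX r → ∀ n : ℤ,
      (XX r) ^ (-(9 : ℝ) / 8) ≤ |s * (x : ℝ) ^ (k - 1) + c x - n| := by
  -- bounded parameters
  have hA : ∀ A : ℕ, ∀ᵐ s : ℝ, ∀ᶠ r : ℕ in atTop,
      s ∉ (⋃ x ∈ Finset.Icc 1 ⌊16 * XX r⌋₊, {s : ℝ | |s| ≤ (A : ℝ) ∧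
        ∃ n : ℤ, |s * (x : ℝ) ^ (k - 1) + c x - n| < (XX r) ^ (-(9 : ℝ) / 8)}) := by
    intro A
    apply ae_eventually_notMem
    have hbd : ∀ r : ℕ, volume (⋃ x ∈ Finset.Icc 1 ⌊16 * XX r⌋₊, {s : ℝ | |s| ≤ (A : ℝ) ∧
        ∃ n : ℤ, |s * (x : ℝ) ^ (k - 1) + c x - n| < (XX r) ^ (-(9 : ℝ) / 8)}) ≤
        ENNReal.ofReal ((32 * (2 * A + 5)) * ((2 : ℝ) ^ (-(1 : ℝ) / 8)) ^ r) := by
      intro r
      have hX := XX_pos r
      have hX1 := XX_ge_one r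
      have hη0 : 0 < (XX r) ^ (-(9 : ℝ) / 8) := Real.rpow_pos_of_pos hX _
      have hη1 : (XX r) ^ (-(9 : ℝ) / 8) ≤ 1 :=
        Real.rpow_le_one_of_one_le_of_nonpos hX1 (by norm_num)
      refine (measure_biUnion_finset_le _ _).trans ?_
      refine (Finset.sum_le_sum fun x hx => DistN_one (c x) ((x : ℝ) ^ (k - 1)) A _ ?_
        (Nat.cast_nonneg _) hη0 hη1).trans ?_
      · have h1 : 1 ≤ x := (Finset.mem_Icc.1 hx).1
        have h2 : (1 : ℝ) ≤ (x : ℝ) := by exact_mod_cast h1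
        exact one_le_pow₀ h2
      · rw [Finset.sum_const, nsmul_eq_mul, Nat.card_Icc, Nat.add_sub_cancel]
        have e1 : ((⌊16 * XX r⌋₊ : ℕ) : ENNReal) = ENNReal.ofReal (⌊16 * XX r⌋₊ : ℝ) := by
          rw [ENNReal.ofReal_natCast]
        rw [e1, ← ENNReal.ofReal_mul (Nat.cast_nonneg _)]
        apply ENNReal.ofReal_le_ofReal
        have h1 : ((⌊16 * XX r⌋₊ : ℕ) : ℝ) ≤ 16 * XX r := Nat.floor_le (by positivity)
        have e2 : ((2 : ℝ) ^ (-(1 : ℝ) / 8)) ^ r = XX r * (XX r) ^ (-(9 : ℝ) / 8) := by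
          have e3 : XX r = (2 : ℝ) ^ (r : ℝ) := by
            rw [Real.rpow_natCast]
            rfl
          rw [← Real.rpow_natCast, ← Real.rpow_mul (by norm_num), e3,
            ← Real.rpow_mul (by norm_num), ← Real.rpow_add (by norm_num)]
          congr 1
          ring
        rw [e2]
        calc ((⌊16 * XX r⌋₊ : ℕ) : ℝ) * ((2 * A + 5) * (2 * (XX r) ^ (-(9 : ℝ) / 8)))
            ≤ (16 * XX r) * ((2 * A + 5) * (2 * (XX r) ^ (-(9 : ℝ) / 8))) :=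
              mul_le_mul_of_nonneg_right h1 (by positivity)
          _ = _ := by ring
    have hsum : Summable fun r : ℕ => (32 * (2 * (A : ℝ) + 5)) * ((2 : ℝ) ^ (-(1 : ℝ) / 8)) ^ r := by
      apply Summable.mul_left
      apply summable_geometric_of_lt_one (by positivity)
      exact Real.rpow_lt_one_of_one_lt_of_neg (by norm_num) (by norm_num)
    exact ne_top_of_le_ne_top hsum.tsum_ofReal_ne_top (ENNReal.tsum_le_tsum hbd)
  have hall := ae_all_iff.2 hA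
  filter_upwards [hall] with s hs
  obtain ⟨A, hAs⟩ := exists_nat_ge |s|
  filter_upwards [hs A] with r hr x hx1 hx2 n
  by_contra hlt
  apply hr
  simp only [Set.mem_iUnion]
  refine ⟨x, Finset.mem_Icc.2 ⟨hx1, Nat.le_floor hx2⟩, hAs, n, not_le.1 hlt⟩

private theorem DistN_meas {α : Type*} [MeasurableSpace α] (F : ℕ → α → ℝ)
    (hF : ∀ x, Measurable (F x)) :
    MeasurableSet {t : α | ∀ᶠ r : ℕ in atTop, ∀ x : ℕ, 1 ≤ x → (x : ℝ) ≤ 16 * XX r → ∀ n : ℤ,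
      (XX r) ^ (-(9 : ℝ) / 8) ≤ |F x t - n|} := by
  have e : {t : α | ∀ᶠ r : ℕ in atTop, ∀ x : ℕ, 1 ≤ x → (x : ℝ) ≤ 16 * XX r → ∀ n : ℤ,
      (XX r) ^ (-(9 : ℝ) / 8) ≤ |F x t - n|} =
      ⋃ R : ℕ, ⋂ r : ℕ, ⋂ (_ : R ≤ r), ⋂ x : ℕ, ⋂ (_ : 1 ≤ x), ⋂ (_ : (x : ℝ) ≤ 16 * XX r),
        ⋂ n : ℤ, {t : α | (XX r) ^ (-(9 : ℝ) / 8) ≤ |F x t - n|} := by
    ext t
    simp only [Set.mem_ofPred_eq, eventually_atTop, Set.mem_iUnion, Set.mem_iInter]
  rw [e]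
  refine MeasurableSet.iUnion fun R => MeasurableSet.iInter fun r => MeasurableSet.iInter fun _ =>
    MeasurableSet.iInter fun x => MeasurableSet.iInter fun _ => MeasurableSet.iInter fun _ =>
    MeasurableSet.iInter fun n => ?_
  exact measurableSet_le measurable_const ((hF x).sub measurable_const).abs

theorem ae_dist {k d : ℕ} (hd : 1 ≤ d) (g : ℕ → ℝ) :
    ∀ᵐ t : Fin d → ℝ, ∀ᶠ r : ℕ in atTop, ∀ x : ℕ, 1 ≤ x → (x : ℝ) ≤ 16 * XX r → ∀ n : ℤ,
      (XX r) ^ (-(9 : ℝ) / 8) ≤ |ff k d g t x - n| := by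
  obtain ⟨e, rfl⟩ : ∃ e, d = e + 1 := ⟨d - 1, by omega⟩
  have hmp := volume_preserving_piFinSuccAbove (fun _ : Fin (e + 1) => ℝ) 0
  -- the function on the product
  obtain ⟨F, hF⟩ : ∃ F : ℕ → ℝ × (Fin e → ℝ) → ℝ, F = fun (x : ℕ) (z : ℝ × (Fin e → ℝ)) => z.1 * (x : ℝ) ^ (k - 1) +
      ((x : ℝ) ^ k + g x + ∑ i : Fin e, z.2 i * (x : ℝ) ^ (k - 1 - ((i : ℕ) + 1))) := ⟨_, rfl⟩
  have hFm : ∀ x, Measurable (F x) := by
    intro x
    rw [hF]
    fun_prop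
  have hFf : ∀ (t : Fin (e + 1) → ℝ) (x : ℕ),
      ff k (e + 1) g t x = F x (MeasurableEquiv.piFinSuccAbove (fun _ : Fin (e + 1) => ℝ) 0 t) := by
    intro t x
    rw [hF]
    unfold ff
    rw [Fin.sum_univ_succ]
    have h1 : (MeasurableEquiv.piFinSuccAbove (fun _ : Fin (e + 1) => ℝ) 0 t).1 = t 0 := rfl
    have h2 : ∀ i, (MeasurableEquiv.piFinSuccAbove (fun _ : Fin (e + 1) => ℝ) 0 t).2 i =
        t i.succ := fun i => rfl
    simp only [h1, h2, Fin.val_zero, Nat.sub_zero, Fin.val_succ]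
    ring
  have hprod : ∀ᵐ z : ℝ × (Fin e → ℝ), ∀ᶠ r : ℕ in atTop, ∀ x : ℕ, 1 ≤ x → (x : ℝ) ≤ 16 * XX r →
      ∀ n : ℤ, (XX r) ^ (-(9 : ℝ) / 8) ≤ |F x z - n| := by
    have hms := DistN_meas F hFm
    rw [Measure.volume_eq_prod, Measure.ae_prod_iff_ae_ae hms, Measure.ae_ae_comm hms]
    refine Eventually.of_forall fun t' => ?_
    have h1 := DistN_line k (fun x => (x : ℝ) ^ k + g x +
      ∑ i : Fin e, t' i * (x : ℝ) ^ (k - 1 - ((i : ℕ) + 1)))
    filter_upwards [h1] with s hs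
    filter_upwards [hs] with r hr x hx1 hx2 n
    rw [hF]
    exact hr x hx1 hx2 n
  have h2 := hmp.quasiMeasurePreserving.ae hprod
  filter_upwards [h2] with t ht
  filter_upwards [ht] with r hr x hx1 hx2 n
  rw [hFf]
  exact hr x hx1 hx2 n

end IWar
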