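import Pool.Agent.HWar.M2Cont

/-!
# IWar: exact representation by integer parts of values of almost every polynomial.  Definitions

This folder extends `HWar` (sums of values of almost every polynomial come close to every large real)
to sums of integer parts `⌊f(x)⌋`. The frequencies `|θ| ≤ 1/P`, `P = XX r`, are reduced to the real
sums; the frequencies `1/P < |θ| ≤ 1/2` (the set `TH r`) are treated with a Fourier expansion of
`ee (θ ⌊y⌋) = ee (θ y) ∑_m c_m(θ) ee (m y)` for `y` not too close to an integer; `m` is the mode of a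
letter, `|m| ≤ DD r`.
-/

namespace IWar

open HWar MWg

/-- The integer parts. -/
noncomputable def fl (f : ℕ → ℝ) (x : ℕ) : ℝ := ((⌊f x⌋ : ℤ) : ℝ)

/-- The frequencies with `1/P < |θ| ≤ 1/2`. -/
def TH (r : ℕ) : Set ℝ := {θ | (XX r)⁻¹ < |θ| ∧ |θ| ≤ 1 / 2}

/-- The bound for the modes. -/
noncomputable def DD (r : ℕ) : ℕ := ⌊(XX r) ^ ((4 : ℝ) / 3)⌋₊

/-- The index type of the letters of a chain part. -/
abbrev Gt (n : ℕ) : Type := (Bool × Fin n) ⊕ Unit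

/-- The letters of a chain part. -/
def lz (n : ℕ) (z : Zt) : Gt n → ℕ
  | Sum.inl (false, i) => (z.1.1.getD i (0, 0)).1
  | Sum.inl (true, i) => (z.1.2.getD i (0, 0)).1
  | Sum.inr () => z.2

/-- The trigonometric approximation of `ee (θ ⌊f x⌋)`. -/
noncomputable def LL (c : ℤ → ℝ → ℂ) (D : ℕ) (f : ℕ → ℝ) (θ : ℝ) (x : ℕ) : ℂ :=
  ee (θ * f x) * ∑ m ∈ Finset.Icc (-(D : ℤ)) D, c m θ * ee ((m : ℝ) * f x)

/-- The approximation of the integral `M2` for the integer parts, over the set `T`. -/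
noncomputable def MA (T : Set ℝ) (K : ℝ → ℂ) (c : ℤ → ℝ → ℂ) (D k n J M l r : ℕ) (f : ℕ → ℝ)
    (Y : ℝ) : ℂ :=
  ∫ θ in T, K θ * ee (-(θ * Y)) * (∑ z ∈ Zs k n r, ∏ γ : Gt n, LL c D f θ (lz n z γ)) *
    ∑ b ∈ Bk k J M l r, ∏ x : Fin J × Fin M, LL c D f θ (b x)

/-- The targets at the scale `r`. -/
def NN (k r : ℕ) : Finset ℕ := Finset.Icc ((4 * 2 ^ r) ^ k) ((8 * 2 ^ r) ^ k)

/-- Sums of exactly `s` integer parts `⌊f(x)⌋`, `x ≥ 1`, are all large integers. -/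
def Exact (f : ℕ → ℝ) (s : ℕ) : Prop :=
  ∃ N0 : ℤ, ∀ N : ℤ, N0 ≤ N → ∃ x : Fin s → ℕ, (∀ i, 0 < x i) ∧ ∑ i, ⌊f (x i)⌋ = N

/-- The additional conditions for the parameters. -/
structure ParF {k d : ℕ} (p : Par k d) : Prop where
  c4 : 7 * k ≤ 8 * p.m0
  c5 : 8 * p.j0 * (p.m0 + 2 * p.q * p.M) + 7 * k ≤ 8 * p.j0 * (p.m1 + 2)
  hL : 3 * ((p.u + 1) * (p.q - 1)) < p.L

end IWar
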