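import Pool.Agent.HWar.High
import Pool.Agent.IWar.Defs

/-!
# IWar.AeN: real sums, all integer targets, almost all coefficients

PROOF. As `Pool/Agent/HWar/AeGood.lean` (proved), with a sum over the targets instead of an integral.
Fix `φ`, `h`. `NN k r` has at most `8^k P^k + 1 ≤ 2 · 8^k P^k` elements, `P = XX r`, so by `HWar.high` (for
every `Y = N`), for large `r`, `∫⁻_t ofReal (gw t ∑_{N ∈ NN k r} Φ_N(t)) ≤ ofReal (2 · 8^k C/P)`, summable
over `r`. So for almost every `t` the series over `r` of `gw t ∑_N Φ_N(t)` converges, its terms tend to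
`0`, and `gw t > 0`. Measurability: `HWar.m2_cont`.
-/

namespace IWar

open Filter Topology MeasureTheory MWg HWar

private theorem AeN_gw_cont {d : ℕ} : Continuous (gw : (Fin d → ℝ) → ℝ) := by
  unfold gw
  fun_prop

private theorem AeN_gw_pos {d : ℕ} (t : Fin d → ℝ) : 0 < gw t := Real.exp_pos _

private theorem AeN_borel {d : ℕ} (A : ℕ → (Fin d → ℝ) → ENNReal) (hA : ∀ r, Measurable (A r))
    {D : ℝ} (hD : 0 ≤ D) {r0 : ℕ} (hint : ∀ r, r0 ≤ r → ∫⁻ t, A r t ≤ ENNReal.ofReal (D / 2 ^ r)) :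
    ∀ᵐ t : Fin d → ℝ, Tendsto (fun r => A r t) atTop (𝓝 0) := by
  have hsum : Summable (fun r : ℕ => D / 2 ^ (r + r0)) := by
    have h1 : (fun r : ℕ => D / 2 ^ (r + r0)) = fun r : ℕ => D / 2 ^ r0 * (1 / 2) ^ r := by
      funext r
      rw [pow_add, one_div, inv_pow]
      field_simp
    rw [h1]
    exact summable_geometric_two.mul_left _
  have h1 : ∫⁻ t, ∑' r, A (r + r0) t ≠ ⊤ := by
    rw [lintegral_tsum (fun r => (hA (r + r0)).aemeasurable)]
    have h2 : ∑' r, ∫⁻ t, A (r + r0) t ≤ ∑' r, ENNReal.ofReal (D / 2 ^ (r + r0)) :=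
      ENNReal.tsum_le_tsum fun r => hint (r + r0) (Nat.le_add_left _ _)
    rw [← ENNReal.ofReal_tsum_of_nonneg (fun r => by positivity) hsum] at h2
    exact (h2.trans_lt ENNReal.ofReal_lt_top).ne
  have hmeas : Measurable (fun t => ∑' r, A (r + r0) t) :=
    Measurable.tsum fun r => hA (r + r0)
  filter_upwards [ae_lt_top hmeas h1] with t ht
  have h3 := ENNReal.tendsto_atTop_zero_of_tsum_ne_top ht.ne
  exact (tendsto_add_atTop_iff_nat r0).1 h3

private theorem AeN_card (k r : ℕ) : ((NN k r).card : ℝ) ≤ 8 ^ k * (XX r) ^ k := by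
  have h1 : (NN k r).card ≤ (8 * 2 ^ r) ^ k := by
    unfold NN
    rw [Nat.card_Icc]
    have h2 : 1 ≤ (4 * 2 ^ r) ^ k := Nat.one_le_pow _ _ (by positivity)
    omega
  have h3 : ((NN k r).card : ℝ) ≤ (((8 * 2 ^ r) ^ k : ℕ) : ℝ) := by exact_mod_cast h1
  refine h3.trans (le_of_eq ?_)
  push_cast
  rw [mul_pow]
  rfl

theorem ae_goodN {k d : ℕ} (p : Par k d) (g : ℕ → ℝ) (K : ℕ → ℝ → ℂ) (hK : ∀ r, Continuous (K r))
    {CK : ℝ} (hCK : ∀ r θ, ‖K r θ‖ ≤ CK) :
    ∀ᵐ t : Fin d → ℝ, ∀ φ : Fin p.q → ℕ, Function.Injective φ → (∀ l, φ l < p.L) →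
      ∀ h : ℕ, h ≤ p.u → Tendsto (fun r : ℕ => ∑ N ∈ NN k r, ∏ l,
          (‖M2 (K r) k p.n p.J p.M (φ l) r h (ff k d g t) (N : ℝ)‖ / sz k p.n p.J p.M (φ l) r) ^ 2)
        atTop (𝓝 0) := by
  rw [ae_all_iff]
  intro φ
  rw [eventually_imp_distrib_left]
  intro hφ
  rw [eventually_imp_distrib_left]
  intro hφL
  rw [ae_all_iff]
  intro h
  rw [eventually_imp_distrib_left]
  intro hh
  obtain ⟨C, hC, hev⟩ := high p g K hK hCK
  obtain ⟨r0, hr0⟩ := eventually_atTop.1 hev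
  set Φ : ℕ → (Fin d → ℝ) × ℝ → ℝ := fun r z => ∏ l,
    (‖M2 (K r) k p.n p.J p.M (φ l) r h (ff k d g z.1) z.2‖ / sz k p.n p.J p.M (φ l) r) ^ 2
    with hΦ
  have hΦc : ∀ r, Continuous (Φ r) := by
    intro r
    rw [hΦ]
    refine continuous_finsetProd _ fun l _ => ?_
    exact ((m2_cont (hK r) (hCK r) k d p.n p.J p.M (φ l) r h g).norm.div_const _).pow 2
  have hΦ0 : ∀ r z, 0 ≤ Φ r z := by
    intro r z
    rw [hΦ]
    exact Finset.prod_nonneg fun l _ => sq_nonneg _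
  have hFc : ∀ (r : ℕ) (N : ℕ), Continuous (fun t : Fin d → ℝ => Φ r (t, (N : ℝ))) := fun r N =>
    (hΦc r).comp (by fun_prop)
  set S : ℕ → (Fin d → ℝ) → ℝ := fun r t => ∑ N ∈ NN k r, Φ r (t, (N : ℝ)) with hS
  have hSc : ∀ r, Continuous (S r) := fun r => continuous_finsetSum _ fun N _ => hFc r N
  have hS0 : ∀ r t, 0 ≤ S r t := fun r t => Finset.sum_nonneg fun N _ => hΦ0 r _
  set A : ℕ → (Fin d → ℝ) → ENNReal := fun r t => ENNReal.ofReal (gw t * S r t) with hA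
  have hAm : ∀ r, Measurable (A r) := fun r =>
    (AeN_gw_cont.mul (hSc r)).measurable.ennreal_ofReal
  have hint : ∀ r, r0 ≤ r → ∫⁻ t, A r t ≤ ENNReal.ofReal (C * 8 ^ k / 2 ^ r) := by
    intro r hr
    have h1 : ∀ t, A r t = ∑ N ∈ NN k r, ENNReal.ofReal (gw t * Φ r (t, (N : ℝ))) := by
      intro t
      rw [hA]
      simp only
      rw [hS]
      simp only
      rw [Finset.mul_sum, ENNReal.ofReal_sum_of_nonneg]
      intro N _
      exact mul_nonneg (AeN_gw_pos t).le (hΦ0 r _)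
    have h2 : ∫⁻ t, A r t = ∑ N ∈ NN k r, ∫⁻ t, ENNReal.ofReal (gw t * Φ r (t, (N : ℝ))) := by
      rw [lintegral_congr h1]
      rw [lintegral_finsetSum]
      intro N _
      exact (AeN_gw_cont.mul (hFc r N)).measurable.ennreal_ofReal
    have hP : 0 < XX r := by
      unfold XX
      positivity
    rw [h2]
    have h3 : ∑ N ∈ NN k r, ∫⁻ t, ENNReal.ofReal (gw t * Φ r (t, (N : ℝ))) ≤
        ∑ _N ∈ NN k r, ENNReal.ofReal (C / (XX r) ^ (k + 1)) :=
      Finset.sum_le_sum fun N _ => hr0 r hr φ hφ hφL h hh (N : ℝ)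
    refine h3.trans ?_
    rw [Finset.sum_const, nsmul_eq_mul]
    have h4 : ((NN k r).card : ENNReal) = ENNReal.ofReal ((NN k r).card : ℝ) := by
      rw [ENNReal.ofReal_natCast]
    rw [h4, ← ENNReal.ofReal_mul (Nat.cast_nonneg _)]
    apply ENNReal.ofReal_le_ofReal
    have h5 : 8 ^ k * (XX r) ^ k * (C / (XX r) ^ (k + 1)) = C * 8 ^ k / XX r := by
      rw [pow_succ]
      field_simp
    have h6 : XX r = 2 ^ r := rfl
    rw [← h6, ← h5]
    exact mul_le_mul_of_nonneg_right (AeN_card k r) (by positivity)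
  have hmain := AeN_borel A hAm (D := C * 8 ^ k) (by positivity) hint
  filter_upwards [hmain] with t ht
  have h7 : Tendsto (fun r => (A r t).toReal) atTop (𝓝 0) := by
    have := (ENNReal.tendsto_toReal ENNReal.zero_ne_top).comp ht
    rw [ENNReal.toReal_zero] at this
    exact this
  have h8 : ∀ r, (A r t).toReal = gw t * S r t := fun r =>
    ENNReal.toReal_ofReal (mul_nonneg (AeN_gw_pos t).le (hS0 r t))
  have h9 : Tendsto (fun r => (gw t)⁻¹ * (A r t).toReal) atTop (𝓝 ((gw t)⁻¹ * 0)) :=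
    h7.const_mul _
  rw [mul_zero] at h9
  refine h9.congr fun r => ?_
  rw [h8, ← mul_assoc, inv_mul_cancel₀ (AeN_gw_pos t).ne', one_mul]

end IWar
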