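import Pool.Agent.IWar.DecodeF
import Pool.Agent.HWar.ChSize
import Pool.Agent.HWar.ChLet

/-!
# IWar.DecAppF: decoding for the families, with modes

PROOF. As `Pool/Agent/HWar/DecApp.lean` (`dec_app`), with `decodeF` instead of `decode`:
`Γ = Gt n = (Bool × Fin n) ⊕ Unit`, `a l γ = lz n (z l) γ`, `W l = τ l - τ' l`, `ω l x = τ l + m l x`,
`ω' l x = τ' l + m' l x`. Bounds for the weights: `P⁻¹ < |τ l| ≤ 1/2` and the mode is an integer, so
`|τ + m| ≥ min (|τ|, 1/2) ≥ P⁻¹` (`P ≥ 2`), and `|τ + m| ≤ 1/2 + P^(4/3) ≤ P^(3/2) ≤ Q^((3N+1)/2)` for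
large `P` (`P = Q^N`, `Q ≥ 1`, `(3N+1)/2 ≥ 3N/2` for the division of naturals). `DD r ≤ P^(4/3)`.
`ω - ω' = W` gives `m = m'`. `zsum φ z = ∑ γ, φ (lz n z γ)` for `z ∈ Zs` (`zsum_lz`, from `chain_sum`).
-/

namespace IWar

open Filter Topology MWg HWar

/-- The level of an index. -/
private def DecAppF_lev {n : ℕ} : Gt n → ℕ
  | Sum.inl x => (x.2 : ℕ)
  | Sum.inr _ => 0

private theorem DecAppF_card (n t : ℕ) :
    (Finset.univ.filter (fun γ : Gt n => DecAppF_lev γ ≤ t)).card ≤ 2 * (t + 1) + 1 := by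
  have h1 : (Finset.univ : Finset (Gt (t + 1))).card = 2 * (t + 1) + 1 := by
    rw [Finset.card_univ]
    simp [Gt]
  rw [← h1]
  apply Finset.card_le_card_of_injOn
    (fun γ : Gt n => match γ with
      | .inl x => (Sum.inl (x.1, (⟨min (x.2 : ℕ) t, by omega⟩ : Fin (t + 1))) : Gt (t + 1))
      | .inr u => Sum.inr u)
  · intro γ _
    exact Finset.mem_coe.2 (Finset.mem_univ _)
  · intro γ hγ γ' hγ' h
    have e1 := (Finset.mem_filter.1 (Finset.mem_coe.1 hγ)).2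
    have e2 := (Finset.mem_filter.1 (Finset.mem_coe.1 hγ')).2
    rcases γ with ⟨c, i⟩ | u
    · rcases γ' with ⟨c', i'⟩ | u'
      · simp only [DecAppF_lev] at e1 e2
        simp only [Sum.inl.injEq, Prod.mk.injEq, Fin.mk.injEq] at h
        obtain ⟨h2, h3⟩ := h
        have : (i : ℕ) = (i' : ℕ) := by omega
        rw [h2, Fin.ext this]
      · simp at h
    · rcases γ' with ⟨c', i'⟩ | u'
      · simp at h
      · rfl

theorem zsum_lz {k n r : ℕ} {z : Zt} (hz : z ∈ Zs k n r) (φ : ℕ → ℝ) :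
    zsum φ z = ∑ γ : Gt n, φ (lz n z γ) := by
  unfold Zs at hz
  obtain ⟨h1, _⟩ := Finset.mem_product.1 hz
  obtain ⟨h2, h3⟩ := Finset.mem_product.1 h1
  unfold zsum
  rw [chain_sum h2 φ, chain_sum h3 φ, Fintype.sum_sum_type, Fintype.sum_prod_type, Fintype.sum_bool]
  simp only [lz, Finset.univ_unique, Finset.sum_singleton]
  ring

private theorem DecAppF_up {P Q : ℝ} {N : ℕ} (hQ : 1 ≤ Q) (hP : Q ^ N = P) (hP64 : 64 ≤ P)
    {w : ℝ} (hw : |w| ≤ 1 / 2 + P ^ ((4 : ℝ) / 3)) : |w| ≤ Q ^ ((3 * N + 1) / 2) := by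
  have hP0 : 0 < P := by linarith
  have hQ0 : 0 < Q := by linarith
  have h1 : (1 : ℝ) ≤ P ^ ((4 : ℝ) / 3) := Real.one_le_rpow (by linarith) (by norm_num)
  have h2 : (2 : ℝ) ≤ P ^ ((1 : ℝ) / 6) := by
    calc (2 : ℝ) = (64 : ℝ) ^ ((1 : ℝ) / 6) := by
          rw [show (64 : ℝ) = 2 ^ (6 : ℝ) by norm_num, ← Real.rpow_mul (by norm_num)]
          norm_num
      _ ≤ P ^ ((1 : ℝ) / 6) := Real.rpow_le_rpow (by norm_num) hP64 (by norm_num)
  have h3 : P ^ ((3 : ℝ) / 2) = P ^ ((4 : ℝ) / 3) * P ^ ((1 : ℝ) / 6) := by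
    rw [← Real.rpow_add hP0]
    norm_num
  have h4 : |w| ≤ P ^ ((3 : ℝ) / 2) := by
    rw [h3]
    nlinarith
  refine h4.trans ?_
  rw [← hP, ← Real.rpow_natCast Q N, ← Real.rpow_mul hQ0.le, ← Real.rpow_natCast Q ((3 * N + 1) / 2)]
  apply Real.rpow_le_rpow_of_exponent_le hQ
  have h5 : 3 * N ≤ 2 * ((3 * N + 1) / 2) := by omega
  have h6 : (3 : ℝ) * N ≤ 2 * (((3 * N + 1) / 2 : ℕ) : ℝ) := by exact_mod_cast h5
  linarith

private theorem DecAppF_wt {P Q : ℝ} {N : ℕ} (hQ : 1 ≤ Q) (hP : Q ^ N = P) (hP64 : 64 ≤ P)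
    {τ : ℝ} {m : ℤ} {D : ℕ} (hD : (D : ℝ) ≤ P ^ ((4 : ℝ) / 3)) (hτ : P⁻¹ < |τ|)
    (hτ2 : |τ| ≤ 1 / 2) (hm : |m| ≤ (D : ℤ)) :
    (Q ^ N)⁻¹ ≤ |τ + m| ∧ |τ + m| ≤ Q ^ ((3 * N + 1) / 2) := by
  constructor
  · rw [hP]
    rcases eq_or_ne m 0 with h0 | h0
    · subst h0
      rw [Int.cast_zero, add_zero]
      exact hτ.le
    · have h1 : (1 : ℝ) ≤ |(m : ℝ)| := by
        have : (1 : ℤ) ≤ |m| := Int.one_le_abs h0
        exact_mod_cast this
      have h2 : |(m : ℝ)| - |τ| ≤ |τ + m| := by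
        have h3 := abs_sub_abs_le_abs_sub (m : ℝ) (-τ)
        rw [abs_neg, sub_neg_eq_add, add_comm] at h3
        exact h3
      have h3 : P⁻¹ ≤ 64⁻¹ := inv_anti₀ (by norm_num) hP64
      norm_num at h3
      linarith
  · apply DecAppF_up hQ hP hP64
    have h1 : |(m : ℝ)| ≤ D := by exact_mod_cast hm
    have h2 := abs_add_le τ (m : ℝ)
    linarith

theorem dec_appF {k d : ℕ} (p : Par k d) (hp : ParF p) : ∃ C : ℝ, 0 < C ∧ ∀ᶠ r : ℕ in atTop,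
    ∀ φ : Fin p.q → ℕ, Function.Injective φ → (∀ l, φ l < p.L) →
    ∀ z : Fin p.q → Zt, (∀ l, z l ∈ Zs k p.n r) →
    ∀ b b' : Fin p.q → (Fin p.J × Fin p.M → ℕ), (∀ l, b l ∈ Bk k p.J p.M (φ l) r) →
    (∀ l, b' l ∈ Bk k p.J p.M (φ l) r) →
    ∀ m m' : Fin p.q → (Fin p.J × Fin p.M → ℤ), (∀ l x, |m l x| ≤ (DD r : ℤ)) →
    (∀ l x, |m' l x| ≤ (DD r : ℤ)) →
    ∀ τ τ' : Fin p.q → ℝ, (∀ l, τ l ∈ TH r) → (∀ l, τ' l ∈ TH r) → (∀ l, |τ l - τ' l| ≤ 1 / 4) →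
    (∀ i : Fin d, |∑ l, ((τ l - τ' l) * zsum (fun x => (x : ℝ) ^ (k - 1 - (i : ℕ))) (z l) +
        ∑ x, ((τ l + m l x) * (b l x : ℝ) ^ (k - 1 - (i : ℕ)) -
          (τ' l + m' l x) * (b' l x : ℝ) ^ (k - 1 - (i : ℕ))))| ≤ XX r) →
    b = b' ∧ m = m' ∧ ∀ l, |τ l - τ' l| ≤ C * (XX r / (XX r) ^ p.m1) := by
  classical
  have hk5 := p.hk
  have hk2 : 2 ≤ k := by omega
  have hj0 := p.hj0
  have hj0J := p.hj0J
  have hJk := p.hJk
  obtain ⟨Γ0, hΓ0⟩ : ∃ Γ0 : Finset (Gt p.n),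
      Γ0 = Finset.univ.filter (fun γ : Gt p.n => DecAppF_lev γ ≤ 0) := ⟨_, rfl⟩
  obtain ⟨Γ1, hΓ1⟩ : ∃ Γ1 : Finset (Gt p.n),
      Γ1 = Finset.univ.filter (fun γ : Gt p.n => DecAppF_lev γ ≤ 4 * p.j0) := ⟨_, rfl⟩
  have hc0 : Γ0.card ≤ 3 := by rw [hΓ0]; exact DecAppF_card p.n 0
  have hc1 : Γ1.card ≤ 8 * p.j0 + 3 := by
    rw [hΓ1]
    refine (DecAppF_card p.n (4 * p.j0)).trans (by omega)
  have m0 : ∀ γ, γ ∈ Γ0 ↔ DecAppF_lev γ ≤ 0 := by
    intro γ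
    rw [hΓ0, Finset.mem_filter]
    simp
  have m1 : ∀ γ, γ ∈ Γ1 ↔ DecAppF_lev γ ≤ 4 * p.j0 := by
    intro γ
    rw [hΓ1, Finset.mem_filter]
    simp
  obtain ⟨δ, hδ, C, Q0, hC, hQ0, hdec⟩ := decodeF p hp Γ0 Γ1 hc0 hc1
  have hβ : 0 < be p.M p.L 0 := by
    unfold be
    positivity
  refine ⟨C, hC, ?_⟩
  filter_upwards [ch_size p.hk p.j0 p.n p.hst hδ hβ, (QQ_tendsto hk2).eventually_ge_atTop Q0,
    (QQ_tendsto hk2).eventually_ge_atTop 2, Filter.eventually_ge_atTop 6] with r hch hQr hQ2 hr6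
  intro φ hφ hφL z hz b b' hb hb' m m' hm hm' τ τ' hτ hτ' hττ hrel
  have hX := QQ_pow hk2 r
  obtain ⟨Q, hQ⟩ : ∃ Q, Q = QQ k r := ⟨_, rfl⟩
  obtain ⟨β, hβe⟩ : ∃ β, β = be p.M p.L 0 := ⟨_, rfl⟩
  rw [← hQ] at hX hch hQr hQ2
  rw [← hβe] at hβ hch
  have hQ1 : 1 ≤ Q := by linarith
  have hQpos : 0 < Q := by linarith
  have hXpos : 0 < XX r := by unfold XX; positivity
  -- bounds for the letters
  have hlet : ∀ l (γ : Gt p.n),
      (∃ i : ℕ, i = DecAppF_lev γ ∧ i < p.n ∧ (nxt k)^[i] (XX r) < (lz p.n (z l) γ : ℝ) ∧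
        (lz p.n (z l) γ : ℝ) ≤ 16 * (nxt k)^[i] (XX r)) ∨
      (DecAppF_lev γ = 0 ∧ XX r / 8 < (lz p.n (z l) γ : ℝ) ∧
        (lz p.n (z l) γ : ℝ) ≤ XX r / 4) := by
    intro l γ
    have hz' := hz l
    unfold Zs at hz'
    obtain ⟨h1, h4⟩ := Finset.mem_product.1 hz'
    obtain ⟨h2, h3⟩ := Finset.mem_product.1 h1
    rcases γ with ⟨c, i⟩ | u
    · left
      have hpi : 0 ≤ (nxt k)^[(i : ℕ)] (XX r) := by
        have := (hch i i.2).1.1
        linarith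
      refine ⟨(i : ℕ), rfl, i.2, ?_⟩
      cases c with
      | false => exact (mem_mainI hpi).1 (chain_letter h2 i i.2)
      | true => exact (mem_mainI hpi).1 (chain_letter h3 i i.2)
    · right
      exact ⟨rfl, (mem_J1 hXpos.le).1 h4⟩
  -- the top letters are at least `P / 8`
  have htop : ∀ l (γ : Gt p.n), DecAppF_lev γ = 0 → XX r / 8 ≤ (lz p.n (z l) γ : ℝ) := by
    intro l γ h0
    rcases hlet l γ with ⟨i, hi, hin, e1, e2⟩ | ⟨_, e1, e2⟩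
    · rw [h0] at hi
      subst hi
      simp only [Function.iterate_zero, id_eq] at e1
      linarith
    · exact e1.le
  have hpowle : ∀ i j : ℕ, i ≤ j → Q ^ i ≤ Q ^ j := fun i j hij => pow_le_pow_right₀ hQ1 hij
  have hbulk : ∀ (bb : Fin p.q → (Fin p.J × Fin p.M → ℕ)),
      (∀ l, bb l ∈ Bk k p.J p.M (φ l) r) →
      ∀ l x, be p.M (φ l) x.2 * Q ^ (k - 1 - 4 * (x.1 : ℕ)) < (bb l x : ℝ) ∧
      (bb l x : ℝ) ≤ 2 * (be p.M (φ l) x.2 * Q ^ (k - 1 - 4 * (x.1 : ℕ))) := by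
    intro bb hbb l x
    have h1 := hbb l
    unfold Bk at h1
    have h2 := Fintype.mem_piFinset.1 h1 x
    unfold blk at h2
    rw [← hQ] at h2
    have hy : 0 ≤ be p.M (φ l) x.2 * Q ^ (k - 1 - 4 * (x.1 : ℕ)) := by
      unfold be
      positivity
    obtain ⟨h3, h4⟩ := Finset.mem_Ioc.1 h2
    exact ⟨(Nat.floor_lt hy).1 h3, (Nat.le_floor_iff (by positivity)).1 h4⟩
  have hX64 : (64 : ℝ) ≤ XX r := by
    unfold XX
    calc (64 : ℝ) = 2 ^ 6 := by norm_num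
      _ ≤ 2 ^ r := pow_le_pow_right₀ (by norm_num) hr6
  have hDD : ((DD r : ℕ) : ℝ) ≤ (XX r) ^ ((4 : ℝ) / 3) := by
    unfold DD
    exact Nat.floor_le (Real.rpow_nonneg hXpos.le _)
  have res := hdec Q hQr φ hφ hφL (fun l γ => lz p.n (z l) γ) b b' ?_ ?_ ?_ ?_ ?_ ?_
    (hbulk b hb) (hbulk b' hb') (fun l => τ l - τ' l) (fun l x => τ l + m l x)
    (fun l x => τ' l + m' l x) hττ ?_ ?_ ?_ ?_
  · obtain ⟨r1, r2, r3⟩ := res
    rw [hX] at r3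
    refine ⟨r1, ?_, r3⟩
    funext l x
    have h1 := r2 l x
    have h2 : (m l x : ℝ) = (m' l x : ℝ) := by linarith
    exact_mod_cast h2
  · -- 1
    intro l γ
    rw [hX]
    rcases hlet l γ with ⟨i, hi, hin, e1, e2⟩ | ⟨_, e1, e2⟩
    · have := (hch i hin).1.2
      linarith
    · linarith
  · -- 2
    intro l γ hγ
    rw [hX]
    exact htop l γ (Nat.le_zero.1 ((m0 γ).1 hγ))
  · -- 3
    intro l γ hγ
    rw [m0] at hγ
    rcases hlet l γ with ⟨i, hi, hin, e1, e2⟩ | ⟨h0, e1, e2⟩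
    · have := (hch i hin).2.1 (by omega)
      linarith
    · omega
  · -- 4
    intro l γ hγ
    rw [m1] at hγ
    rcases Nat.eq_zero_or_pos (DecAppF_lev γ) with h0 | h0
    · refine le_trans ?_ (htop l γ h0)
      rw [← hX]
      have e1 : Q ^ (k - 1) = Q ^ (k - 1 - 4 * p.j0) * Q ^ (4 * p.j0) := by
        rw [← pow_add]
        congr 1
        omega
      have e2 : (8 : ℝ) ≤ Q ^ (4 * p.j0) := by
        calc (8 : ℝ) ≤ 2 ^ 4 := by norm_num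
          _ ≤ Q ^ 4 := pow_le_pow_left₀ (by norm_num) hQ2 4
          _ ≤ Q ^ (4 * p.j0) := hpowle _ _ (by omega)
      have e3 : 0 < Q ^ (k - 1 - 4 * p.j0) := by positivity
      rw [e1]
      nlinarith
    · rcases hlet l γ with ⟨i, hi, hin, e1, e2⟩ | ⟨h00, e1, e2⟩
      · have h3 := ((hch i hin).2.2.1 (by omega) (by omega)).1
        have h4 : Q ^ (k - 1 - 4 * p.j0) ≤ Q ^ (k - 1 - i) := hpowle _ _ (by omega)
        have h5 : 0 < Q ^ (k - 1 - i) := by positivity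
        linarith
      · omega
  · -- 5
    intro l γ hγ
    rw [m1] at hγ
    rcases hlet l γ with ⟨i, hi, hin, e1, e2⟩ | ⟨h0, e1, e2⟩
    · have := (hch i hin).2.2.2 (by omega)
      linarith
    · omega
  · -- 6
    intro l γ hγ j hj x hx1 hx2
    rw [m1] at hγ
    rw [← hβe] at hx1
    have hxle : x ≤ XX r / 128 := by
      have : Q ^ (k - 1 - 4 * j) ≤ Q ^ (k - 1) := hpowle _ _ (by omega)
      rw [hX] at this
      linarith
    rcases Nat.eq_zero_or_pos (DecAppF_lev γ) with h0 | h0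
    · have e1 := htop l γ h0
      have e2 : (lz p.n (z l) γ : ℝ) - x ≤ |x - (lz p.n (z l) γ : ℝ)| := by
        rw [abs_sub_comm]
        exact le_abs_self _
      linarith
    · rcases hlet l γ with ⟨i, hi, hin, e1, e2⟩ | ⟨h00, e1, e2⟩
      · obtain ⟨g1, g2⟩ := (hch i hin).2.2.1 (by omega) (by omega)
        have hpi : 1 ≤ (nxt k)^[i] (XX r) := (hch i hin).1.1
        rcases le_or_gt i (4 * j) with hij | hij
        · have h3 : Q ^ (k - 1 - 4 * j) ≤ Q ^ (k - 1 - i) := hpowle _ _ (by omega)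
          have e3 : (lz p.n (z l) γ : ℝ) - x ≤ |x - (lz p.n (z l) γ : ℝ)| := by
            rw [abs_sub_comm]
            exact le_abs_self _
          linarith
        · have h3 : Q ^ (k - i) ≤ Q ^ (k - 1 - 4 * j) := hpowle _ _ (by omega)
          have h4 : β * Q ^ (k - i) ≤ β * Q ^ (k - 1 - 4 * j) := mul_le_mul_of_nonneg_left h3 hβ.le
          have e3 : x - (lz p.n (z l) γ : ℝ) ≤ |x - (lz p.n (z l) γ : ℝ)| := le_abs_self _
          linarith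
      · omega
  · -- 8
    intro l x
    refine ⟨m l x - m' l x, ?_⟩
    push_cast
    ring
  · intro l x
    have h1 := hτ l
    unfold TH at h1
    exact DecAppF_wt hQ1 hX hX64 hDD h1.1 h1.2 (hm l x)
  · intro l x
    have h1 := hτ' l
    unfold TH at h1
    exact DecAppF_wt hQ1 hX hX64 hDD h1.1 h1.2 (hm' l x)
  · intro i
    rw [hX]
    refine le_trans (le_of_eq ?_) (hrel i)
    congr 1
    apply Finset.sum_congr rfl
    intro l _
    rw [zsum_lz (hz l) (fun x => (x : ℝ) ^ (k - 1 - (i : ℕ)))]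

end IWar
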