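import Pool.Agent.IWar.AsmF
import Pool.Agent.IWar.AeN
import Pool.Agent.IWar.AeF
import Pool.Agent.MWg.FinalD
import Pool.Agent.FWar.Dioph

/-!
# IWar.FinF: for almost all coefficients every large integer is a sum of `p.s` integer parts

PROOF. As `Pool/Agent/HWar/Fin.lean` (`apx_ae`). `f = ff k d (g.eval ·) t` is `x^k + g_t(x)` with the
polynomial `g_t = g + ∑_i t_i X^(k-1-i)`, whose coefficient of `X^(k-1)` is `FWar.Dioph` for almost all
`t`. Take `C`, `K1`, `K2`, `K3` from `asmF p`, `ae_goodN` for `K1` and for `K2`, and `ae_goodF` for `K3` (`hp`); let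
`t` be in the intersection. Suppose that arbitrarily large `N` are not of the form
`∑_{i<s} ⌊f(x_i)⌋`, `x_i ≥ 1`. For such an `N` choose `r` with `4^k P^k ≤ N ≤ 8^k P^k` (`finalD_scale`), that is
`N ∈ NN k r`. No tuple of any family `l < L` represents `N` (`lets`, `lets_sum` with `φ = fl f`,
`lets_length`, `lets_pos`, `list_fin`). So by `asmF`, for every `l < L` at least one of the
`2(u+1) + 1 ≤ 3(u+1)` quantities is `≥ c' := c/(2u+3)`; as `L > 3(u+1)(q-1)` (`ParF.hL`) the same quantity is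
`≥ c'` for at least `q` families, which gives an injective `φ : Fin q → ℕ`, `φ l < L`, with
`∏_l (..)² ≥ c'^(2q)` for this `N`. Hence the sum over the finitely many `φ` (with values `< L`), over
`h ≤ u` and over the three kinds of the sums `∑_{N ∈ NN k r} ∏_l (..)²` is `≥ c'^(2q)` for arbitrarily large
`r`, contradicting `ae_goodN`, `ae_goodF`.
`exact_mono`: apply `Exact f s` to `N - (s'-s) ⌊f 1⌋` and add ones.
-/

namespace IWar

open Filter Topology MeasureTheory MWg HWar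

theorem exact_mono {f : ℕ → ℝ} {s s' : ℕ} (hs : s ≤ s') (h : Exact f s) : Exact f s' := by
  obtain ⟨j, rfl⟩ : ∃ j, s' = s + j := ⟨s' - s, by omega⟩
  obtain ⟨N0, hN0⟩ := h
  refine ⟨N0 + j * ⌊f 1⌋, fun N hN => ?_⟩
  obtain ⟨x, hx, hxN⟩ := hN0 (N - j * ⌊f 1⌋) (by linarith)
  refine ⟨Fin.append x (fun _ => 1), fun i => ?_, ?_⟩
  · refine Fin.addCases (fun i => ?_) (fun i => ?_) i
    · rw [Fin.append_left]
      exact hx i
    · rw [Fin.append_right]
      exact Nat.one_pos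
  · rw [Fin.sum_univ_add]
    simp only [Fin.append_left, Fin.append_right, Finset.sum_const, Finset.card_univ,
      Fintype.card_fin, nsmul_eq_mul]
    rw [hxN]
    ring

/-- The polynomial with the coefficients `t` added. -/
private noncomputable def FinF_gt (k d : ℕ) (g : Polynomial ℝ) (t : Fin d → ℝ) : Polynomial ℝ :=
  g + ∑ i : Fin d, Polynomial.C (t i) * Polynomial.X ^ (k - 1 - (i : ℕ))

private theorem FinF_gt_eval {k d : ℕ} (g : Polynomial ℝ) (t : Fin d → ℝ) :
    (fun x : ℕ => (x : ℝ) ^ k + (FinF_gt k d g t).eval (x : ℝ)) =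
      ff k d (fun x => g.eval (x : ℝ)) t := by
  funext x
  unfold FinF_gt ff
  rw [Polynomial.eval_add, Polynomial.eval_finsetSum]
  simp only [Polynomial.eval_mul, Polynomial.eval_C, Polynomial.eval_pow, Polynomial.eval_X]
  ring

private theorem FinF_gt_deg {k d : ℕ} (hk : 1 ≤ k) {g : Polynomial ℝ} (hg : g.natDegree < k)
    (t : Fin d → ℝ) : (FinF_gt k d g t).natDegree < k := by
  have h1 : (∑ i : Fin d, Polynomial.C (t i) * Polynomial.X ^ (k - 1 - (i : ℕ))).natDegree ≤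
      k - 1 := by
    refine Polynomial.natDegree_sum_le_of_forall_le _ _ fun i _ => ?_
    exact (Polynomial.natDegree_C_mul_X_pow_le _ _).trans (by omega)
  have h2 : (FinF_gt k d g t).natDegree ≤ k - 1 :=
    (Polynomial.natDegree_add_le _ _).trans (max_le (by omega) h1)
  omega

private theorem FinF_gt_coeff {k d : ℕ} (hdk : d ≤ k) (hd : 0 < d) (g : Polynomial ℝ)
    (t : Fin d → ℝ) : (FinF_gt k d g t).coeff (k - 1) = (g.coeff (k - 1) + t ⟨0, hd⟩) / 1 := by
  unfold FinF_gt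
  rw [Polynomial.coeff_add, Polynomial.finsetSum_coeff, div_one]
  congr 1
  rw [Finset.sum_eq_single (⟨0, hd⟩ : Fin d)]
  · simp
  · intro i _ hi
    rw [Polynomial.coeff_C_mul, Polynomial.coeff_X_pow, if_neg, mul_zero]
    have h1 : (i : ℕ) ≠ 0 := fun h => hi (Fin.ext h)
    have h2 := i.2
    omega
  · intro h
    exact absurd (Finset.mem_univ _) h

private theorem FinF_ae_eval {m : ℕ} {p : ℝ → Prop} (j : Fin m)
    (h : ∀ᵐ s : ℝ, p s) : ∀ᵐ t : Fin m → ℝ, p (t j) := by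
  have h1 : Measure.QuasiMeasurePreserving (Function.eval j) (volume : Measure (Fin m → ℝ))
      (volume : Measure ℝ) := Measure.quasiMeasurePreserving_eval (fun _ => volume) j
  exact h1.ae h

/-- Pigeonhole for the families. -/
private theorem FinF_pigeon {I : Type} [Fintype I] [DecidableEq I] {L q : ℕ} (hq : 1 ≤ q)
    (hL : Fintype.card I * (q - 1) < L) {V : I → ℕ → ℝ} {c : ℝ}
    (hc : ∀ l : ℕ, l < L → c ≤ ∑ j, V j l) (hI : 0 < Fintype.card I) :
    ∃ j : I, ∃ φ : Fin q → Fin L, Function.Injective φ ∧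
      ∀ i, c / Fintype.card I ≤ V j (φ i) := by
  have h1 : ∀ l : Fin L, ∃ j : I, c / Fintype.card I ≤ V j l := by
    intro l
    by_contra hcon
    push Not at hcon
    have h2 : ∑ j, V j (l : ℕ) < ∑ _j : I, c / Fintype.card I :=
      Finset.sum_lt_sum_of_nonempty (Finset.card_pos.1 (by rwa [Finset.card_univ]))
        fun j _ => hcon j
    rw [Finset.sum_const, Finset.card_univ, nsmul_eq_mul, mul_div_cancel₀] at h2
    · exact absurd (hc l l.2) (not_le.2 h2)
    · exact_mod_cast hI.ne'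
  choose J hJ using h1
  obtain ⟨j, _, hj⟩ := Finset.exists_lt_card_fiber_of_mul_lt_card_of_maps_to
    (s := (Finset.univ : Finset (Fin L))) (t := (Finset.univ : Finset I)) (f := J) (n := q - 1)
    (fun _ _ => Finset.mem_univ _) (by rwa [Finset.card_univ, Finset.card_univ, Fintype.card_fin])
  have h3 : Fintype.card (Fin q) ≤
      Fintype.card {x // x ∈ (Finset.univ : Finset (Fin L)).filter fun x => J x = j} := by
    rw [Fintype.card_fin, Fintype.card_coe]
    omega
  obtain ⟨e⟩ := Function.Embedding.nonempty_of_card_le h3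
  refine ⟨j, fun i => (e i : Fin L), fun a b hab => e.injective (Subtype.ext hab), fun i => ?_⟩
  have h4 := (Finset.mem_filter.1 (e i).2).2
  have h5 := hJ (e i)
  rwa [h4] at h5

theorem exact_ae {k d : ℕ} (p : Par k d) (hp : ParF p) {g : Polynomial ℝ}
    (hg : g.natDegree < k) :
    ∀ᵐ t : Fin d → ℝ, Exact (ff k d (fun x => g.eval (x : ℝ)) t) p.s := by
  have hk5 := p.hk
  have hd0 : 0 < d := by
    have h1 := p.c1
    have h2 := p.c2
    have h3 := p.hq
    have h4 : 3 ≤ p.q * (8 * p.j0 + 3) :=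
      le_trans (by omega) (Nat.mul_le_mul h3 (show 3 ≤ 8 * p.j0 + 3 by omega))
    omega
  obtain ⟨C, K1, K2, K3, hC, hK1, hK2, hK3, hKb, hK30, hasm⟩ := asmF p
  have hA1 := ae_goodN p (fun x => g.eval (x : ℝ)) K1 hK1 (CK := C) (fun r θ => (hKb r θ).1)
  have hA2 := ae_goodN p (fun x => g.eval (x : ℝ)) K2 hK2 (CK := C) (fun r θ => (hKb r θ).2.1)
  have hA3 := ae_goodF p hp (fun x => g.eval (x : ℝ)) K3 hK3 (CK := C)
    (fun r θ => (hKb r θ).2.2) hK30
  have hA4 : ∀ᵐ t : Fin d → ℝ, FWar.Dioph ((g.coeff (k - 1) + t ⟨0, hd0⟩) / 1) :=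
    FinF_ae_eval (p := fun s => FWar.Dioph ((g.coeff (k - 1) + s) / 1)) ⟨0, hd0⟩
      (FWar.ae_dioph_affine one_ne_zero)
  filter_upwards [hA1, hA2, hA3, hA4] with t ht1 ht2 ht3 ht4
  obtain ⟨c, hc, hev⟩ := hasm (FinF_gt k d g t) (FinF_gt_deg (by omega) hg t)
    (by rw [FinF_gt_coeff p.hd hd0]; exact ht4)
  rw [FinF_gt_eval] at hev
  set f : ℕ → ℝ := ff k d (fun x => g.eval (x : ℝ)) t with hf
  by_contra hnot
  let I : Type := (Fin (p.u + 1) ⊕ Fin (p.u + 1)) ⊕ Unit
  have hIc : Fintype.card I = 2 * (p.u + 1) + 1 := by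
    simp only [I, Fintype.card_sum, Fintype.card_fin, Fintype.card_unit]
    ring
  have hI0 : 0 < Fintype.card I := by rw [hIc]; omega
  let V : ℕ → ℕ → I → ℕ → ℝ := fun r N => Sum.elim (Sum.elim
    (fun h l => ‖M2 (K1 r) k p.n p.J p.M l r (h : ℕ) f (N : ℝ)‖ / sz k p.n p.J p.M l r)
    (fun h l => ‖M2 (K2 r) k p.n p.J p.M l r (h : ℕ) f (N : ℝ)‖ / sz k p.n p.J p.M l r))
    (fun _ l => ‖M2 (K3 r) k p.n p.J p.M l r 1 (fl f) (N : ℝ)‖ / sz k p.n p.J p.M l r)
  have htend : ∀ (φ : Fin p.q → Fin p.L) (j : I), Function.Injective φ →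
      Tendsto (fun r : ℕ => ∑ N ∈ NN k r, ∏ i, (V r N j (φ i)) ^ 2) atTop (𝓝 0) := by
    intro φ j hφ
    have hφ' : Function.Injective fun i => (φ i : ℕ) := fun a b hab => hφ (Fin.ext hab)
    rcases j with (h | h) | u
    · exact ht1 (fun i => (φ i : ℕ)) hφ' (fun i => (φ i).2) h (by have := h.2; omega)
    · exact ht2 (fun i => (φ i : ℕ)) hφ' (fun i => (φ i).2) h (by have := h.2; omega)
    · exact ht3 (fun i => (φ i : ℕ)) hφ' (fun i => (φ i).2)
  set c' : ℝ := c / Fintype.card I with hc'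
  have hc'0 : 0 < c' := div_pos hc (by exact_mod_cast hI0)
  have hc1 : 0 < (c' ^ 2) ^ p.q := by positivity
  have hall : ∀ᶠ r : ℕ in atTop, ∀ (φ : Fin p.q → Fin p.L) (j : I), Function.Injective φ →
      ∑ N ∈ NN k r, ∏ i, (V r N j (φ i)) ^ 2 < (c' ^ 2) ^ p.q := by
    rw [eventually_all]
    intro φ
    rw [eventually_all]
    intro j
    by_cases hφ : Function.Injective φ
    · filter_upwards [(htend φ j hφ).eventually (gt_mem_nhds hc1)] with r hr _
      exact hr
    · exact Eventually.of_forall fun r hφ' => absurd hφ' hφ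
  obtain ⟨r0, hr0⟩ := eventually_atTop.1 (hev.and hall)
  -- a large integer without a representation
  obtain ⟨N, hN, hNrep⟩ : ∃ N : ℤ, ⌈(4 : ℝ) ^ k * XX r0 ^ k⌉ ≤ N ∧
      ∀ x : Fin p.s → ℕ, (∀ i, 0 < x i) → ∑ i, ⌊f (x i)⌋ ≠ N := by
    by_contra hcon
    push Not at hcon
    exact hnot ⟨_, fun N hN => hcon N hN⟩
  have hNr : (4 : ℝ) ^ k * XX r0 ^ k ≤ (N : ℝ) := Int.ceil_le.1 hN
  have hN0 : 0 ≤ N := by
    have h1 : (0 : ℝ) ≤ (4 : ℝ) ^ k * XX r0 ^ k :=
      mul_nonneg (by positivity) (pow_nonneg (finalD_XX_pos r0).le k)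
    exact_mod_cast h1.trans hNr
  obtain ⟨N', rfl⟩ := Int.eq_ofNat_of_zero_le hN0
  obtain ⟨r, hrr, hr1, hr2⟩ := finalD_scale (k := k) (by omega) r0 hNr
  obtain ⟨hrev, hrall⟩ := hr0 r hrr
  have hNN : N' ∈ NN k r := by
    unfold NN
    rw [Finset.mem_Icc]
    rw [← mul_pow] at hr1 hr2
    unfold XX at hr1 hr2
    constructor
    · have h1 : (((4 * 2 ^ r) ^ k : ℕ) : ℝ) ≤ ((N' : ℕ) : ℝ) := by
        push_cast
        push_cast at hr1
        exact hr1
      exact_mod_cast h1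
    · have h1 : ((N' : ℕ) : ℝ) ≤ (((8 * 2 ^ r) ^ k : ℕ) : ℝ) := by
        push_cast
        push_cast at hr2
        exact hr2
      exact_mod_cast h1
  have hbad : ∀ l : ℕ, l < p.L → c ≤ ∑ j, V r N' j l := by
    intro l hl
    have h1 := hrev l hl N' hNN (fun z hz b hb heq => by
      obtain ⟨x, hx, hxs⟩ := list_fin (lets z b) (lets_length hz b)
      refine hNrep x (fun i => lets_pos hz hb _ (hx i)) ?_
      have h2 := hxs (fl f)
      rw [lets_sum, heq] at h2
      unfold fl at h2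
      have h3 : ((∑ i, ⌊f (x i)⌋ : ℤ) : ℝ) = (((N' : ℕ) : ℤ) : ℝ) := by
        push_cast
        exact h2
      exact_mod_cast h3)
    refine h1.trans (le_of_eq ?_)
    rw [Fintype.sum_sum_type, Fintype.sum_sum_type, Finset.sum_range, Finset.sum_add_distrib]
    simp only [V, Sum.elim_inl, Sum.elim_inr, Finset.univ_unique, Finset.sum_singleton]
  have hLI : Fintype.card I * (p.q - 1) < p.L := by
    refine lt_of_le_of_lt ?_ hp.hL
    rw [hIc, ← mul_assoc]
    exact Nat.mul_le_mul_right _ (by omega)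
  obtain ⟨j, φ, hφ, hφc⟩ := FinF_pigeon p.hq hLI hbad hI0
  have h1 := hrall φ j hφ
  have h2 : (c' ^ 2) ^ p.q ≤ ∏ i, (V r N' j (φ i)) ^ 2 := by
    have h3 : (c' ^ 2) ^ p.q = ∏ _i : Fin p.q, c' ^ 2 := by
      rw [Finset.prod_const, Finset.card_univ, Fintype.card_fin]
    rw [h3]
    exact Finset.prod_le_prod (fun _ _ => by positivity)
      fun i _ => pow_le_pow_left₀ hc'0.le (hφc i) 2
  have h3 : ∏ i, (V r N' j (φ i)) ^ 2 ≤ ∑ N ∈ NN k r, ∏ i, (V r N j (φ i)) ^ 2 :=
    Finset.single_le_sum (f := fun N => ∏ i, (V r N j (φ i)) ^ 2)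
      (fun N _ => Finset.prod_nonneg fun i _ => by positivity) hNN
  linarith

end IWar
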