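import Pool.Agent.IWar.HighW
import Pool.Agent.IWar.DecAppF
import Pool.Agent.HWar.BkSize

/-!
# IWar.HighF: the mean of the products of `q` families, for the integer parts

Compare `Pool/Agent/HWar/High.lean` (proved). PROOF. Let `P = XX r`, `D = DD r`, `𝓜 = Icc (-D) D` (integers),
`w m = Cc/(1+|m|) > 0` (enlarge `Cc`, so that `Cc ≥ 1`), `F0 x = x^k + g x`, `Γ = Gt n`.
Split `TH r` into the nine sets `T_i = TH r ∩ {θ | ⌊8θ⌋ = i - 4}`, `i : Fin 9` (disjoint, their union is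
`TH r` because `|θ| ≤ 1/2`; `|τ - τ'| ≤ 1/4` in each `T_i`), `MA (TH r) = ∑_i MA (T_i)`,
`‖∑_i x_i‖² ≤ 9 ∑ ‖x_i‖²`. By `Finset.prod_univ_sum`
`∏_γ LL(z_γ) = ∑_{μ ∈ 𝓜^Γ} ∏_γ (c_{μ γ}(θ) ee(θ f z_γ) ee(μ_γ f z_γ))` and the same for the bulk letters with
modes `ν ∈ 𝓜^(Fin J × Fin M)`. So `MA (T_i) = ∑_{z ∈ Zs} ∑_μ ee (∑_γ μ_γ f(z_γ)) R_{z,μ}`,
`R_{z,μ} = ∑_{(b,ν)} ∫_{T_i} ψ(θ) ee (∑_i t_i (θ V0 i + V1 i)) dθ`, where
`ψ(θ) = K θ ∏_γ c_{μ γ}(θ) ∏_x c_{ν x}(θ) ee (θ (zsum F0 z + bsum F0 b - Y)) ee (∑_x ν_x F0 (b x))`,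
`V0 i = zsum (x^(k-1-i)) z + bsum (x^(k-1-i)) b`, `V1 i = ∑_x ν_x (b x)^(k-1-i)`
(`f = ff k d g t` is affine in `t`: `HWar.zsum_ff`, `HWar.bsum_ff`; `zsum_lz`), and
`‖ψ‖ ≤ CK w_μ ∏_x w(ν_x)`, `w_μ = ∏_γ w(μ_γ)`. By Cauchy-Schwarz
`‖MA (T_i)‖² ≤ (∑_{z,μ} w_μ) ∑_{z,μ} w_μ⁻¹ ‖R_{z,μ}‖²`. The product over `l : Fin q` is at most
`9^q ∑_{ι : Fin q → Fin 9} ∏_l (∑_{z,μ} w_μ) · ∑_{(z_l,μ_l)} ∏_l w_{μ_l}⁻¹ ‖R^l‖²`, and `highW` applies to every
`ι`, `(z_l, μ_l)_l`: `𝓑 l = Bk (φ l) ×ˢ piFinset (fun _ => 𝓜)`, `T l = T_{ι l}`, `R = 1/2`, `E = P`,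
`ν = C0 P/P^m1` (`dec_appF`; the relation: `∑_l (τ_l V0 + V1 - τ'_l V0' - V1')` equals the expression in
`dec_appF`), `ω (b,ν) = CK w_μ ∏ w(ν_x)`:
`∑ ω² = CK² w_μ² #Bk (∑_m w(m)²)^(JM) ≤ C w_μ² #Bk` (`∑ 1/(1+|m|)² ≤ 5`),
`∑ ω ≤ CK w_μ #Bk (Cc (2D+1))^(JM)`. With `S1 = ∑_{m ∈ 𝓜} w m ≤ C (r+1)` (`∑_{|m| ≤ D} 1/(1+|m|) ≤ 3 + 2 log D`,
`D ≤ 2^(4r/3)`), `∑_{z,μ} w_μ = #Zs S1^(2n+1)`, and `S1^((2n+1) 2q) ≤ P` for large `r`. The sum over
`(z_l, μ_l)` of `∏ w_{μ_l}⁻¹ w_{μ_l}² = ∏ w_{μ_l}` gives `(#Zs S1^(2n+1))^q` again. Total, divided by `∏ sz²`,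
`sz = #Zs #Bk/P^k`:
`≤ C P^(2kq) P (exp(-πP²) (3 Cc P²)^(2JMq) + (2 C0 P/P^m1)^q/∏ #Bk_l)`, and with `card_Bk` and `c8`
(which has one more factor `P^q`) this is `≤ C/P^(k+1)`.
-/

namespace IWar

open Filter Topology MeasureTheory MWg HWar

theorem TH_meas (r : ℕ) : MeasurableSet (TH r) := by
  unfold TH
  exact (measurableSet_lt measurable_const continuous_abs.measurable).inter
    (measurableSet_le continuous_abs.measurable measurable_const)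

private theorem HighF_TH_sub (r : ℕ) : TH r ⊆ Set.Icc (-(1 / 2) : ℝ) (1 / 2) := fun θ hθ => by
  rw [Set.mem_Icc, ← abs_le]
  exact hθ.2

/-- The pieces of `TH r`. -/
private def HighF_T (r : ℕ) (i : Fin 9) : Set ℝ := TH r ∩ {θ | ⌊8 * θ⌋ = ((i : ℕ) : ℤ) - 4}

private theorem HighF_T_meas (r : ℕ) (i : Fin 9) : MeasurableSet (HighF_T r i) := by
  unfold HighF_T
  refine (TH_meas r).inter ?_
  exact (Int.measurable_floor.comp (measurable_const_mul (8 : ℝ))) (measurableSet_singleton _)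

private theorem HighF_T_abs {r : ℕ} {i : Fin 9} {θ : ℝ} (hθ : θ ∈ HighF_T r i) : |θ| ≤ 1 / 2 :=
  hθ.1.2

private theorem HighF_T_diff {r : ℕ} {i : Fin 9} {τ τ' : ℝ} (h : τ ∈ HighF_T r i)
    (h' : τ' ∈ HighF_T r i) : |τ - τ'| ≤ 1 / 4 := by
  have h1 : ⌊8 * τ⌋ = ⌊8 * τ'⌋ := h.2.trans h'.2.symm
  have h2 := Int.abs_sub_lt_one_of_floor_eq_floor h1
  rw [← mul_sub, abs_mul, abs_of_nonneg (by norm_num : (0 : ℝ) ≤ 8)] at h2
  linarith

private theorem HighF_T_union (r : ℕ) : ⋃ i : Fin 9, HighF_T r i = TH r := by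
  ext θ
  rw [Set.mem_iUnion]
  constructor
  · rintro ⟨i, hi⟩
    exact hi.1
  · intro hθ
    have h1 := hθ.2
    rw [abs_le] at h1
    have h2 : (-4 : ℤ) ≤ ⌊8 * θ⌋ := Int.le_floor.2 (by push_cast; linarith)
    have h3 : ⌊8 * θ⌋ ≤ 4 := by
      have : ⌊8 * θ⌋ < 5 := Int.floor_lt.2 (by push_cast; linarith)
      omega
    refine ⟨⟨(⌊8 * θ⌋ + 4).toNat, by omega⟩, hθ, ?_⟩
    change ⌊8 * θ⌋ = (((⌊8 * θ⌋ + 4).toNat : ℕ) : ℤ) - 4
    omega

private theorem HighF_T_disj (r : ℕ) : Pairwise (Function.onFun Disjoint (HighF_T r)) := by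
  intro i j hij
  rw [Function.onFun, Set.disjoint_left]
  intro θ h1 h2
  apply hij
  have h3 := h1.2.symm.trans h2.2
  exact Fin.ext (by omega)

private theorem HighF_T_fin (r : ℕ) (i : Fin 9) : volume (HighF_T r i) < ⊤ :=
  (measure_mono (Set.inter_subset_left.trans (HighF_TH_sub r))).trans_lt measure_Icc_lt_top

private theorem HighF_TH_fin (r : ℕ) : volume (TH r) < ⊤ :=
  (measure_mono (HighF_TH_sub r)).trans_lt measure_Icc_lt_top

private theorem HighF_ee_zero : ee 0 = 1 := by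
  unfold ee
  simp

private theorem HighF_ee_sum {ι : Type*} (s : Finset ι) (a : ι → ℝ) :
    ee (∑ i ∈ s, a i) = ∏ i ∈ s, ee (a i) := by
  classical
  induction s using Finset.induction_on with
  | empty => simpa using HighF_ee_zero
  | insert i s hi ih => rw [Finset.sum_insert hi, Finset.prod_insert hi, ee_add, ih]

private theorem HighF_prod {ι : Type} [Fintype ι] [DecidableEq ι] (c : ℤ → ℝ → ℂ) (D : ℕ)
    (f : ℕ → ℝ) (θ : ℝ) (y : ι → ℕ) :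
    ∏ i, LL c D f θ (y i) = ∑ μ ∈ Fintype.piFinset (fun _ : ι => Finset.Icc (-(D : ℤ)) D),
      (∏ i, c (μ i) θ) * ee (∑ i, (θ + μ i) * f (y i)) := by
  unfold LL
  simp only [Finset.mul_sum]
  rw [Finset.prod_univ_sum]
  refine Finset.sum_congr rfl fun μ _ => ?_
  rw [HighF_ee_sum, ← Finset.prod_mul_distrib]
  refine Finset.prod_congr rfl fun i _ => ?_
  rw [add_mul, ee_add]
  ring

/-- The main part of the values. -/
private def HighF_F0 (k : ℕ) (g : ℕ → ℝ) (x : ℕ) : ℝ := (x : ℝ) ^ k + g x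

/-- The factor that does not depend on the coefficients. -/
private noncomputable def HighF_psi (K : ℝ → ℂ) (c : ℤ → ℝ → ℂ) (k : ℕ) {n J M : ℕ} (g : ℕ → ℝ)
    (Y : ℝ) (z : Zt) (μ : Gt n → ℤ) (e : (Fin J × Fin M → ℕ) × (Fin J × Fin M → ℤ)) (θ : ℝ) : ℂ :=
  K θ * (∏ γ, c (μ γ) θ) * (∏ x, c (e.2 x) θ) *
    ee (θ * (zsum (HighF_F0 k g) z + bsum (HighF_F0 k g) e.1 - Y) +
      ∑ x, (e.2 x : ℝ) * HighF_F0 k g (e.1 x))

private noncomputable def HighF_V0 (k d : ℕ) {J M : ℕ} (z : Zt)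
    (e : (Fin J × Fin M → ℕ) × (Fin J × Fin M → ℤ)) (i : Fin d) : ℝ :=
  zsum (fun x => (x : ℝ) ^ (k - 1 - (i : ℕ))) z + bsum (fun x => (x : ℝ) ^ (k - 1 - (i : ℕ))) e.1

private noncomputable def HighF_V1 (k d : ℕ) {J M : ℕ}
    (e : (Fin J × Fin M → ℕ) × (Fin J × Fin M → ℤ)) (i : Fin d) : ℝ :=
  ∑ x, (e.2 x : ℝ) * (e.1 x : ℝ) ^ (k - 1 - (i : ℕ))

/-- The index set of the bulk letters with modes. -/
private noncomputable def HighF_E (k J M l r D : ℕ) :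
    Finset ((Fin J × Fin M → ℕ) × (Fin J × Fin M → ℤ)) :=
  Bk k J M l r ×ˢ Fintype.piFinset (fun _ : Fin J × Fin M => Finset.Icc (-(D : ℤ)) D)

/-- The index set of the chain letters with modes. -/
private noncomputable def HighF_U (k n r D : ℕ) : Finset (Zt × (Gt n → ℤ)) :=
  Zs k n r ×ˢ Fintype.piFinset (fun _ : Gt n => Finset.Icc (-(D : ℤ)) D)

/-- The sum over the bulk parts for fixed chain letters and modes. -/
private noncomputable def HighF_R (T : Set ℝ) (K : ℝ → ℂ) (c : ℤ → ℝ → ℂ) (D k d n J M l r : ℕ)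
    (g : ℕ → ℝ) (Y : ℝ) (u : Zt × (Gt n → ℤ)) (t : Fin d → ℝ) : ℂ :=
  ∑ e ∈ HighF_E k J M l r D, ∫ θ in T, HighF_psi K c k g Y u.1 u.2 e θ *
    ee (∑ i, t i * (θ * HighF_V0 k d u.1 e i + HighF_V1 k d e i))

private theorem HighF_phase {k d n J M : ℕ} (g : ℕ → ℝ) (Y : ℝ) (t : Fin d → ℝ) {r : ℕ} {z : Zt}
    (hz : z ∈ Zs k n r) (μ : Gt n → ℤ) (e : (Fin J × Fin M → ℕ) × (Fin J × Fin M → ℤ)) (θ : ℝ) :
    -(θ * Y) + ∑ γ, (θ + μ γ) * ff k d g t (lz n z γ) + ∑ x, (θ + e.2 x) * ff k d g t (e.1 x) =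
      ∑ γ, (μ γ : ℝ) * ff k d g t (lz n z γ) +
      (θ * (zsum (HighF_F0 k g) z + bsum (HighF_F0 k g) e.1 - Y) +
      ∑ x, (e.2 x : ℝ) * HighF_F0 k g (e.1 x)) +
      ∑ i, t i * (θ * HighF_V0 k d z e i + HighF_V1 k d e i) := by
  have h1 : ∑ γ, (θ + μ γ) * ff k d g t (lz n z γ) =
      θ * zsum (ff k d g t) z + ∑ γ, (μ γ : ℝ) * ff k d g t (lz n z γ) := by
    rw [zsum_lz hz, Finset.mul_sum, ← Finset.sum_add_distrib]
    exact Finset.sum_congr rfl fun γ _ => by ring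
  have h2 : ∑ x, (θ + e.2 x) * ff k d g t (e.1 x) =
      θ * bsum (ff k d g t) e.1 + ∑ x, (e.2 x : ℝ) * ff k d g t (e.1 x) := by
    unfold bsum
    rw [Finset.mul_sum, ← Finset.sum_add_distrib]
    exact Finset.sum_congr rfl fun γ _ => by ring
  have h3 : ∑ x, (e.2 x : ℝ) * ff k d g t (e.1 x) = ∑ x, (e.2 x : ℝ) * HighF_F0 k g (e.1 x) +
      ∑ i, t i * HighF_V1 k d e i := by
    unfold HighF_V1
    simp only [Finset.mul_sum]
    rw [Finset.sum_comm, ← Finset.sum_add_distrib]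
    refine Finset.sum_congr rfl fun x _ => ?_
    unfold ff HighF_F0
    rw [mul_add, Finset.mul_sum]
    congr 1
    exact Finset.sum_congr rfl fun i _ => by ring
  rw [h1, h2, h3, zsum_ff, bsum_ff]
  unfold HighF_V0
  have h4 : ∑ i, t i * (θ * (zsum (fun x => (x : ℝ) ^ (k - 1 - (i : ℕ))) z +
      bsum (fun x => (x : ℝ) ^ (k - 1 - (i : ℕ))) e.1) + HighF_V1 k d e i) =
      θ * ∑ i, t i * zsum (fun x => (x : ℝ) ^ (k - 1 - (i : ℕ))) z +
      θ * ∑ i, t i * bsum (fun x => (x : ℝ) ^ (k - 1 - (i : ℕ))) e.1 +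
      ∑ i, t i * HighF_V1 k d e i := by
    rw [Finset.mul_sum, Finset.mul_sum, ← Finset.sum_add_distrib, ← Finset.sum_add_distrib]
    exact Finset.sum_congr rfl fun i _ => by ring
  rw [h4]
  have e1 : (fun x : ℕ => (x : ℝ) ^ k + g x) = HighF_F0 k g := rfl
  rw [e1]
  ring

private theorem HighF_integrand {K : ℝ → ℂ} {c : ℤ → ℝ → ℂ} (D k d n J M l r : ℕ) (g : ℕ → ℝ)
    (Y : ℝ) (t : Fin d → ℝ) (θ : ℝ) :
    K θ * ee (-(θ * Y)) * (∑ z ∈ Zs k n r, ∏ γ : Gt n, LL c D (ff k d g t) θ (lz n z γ)) *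
      ∑ b ∈ Bk k J M l r, ∏ x : Fin J × Fin M, LL c D (ff k d g t) θ (b x) =
    ∑ u ∈ HighF_U k n r D, ∑ e ∈ HighF_E k J M l r D,
      ee (∑ γ, (u.2 γ : ℝ) * ff k d g t (lz n u.1 γ)) * (HighF_psi K c k g Y u.1 u.2 e θ *
        ee (∑ i, t i * (θ * HighF_V0 k d u.1 e i + HighF_V1 k d e i))) := by
  simp only [HighF_prod]
  unfold HighF_U HighF_E
  rw [← Finset.sum_product', ← Finset.sum_product', mul_assoc, Finset.sum_mul_sum, Finset.mul_sum]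
  refine Finset.sum_congr rfl fun u hu => ?_
  rw [Finset.mul_sum]
  refine Finset.sum_congr rfl fun e _ => ?_
  have hz : u.1 ∈ Zs k n r := (Finset.mem_product.1 hu).1
  have h1 := congrArg ee (HighF_phase (J := J) (M := M) g Y t hz u.2 e θ)
  rw [ee_add, ee_add, ee_add, ee_add] at h1
  unfold HighF_psi
  calc K θ * ee (-(θ * Y)) * (((∏ γ, c (u.2 γ) θ) *
        ee (∑ γ, (θ + u.2 γ) * ff k d g t (lz n u.1 γ))) * ((∏ x, c (e.2 x) θ) *
        ee (∑ x, (θ + e.2 x) * ff k d g t (e.1 x)))) =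
      K θ * (∏ γ, c (u.2 γ) θ) * (∏ x, c (e.2 x) θ) * (ee (-(θ * Y)) *
        ee (∑ γ, (θ + u.2 γ) * ff k d g t (lz n u.1 γ)) *
        ee (∑ x, (θ + e.2 x) * ff k d g t (e.1 x))) := by ring
    _ = _ := by
      rw [h1]
      ring

/-- The weights of the modes. -/
private noncomputable def HighF_w (C1 : ℝ) (m : ℤ) : ℝ := C1 / (1 + |(m : ℝ)|)

private theorem HighF_w_pos {C1 : ℝ} (h : 0 < C1) (m : ℤ) : 0 < HighF_w C1 m := by
  unfold HighF_w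
  positivity

private theorem HighF_psi_bound {K : ℝ → ℂ} {CK : ℝ} (hCK : ∀ θ, ‖K θ‖ ≤ CK) {c : ℤ → ℝ → ℂ}
    {C1 : ℝ} (hC1 : 0 < C1) (hcb : ∀ m θ, |θ| ≤ 1 / 2 → ‖c m θ‖ ≤ HighF_w C1 m) (k : ℕ)
    {n J M : ℕ} (g : ℕ → ℝ) (Y : ℝ) (z : Zt) (μ : Gt n → ℤ)
    (e : (Fin J × Fin M → ℕ) × (Fin J × Fin M → ℤ)) {θ : ℝ} (hθ : |θ| ≤ 1 / 2) :
    ‖HighF_psi K c k g Y z μ e θ‖ ≤
      CK * (∏ γ, HighF_w C1 (μ γ)) * ∏ x, HighF_w C1 (e.2 x) := by
  unfold HighF_psi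
  have h0 : 0 ≤ CK := (norm_nonneg _).trans (hCK 0)
  rw [norm_mul, norm_mul, norm_mul, ee_norm, mul_one, norm_prod, norm_prod]
  have h1 : ∏ γ, ‖c (μ γ) θ‖ ≤ ∏ γ, HighF_w C1 (μ γ) :=
    Finset.prod_le_prod (fun _ _ => norm_nonneg _) fun γ _ => hcb _ _ hθ
  have h2 : ∏ x, ‖c (e.2 x) θ‖ ≤ ∏ x, HighF_w C1 (e.2 x) :=
    Finset.prod_le_prod (fun _ _ => norm_nonneg _) fun γ _ => hcb _ _ hθ
  have h3 : 0 ≤ ∏ γ, HighF_w C1 (μ γ) := Finset.prod_nonneg fun γ _ => (HighF_w_pos hC1 _).le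
  exact mul_le_mul (mul_le_mul (hCK θ) h1 (Finset.prod_nonneg fun _ _ => norm_nonneg _) h0) h2
    (Finset.prod_nonneg fun _ _ => norm_nonneg _) (mul_nonneg h0 h3)

private theorem HighF_psi_meas {K : ℝ → ℂ} (hK : Measurable K) {c : ℤ → ℝ → ℂ}
    (hc : ∀ m, Continuous (c m)) (k : ℕ) {n J M : ℕ} (g : ℕ → ℝ) (Y : ℝ) (z : Zt) (μ : Gt n → ℤ)
    (e : (Fin J × Fin M → ℕ) × (Fin J × Fin M → ℤ)) :
    Measurable (HighF_psi K c k g Y z μ e) := by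
  unfold HighF_psi
  have h1 : Continuous fun θ : ℝ => ∏ γ, c (μ γ) θ := continuous_finset_prod _ fun γ _ => hc _
  have h2 : Continuous fun θ : ℝ => ∏ x, c (e.2 x) θ := continuous_finset_prod _ fun γ _ => hc _
  refine ((hK.mul h1.measurable).mul h2.measurable).mul ?_
  exact (ee_cont.comp ((continuous_id.mul continuous_const).add continuous_const)).measurable

private theorem HighF_term_meas {K : ℝ → ℂ} (hK : Measurable K) {c : ℤ → ℝ → ℂ}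
    (hc : ∀ m, Continuous (c m)) (k d : ℕ) {n J M : ℕ} (g : ℕ → ℝ) (Y : ℝ) (z : Zt)
    (μ : Gt n → ℤ) (e : (Fin J × Fin M → ℕ) × (Fin J × Fin M → ℤ)) (t : Fin d → ℝ) :
    Measurable fun θ : ℝ => HighF_psi K c k g Y z μ e θ *
      ee (∑ i, t i * (θ * HighF_V0 k d z e i + HighF_V1 k d e i)) := by
  refine (HighF_psi_meas hK hc k g Y z μ e).mul ?_
  refine (ee_cont.comp (continuous_finset_sum _ fun i _ => ?_)).measurable
  exact continuous_const.mul ((continuous_id.mul continuous_const).add continuous_const)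

private theorem HighF_int {T : Set ℝ} (hTm : MeasurableSet T) (hT : ∀ θ ∈ T, |θ| ≤ 1 / 2)
    (hTf : volume T < ⊤) {K : ℝ → ℂ} (hK : Measurable K) {CK : ℝ} (hCK : ∀ θ, ‖K θ‖ ≤ CK)
    {c : ℤ → ℝ → ℂ} (hc : ∀ m, Continuous (c m)) {C1 : ℝ} (hC1 : 0 < C1)
    (hcb : ∀ m θ, |θ| ≤ 1 / 2 → ‖c m θ‖ ≤ HighF_w C1 m) (k d : ℕ)
    {n J M : ℕ} (g : ℕ → ℝ) (Y : ℝ) (z : Zt) (μ : Gt n → ℤ)
    (e : (Fin J × Fin M → ℕ) × (Fin J × Fin M → ℤ)) (t : Fin d → ℝ) :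
    IntegrableOn (fun θ : ℝ => HighF_psi K c k g Y z μ e θ *
      ee (∑ i, t i * (θ * HighF_V0 k d z e i + HighF_V1 k d e i))) T := by
  refine Measure.integrableOn_of_bounded (M := CK * (∏ γ, HighF_w C1 (μ γ)) *
    ∏ x, HighF_w C1 (e.2 x)) hTf.ne
    (HighF_term_meas hK hc k d g Y z μ e t).aestronglyMeasurable ?_
  refine ae_restrict_of_forall_mem hTm fun θ hθ => ?_
  rw [norm_mul, ee_norm, mul_one]
  exact HighF_psi_bound hCK hC1 hcb k g Y z μ e (hT θ hθ)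

private theorem HighF_MA {T : Set ℝ} (hTm : MeasurableSet T) (hT : ∀ θ ∈ T, |θ| ≤ 1 / 2)
    (hTf : volume T < ⊤) {K : ℝ → ℂ} (hK : Measurable K) {CK : ℝ} (hCK : ∀ θ, ‖K θ‖ ≤ CK)
    {c : ℤ → ℝ → ℂ} (hc : ∀ m, Continuous (c m)) {C1 : ℝ} (hC1 : 0 < C1)
    (hcb : ∀ m θ, |θ| ≤ 1 / 2 → ‖c m θ‖ ≤ HighF_w C1 m) (D k d n J M l r : ℕ) (g : ℕ → ℝ)
    (Y : ℝ) (t : Fin d → ℝ) :
    MA T K c D k n J M l r (ff k d g t) Y = ∑ u ∈ HighF_U k n r D,
      ee (∑ γ, (u.2 γ : ℝ) * ff k d g t (lz n u.1 γ)) *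
        HighF_R T K c D k d n J M l r g Y u t := by
  unfold MA HighF_R
  simp only [HighF_integrand]
  rw [integral_finset_sum]
  · refine Finset.sum_congr rfl fun u _ => ?_
    rw [integral_finset_sum]
    · rw [Finset.mul_sum]
      refine Finset.sum_congr rfl fun e _ => ?_
      rw [integral_const_mul]
    · intro e _
      exact (HighF_int hTm hT hTf hK hCK hc hC1 hcb k d g Y u.1 u.2 e t).const_mul _
  · intro u _
    refine integrable_finset_sum _ fun e _ => ?_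
    exact (HighF_int hTm hT hTf hK hCK hc hC1 hcb k d g Y u.1 u.2 e t).const_mul _

private theorem HighF_split {K : ℝ → ℂ} (hK : Measurable K) {CK : ℝ} (hCK : ∀ θ, ‖K θ‖ ≤ CK)
    {c : ℤ → ℝ → ℂ} (hc : ∀ m, Continuous (c m)) {C1 : ℝ} (hC1 : 0 < C1)
    (hcb : ∀ m θ, |θ| ≤ 1 / 2 → ‖c m θ‖ ≤ HighF_w C1 m) (D k d n J M l r : ℕ) (g : ℕ → ℝ)
    (Y : ℝ) (t : Fin d → ℝ) :
    MA (TH r) K c D k n J M l r (ff k d g t) Y =
      ∑ i, MA (HighF_T r i) K c D k n J M l r (ff k d g t) Y := by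
  unfold MA
  rw [← integral_iUnion_fintype (HighF_T_meas r) (HighF_T_disj r), HighF_T_union]
  intro i
  simp only [HighF_integrand]
  refine integrable_finset_sum _ fun u _ => integrable_finset_sum _ fun e _ => ?_
  exact (HighF_int (HighF_T_meas r i) (fun θ hθ => HighF_T_abs hθ) (HighF_T_fin r i) hK hCK hc hC1
    hcb k d g Y u.1 u.2 e t).const_mul _

private theorem HighF_R_cont {T : Set ℝ} (hTm : MeasurableSet T) (hT : ∀ θ ∈ T, |θ| ≤ 1 / 2)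
    (hTf : volume T < ⊤) {K : ℝ → ℂ} (hK : Measurable K) {CK : ℝ} (hCK : ∀ θ, ‖K θ‖ ≤ CK)
    {c : ℤ → ℝ → ℂ} (hc : ∀ m, Continuous (c m)) {C1 : ℝ} (hC1 : 0 < C1)
    (hcb : ∀ m θ, |θ| ≤ 1 / 2 → ‖c m θ‖ ≤ HighF_w C1 m) (D k d n J M l r : ℕ) (g : ℕ → ℝ)
    (Y : ℝ) (u : Zt × (Gt n → ℤ)) :
    Continuous (HighF_R T K c D k d n J M l r g Y u) := by
  unfold HighF_R
  refine continuous_finset_sum _ fun e _ => ?_
  refine continuous_of_dominated (bound := fun _ => CK * (∏ γ, HighF_w C1 (u.2 γ)) *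
    ∏ x, HighF_w C1 (e.2 x)) ?_ ?_ ?_ ?_
  · intro t
    exact (HighF_term_meas hK hc k d g Y u.1 u.2 e t).aestronglyMeasurable
  · intro t
    refine ae_restrict_of_forall_mem hTm fun θ hθ => ?_
    rw [norm_mul, ee_norm, mul_one]
    exact HighF_psi_bound hCK hC1 hcb k g Y u.1 u.2 e (hT θ hθ)
  · have : IsFiniteMeasure (volume.restrict T) := ⟨by
      rw [Measure.restrict_apply_univ]
      exact hTf⟩
    exact integrable_const _
  · refine Filter.Eventually.of_forall fun θ => ?_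
    refine continuous_const.mul (ee_cont.comp (continuous_finset_sum _ fun i _ => ?_))
    exact (continuous_apply i).mul continuous_const

/-- The index set of the pieces, chain letters and modes. -/
private noncomputable def HighF_S (k n r D : ℕ) : Finset (Fin 9 × (Zt × (Gt n → ℤ))) :=
  Finset.univ ×ˢ HighF_U k n r D

private theorem HighF_CS1 {K : ℝ → ℂ} (hK : Measurable K) {CK : ℝ} (hCK : ∀ θ, ‖K θ‖ ≤ CK)
    {c : ℤ → ℝ → ℂ} (hc : ∀ m, Continuous (c m)) {C1 : ℝ} (hC1 : 0 < C1)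
    (hcb : ∀ m θ, |θ| ≤ 1 / 2 → ‖c m θ‖ ≤ HighF_w C1 m) (D k d n J M l r : ℕ) (g : ℕ → ℝ)
    (Y : ℝ) (t : Fin d → ℝ) :
    ‖MA (TH r) K c D k n J M l r (ff k d g t) Y‖ ^ 2 ≤
      (∑ s ∈ HighF_S k n r D, ∏ γ, HighF_w C1 (s.2.2 γ)) *
      ∑ s ∈ HighF_S k n r D, (∏ γ, HighF_w C1 (s.2.2 γ))⁻¹ *
        ‖HighF_R (HighF_T r s.1) K c D k d n J M l r g Y s.2 t‖ ^ 2 := by
  have h1 : ‖MA (TH r) K c D k n J M l r (ff k d g t) Y‖ ≤
      ∑ s ∈ HighF_S k n r D, ‖HighF_R (HighF_T r s.1) K c D k d n J M l r g Y s.2 t‖ := by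
    rw [HighF_split hK hCK hc hC1 hcb]
    unfold HighF_S
    rw [Finset.sum_product]
    refine (norm_sum_le _ _).trans (Finset.sum_le_sum fun i _ => ?_)
    rw [HighF_MA (HighF_T_meas r i) (fun θ hθ => HighF_T_abs hθ) (HighF_T_fin r i) hK hCK hc hC1
      hcb]
    refine (norm_sum_le _ _).trans (Finset.sum_le_sum fun u _ => ?_)
    rw [norm_mul, ee_norm, one_mul]
  refine (pow_le_pow_left₀ (norm_nonneg _) h1 2).trans ?_
  have hw : ∀ s : Fin 9 × (Zt × (Gt n → ℤ)), 0 < ∏ γ, HighF_w C1 (s.2.2 γ) := fun s =>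
    Finset.prod_pos fun γ _ => HighF_w_pos hC1 _
  refine Finset.sum_sq_le_sum_mul_sum_of_sq_eq_mul _ (fun s _ => (hw s).le) (fun s _ => ?_)
    fun s _ => ?_
  · have := hw s
    positivity
  · have := (hw s).ne'
    field_simp

private theorem HighF_CS {q : ℕ} {K : ℝ → ℂ} (hK : Measurable K) {CK : ℝ} (hCK : ∀ θ, ‖K θ‖ ≤ CK)
    {c : ℤ → ℝ → ℂ} (hc : ∀ m, Continuous (c m)) {C1 : ℝ} (hC1 : 0 < C1)
    (hcb : ∀ m θ, |θ| ≤ 1 / 2 → ‖c m θ‖ ≤ HighF_w C1 m) (D k d n J M r : ℕ) (φ : Fin q → ℕ)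
    (g : ℕ → ℝ) (Y : ℝ) (t : Fin d → ℝ) :
    ∏ l, ‖MA (TH r) K c D k n J M (φ l) r (ff k d g t) Y‖ ^ 2 ≤
      (∑ s ∈ HighF_S k n r D, ∏ γ, HighF_w C1 (s.2.2 γ)) ^ q *
      ∑ s ∈ Fintype.piFinset (fun _ : Fin q => HighF_S k n r D),
        (∏ l, ∏ γ, HighF_w C1 ((s l).2.2 γ))⁻¹ *
        ∏ l, ‖HighF_R (HighF_T r (s l).1) K c D k d n J M (φ l) r g Y (s l).2 t‖ ^ 2 := by
  have h2 := Finset.prod_le_prod (s := (Finset.univ : Finset (Fin q)))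
    (fun l _ => by positivity) (fun l _ => HighF_CS1 hK hCK hc hC1 hcb D k d n J M (φ l) r g Y t)
  refine h2.trans (le_of_eq ?_)
  rw [Finset.prod_mul_distrib, Finset.prod_const, Finset.card_univ, Fintype.card_fin,
    Finset.prod_univ_sum]
  congr 1
  refine Finset.sum_congr rfl fun s _ => ?_
  rw [Finset.prod_mul_distrib, Finset.prod_inv_distrib]

private noncomputable def HighF_s1 (C1 : ℝ) (D : ℕ) : ℝ :=
  ∑ m ∈ Finset.Icc (-(D : ℤ)) D, HighF_w C1 m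

private theorem HighF_Icc (D : ℕ) : Finset.Icc (-((D + 1 : ℕ) : ℤ)) ((D + 1 : ℕ) : ℤ) =
    insert ((D : ℤ) + 1) (insert (-((D : ℤ) + 1)) (Finset.Icc (-(D : ℤ)) D)) := by
  ext m
  simp only [Finset.mem_Icc, Finset.mem_insert]
  push_cast
  omega

private theorem HighF_s1_aux (D : ℕ) : ∑ m ∈ Finset.Icc (-(D : ℤ)) D, (1 + |(m : ℝ)|)⁻¹ ≤
    2 * ∑ j ∈ Finset.range (D + 1), ((j : ℝ) + 1)⁻¹ := by
  induction D with
  | zero => simp
  | succ D ih =>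
    rw [HighF_Icc, Finset.sum_insert, Finset.sum_insert, Finset.sum_range_succ _ (D + 1), mul_add]
    · have e1 : (1 + |(((D : ℤ) + 1 : ℤ) : ℝ)|)⁻¹ = (((D + 1 : ℕ) : ℝ) + 1)⁻¹ := by
        push_cast
        rw [abs_of_nonneg (by positivity)]
        congr 1
        ring
      have e2 : (1 + |((-((D : ℤ) + 1) : ℤ) : ℝ)|)⁻¹ = (((D + 1 : ℕ) : ℝ) + 1)⁻¹ := by
        rw [← e1]
        push_cast
        rw [abs_neg]
      rw [e1, e2]
      linarith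
    · simp only [Finset.mem_Icc]
      omega
    · simp only [Finset.mem_Icc, Finset.mem_insert]
      omega

private theorem HighF_s1_le {C1 : ℝ} (hC1 : 0 < C1) (D : ℕ) :
    HighF_s1 C1 D ≤ 2 * C1 * (1 + Real.log ((D : ℝ) + 1)) := by
  unfold HighF_s1 HighF_w
  simp only [div_eq_mul_inv]
  rw [← Finset.mul_sum]
  have h1 := HighF_s1_aux D
  have h2 := harmonic_le_one_add_log (D + 1)
  have h3 : ((harmonic (D + 1) : ℚ) : ℝ) = ∑ j ∈ Finset.range (D + 1), ((j : ℝ) + 1)⁻¹ := by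
    unfold harmonic
    push_cast
    rfl
  rw [h3] at h2
  push_cast at h2
  calc C1 * ∑ m ∈ Finset.Icc (-(D : ℤ)) D, (1 + |(m : ℝ)|)⁻¹
      ≤ C1 * (2 * (1 + Real.log ((D : ℝ) + 1))) :=
        mul_le_mul_of_nonneg_left (by linarith) hC1.le
    _ = _ := by ring

private theorem HighF_s1_nonneg {C1 : ℝ} (hC1 : 0 < C1) (D : ℕ) : 0 ≤ HighF_s1 C1 D :=
  Finset.sum_nonneg fun m _ => (HighF_w_pos hC1 m).le

private theorem HighF_s1_DD {C1 : ℝ} (hC1 : 0 < C1) (r : ℕ) :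
    HighF_s1 C1 (DD r) ≤ 4 * C1 * ((r : ℝ) + 1) := by
  refine (HighF_s1_le hC1 _).trans ?_
  have hX1 := XX_one r
  have h1 : ((DD r : ℕ) : ℝ) ≤ (XX r) ^ 2 := by
    unfold DD
    refine (Nat.floor_le (Real.rpow_nonneg (by linarith) _)).trans ?_
    rw [← Real.rpow_natCast]
    exact Real.rpow_le_rpow_of_exponent_le hX1 (by norm_num)
  have h2 : ((DD r : ℕ) : ℝ) + 1 ≤ 2 ^ (2 * r + 1) := by
    have e1 : (2 : ℝ) ^ (2 * r + 1) = 2 * (XX r) ^ 2 := by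
      unfold XX
      rw [← pow_mul]
      ring
    rw [e1]
    have : (1 : ℝ) ≤ (XX r) ^ 2 := one_le_pow₀ hX1
    linarith
  have h3 : Real.log (((DD r : ℕ) : ℝ) + 1) ≤ 2 * r + 1 := by
    refine (Real.log_le_log (by positivity) h2).trans ?_
    rw [Real.log_pow]
    push_cast
    have h4 : Real.log 2 ≤ 1 := by
      have := Real.log_two_lt_d9
      linarith
    have h5 : (0 : ℝ) ≤ 2 * r + 1 := by positivity
    nlinarith
  have h6 : 0 ≤ 2 * C1 := by linarith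
  calc 2 * C1 * (1 + Real.log (((DD r : ℕ) : ℝ) + 1)) ≤ 2 * C1 * (1 + (2 * r + 1)) :=
        mul_le_mul_of_nonneg_left (by linarith) h6
    _ = _ := by ring

private theorem HighF_growth {C1 : ℝ} (hC1 : 0 < C1) (a b q : ℕ) : ∀ᶠ r : ℕ in atTop,
    (9 * HighF_s1 C1 (DD r) ^ a) ^ (2 * q) * (HighF_s1 C1 (DD r) ^ b) ^ (2 * q) ≤ XX r := by
  obtain ⟨A, hA⟩ : ∃ A, A = (a + b) * (2 * q) := ⟨_, rfl⟩
  obtain ⟨Kc, hKc⟩ : ∃ Kc : ℝ, Kc = 9 ^ (2 * q) * (4 * C1) ^ A := ⟨_, rfl⟩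
  have hK0 : 0 < Kc := by rw [hKc]; positivity
  have h1 := (tendsto_add_atTop_iff_nat 1).2
    (tendsto_pow_const_div_const_pow_of_one_lt A (r := 2) (by norm_num))
  have h2 : ∀ᶠ r : ℕ in atTop, ((r + 1 : ℕ) : ℝ) ^ A / 2 ^ (r + 1) < 1 / (2 * Kc) :=
    h1.eventually (gt_mem_nhds (by positivity))
  filter_upwards [h2] with r hr
  have h3 := HighF_s1_DD hC1 r
  have h4 := HighF_s1_nonneg hC1 (DD r)
  have e1 : (9 * HighF_s1 C1 (DD r) ^ a) ^ (2 * q) * (HighF_s1 C1 (DD r) ^ b) ^ (2 * q) =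
      9 ^ (2 * q) * HighF_s1 C1 (DD r) ^ A := by
    rw [mul_pow, ← pow_mul, ← pow_mul, mul_assoc, ← pow_add, hA]
    congr 2
    ring
  rw [e1]
  rw [div_lt_div_iff₀ (by positivity) (by positivity)] at hr
  have h5 : HighF_s1 C1 (DD r) ^ A ≤ (4 * C1) ^ A * ((r : ℝ) + 1) ^ A := by
    rw [← mul_pow]
    exact pow_le_pow_left₀ h4 h3 A
  calc (9 : ℝ) ^ (2 * q) * HighF_s1 C1 (DD r) ^ A ≤
        9 ^ (2 * q) * ((4 * C1) ^ A * ((r : ℝ) + 1) ^ A) :=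
        mul_le_mul_of_nonneg_left h5 (by positivity)
    _ = Kc * ((r : ℝ) + 1) ^ A := by rw [hKc]; ring
    _ ≤ XX r := by
        unfold XX
        push_cast at hr
        have e2 : (2 : ℝ) ^ (r + 1) = 2 * 2 ^ r := by ring
        rw [e2] at hr
        nlinarith

private theorem HighF_sumS {C1 : ℝ} (k n r D : ℕ) :
    ∑ s ∈ HighF_S k n r D, ∏ γ, HighF_w C1 (s.2.2 γ) =
      ((Zs k n r).card : ℝ) * (9 * HighF_s1 C1 D ^ Fintype.card (Gt n)) := by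
  unfold HighF_S HighF_U
  rw [Finset.sum_product]
  simp only [Finset.sum_const, Finset.card_univ, Fintype.card_fin, nsmul_eq_mul]
  rw [Finset.sum_product]
  simp only [Finset.sum_const, nsmul_eq_mul]
  rw [← Finset.prod_univ_sum (fun _ : Gt n => Finset.Icc (-(D : ℤ)) D)
    (fun _ m => HighF_w C1 m), Finset.prod_const, Finset.card_univ]
  unfold HighF_s1
  push_cast
  ring

private theorem HighF_sumE {C1 : ℝ} (k J M l r D : ℕ) (A : ℝ) :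
    ∑ e ∈ HighF_E k J M l r D, A * ∏ x, HighF_w C1 (e.2 x) =
      A * (((Bk k J M l r).card : ℝ) * HighF_s1 C1 D ^ Fintype.card (Fin J × Fin M)) := by
  unfold HighF_E
  rw [← Finset.mul_sum, Finset.sum_product]
  simp only [Finset.sum_const, nsmul_eq_mul]
  rw [← Finset.prod_univ_sum (fun _ : Fin J × Fin M => Finset.Icc (-(D : ℤ)) D)
    (fun _ m => HighF_w C1 m), Finset.prod_const, Finset.card_univ]
  rfl

private theorem HighF_sumE2 {C1 : ℝ} (hC1 : 0 < C1) (k J M l r D : ℕ) (A : ℝ) :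
    ∑ e ∈ HighF_E k J M l r D, (A * ∏ x, HighF_w C1 (e.2 x)) ^ 2 ≤
      A ^ 2 * (((Bk k J M l r).card : ℝ) *
        (HighF_s1 C1 D ^ Fintype.card (Fin J × Fin M)) ^ 2) := by
  unfold HighF_E
  simp only [mul_pow, ← Finset.prod_pow]
  rw [← Finset.mul_sum, Finset.sum_product]
  simp only [Finset.sum_const, nsmul_eq_mul]
  rw [← Finset.prod_univ_sum (fun _ : Fin J × Fin M => Finset.Icc (-(D : ℤ)) D)
    (fun _ m => HighF_w C1 m ^ 2), Finset.prod_const, Finset.card_univ]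
  refine mul_le_mul_of_nonneg_left (mul_le_mul_of_nonneg_left ?_ (Nat.cast_nonneg _))
    (sq_nonneg _)
  rw [← pow_mul, mul_comm _ 2, pow_mul]
  refine pow_le_pow_left₀ (Finset.sum_nonneg fun m _ => sq_nonneg _) ?_ _
  exact Finset.sum_sq_le_sq_sum_of_nonneg fun m _ => (HighF_w_pos hC1 m).le

private theorem HighF_one {q : ℕ} {K : ℝ → ℂ} (hK : Measurable K) {CK : ℝ}
    (hCK : ∀ θ, ‖K θ‖ ≤ CK) {c : ℤ → ℝ → ℂ} (hc : ∀ m, Continuous (c m)) {C1 : ℝ} (hC1 : 0 < C1)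
    (hcb : ∀ m θ, |θ| ≤ 1 / 2 → ‖c m θ‖ ≤ HighF_w C1 m) (D k d n J M r : ℕ) (φ : Fin q → ℕ)
    (g : ℕ → ℝ) (Y : ℝ) {E ν : ℝ} (hE : 0 ≤ E) (hν : 0 ≤ ν)
    (s : Fin q → Fin 9 × (Zt × (Gt n → ℤ)))
    (hdec : ∀ b b' : Fin q → (Fin J × Fin M → ℕ) × (Fin J × Fin M → ℤ),
      (∀ l, b l ∈ HighF_E k J M (φ l) r D) → (∀ l, b' l ∈ HighF_E k J M (φ l) r D) →
      ∀ τ τ' : Fin q → ℝ, (∀ l, τ l ∈ HighF_T r (s l).1) → (∀ l, τ' l ∈ HighF_T r (s l).1) →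
      (∀ i : Fin d, |∑ l, ((τ l * HighF_V0 k d (s l).2.1 (b l) i + HighF_V1 k d (b l) i) -
        (τ' l * HighF_V0 k d (s l).2.1 (b' l) i + HighF_V1 k d (b' l) i))| ≤ E) →
      b = b' ∧ ∀ l, |τ l - τ' l| ≤ ν) :
    ∫⁻ t : Fin d → ℝ, ENNReal.ofReal (gw t *
      ∏ l, ‖HighF_R (HighF_T r (s l).1) K c D k d n J M (φ l) r g Y (s l).2 t‖ ^ 2) ≤
    ENNReal.ofReal ((∏ l, ∏ γ, HighF_w C1 ((s l).2.2 γ)) ^ 2 * (CK ^ (2 * q) *
      (HighF_s1 C1 D ^ Fintype.card (Fin J × Fin M)) ^ (2 * q) *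
      ((∏ l, ((Bk k J M (φ l) r).card : ℝ)) ^ 2 * Real.exp (-Real.pi * E ^ 2) +
        (∏ l, ((Bk k J M (φ l) r).card : ℝ)) * (2 * ν) ^ q))) := by
  have hCK0 : 0 ≤ CK := (norm_nonneg _).trans (hCK 0)
  have hW : ∀ l, 0 < ∏ γ, HighF_w C1 ((s l).2.2 γ) := fun l =>
    Finset.prod_pos fun γ _ => HighF_w_pos hC1 _
  have h1 := highW (fun l : Fin q => HighF_E k J M (φ l) r D) (fun l => HighF_T r (s l).1)
    (fun l => HighF_T_meas r _) (R := 1 / 2) (by norm_num) (fun l θ hθ => HighF_T_abs hθ)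
    (fun l e => HighF_psi K c k g Y (s l).2.1 (s l).2.2 e)
    (fun l e => HighF_psi_meas hK hc k g Y _ _ e)
    (fun l e => CK * (∏ γ, HighF_w C1 ((s l).2.2 γ)) * ∏ x, HighF_w C1 (e.2 x))
    (fun l e => mul_nonneg (mul_nonneg hCK0 (hW l).le)
      (Finset.prod_nonneg fun x _ => (HighF_w_pos hC1 _).le))
    (fun l e _ θ hθ => HighF_psi_bound hCK hC1 hcb k g Y _ _ e (HighF_T_abs hθ))
    (fun l e => HighF_V0 k d (s l).2.1 e) (fun l e => HighF_V1 k d e) hE hν hdec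
  refine h1.trans (ENNReal.ofReal_le_ofReal ?_)
  have h2 : (∏ l, ∑ e ∈ HighF_E k J M (φ l) r D,
      CK * (∏ γ, HighF_w C1 ((s l).2.2 γ)) * ∏ x, HighF_w C1 (e.2 x)) =
      CK ^ q * (∏ l, ∏ γ, HighF_w C1 ((s l).2.2 γ)) * ((∏ l, ((Bk k J M (φ l) r).card : ℝ)) *
        (HighF_s1 C1 D ^ Fintype.card (Fin J × Fin M)) ^ q) := by
    simp only [HighF_sumE]
    rw [Finset.prod_mul_distrib, Finset.prod_mul_distrib, Finset.prod_mul_distrib,
      Finset.prod_const, Finset.prod_const, Finset.card_univ, Fintype.card_fin]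
  have h3 : (∏ l, ∑ e ∈ HighF_E k J M (φ l) r D,
      (CK * (∏ γ, HighF_w C1 ((s l).2.2 γ)) * ∏ x, HighF_w C1 (e.2 x)) ^ 2) ≤
      CK ^ (2 * q) * (∏ l, ∏ γ, HighF_w C1 ((s l).2.2 γ)) ^ 2 *
        ((∏ l, ((Bk k J M (φ l) r).card : ℝ)) *
        (HighF_s1 C1 D ^ Fintype.card (Fin J × Fin M)) ^ (2 * q)) := by
    refine (Finset.prod_le_prod (fun l _ => Finset.sum_nonneg fun e _ => sq_nonneg _)
      fun l _ => HighF_sumE2 hC1 k J M (φ l) r D _).trans (le_of_eq ?_)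
    simp only [mul_pow]
    rw [Finset.prod_mul_distrib, Finset.prod_mul_distrib, Finset.prod_mul_distrib,
      Finset.prod_const, Finset.prod_const, Finset.card_univ, Fintype.card_fin, Finset.prod_pow,
      ← pow_mul, ← pow_mul, ← pow_mul]
  rw [h2]
  have h4 : (4 * (1 / 2) * ν) ^ q = (2 * ν) ^ q := by
    congr 1
    ring
  have h5 : (2 * (1 / 2) : ℝ) ^ (2 * q) = 1 := by norm_num
  rw [h4, h5]
  have h6 := mul_le_mul_of_nonneg_right h3 (pow_nonneg (by linarith : (0 : ℝ) ≤ 2 * ν) q)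
  refine (add_le_add_right h6 _).trans (le_of_eq ?_)
  ring

private theorem HighF_gw (d : ℕ) : Continuous (gw : (Fin d → ℝ) → ℝ) := by
  unfold gw
  refine Real.continuous_exp.comp (continuous_const.mul ?_)
  exact continuous_finset_sum _ fun i _ => (continuous_apply i).pow 2

private theorem HighF_mono (a : ℕ) :
    ∀ᶠ x : ℝ in atTop, x ^ a * Real.exp (-Real.pi * x ^ 2) ≤ 1 := by
  have h1 := Real.tendsto_pow_mul_exp_neg_atTop_nhds_zero a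
  have h2 : ∀ᶠ x : ℝ in atTop, x ^ a * Real.exp (-x) < 1 := h1.eventually (gt_mem_nhds one_pos)
  filter_upwards [h2, eventually_ge_atTop (1 : ℝ)] with x hx hx1
  refine le_trans ?_ hx.le
  refine mul_le_mul_of_nonneg_left ?_ (by positivity)
  refine Real.exp_le_exp.2 ?_
  have := Real.pi_gt_three
  nlinarith

private theorem HighF_XX : Tendsto XX atTop atTop :=
  tendsto_pow_atTop_atTop_of_one_lt (by norm_num)

/-- The arithmetic at the end. -/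
private theorem HighF_arith {k d : ℕ} (p : Par k d) {C0 c CK : ℝ} (hC0 : 0 < C0) (hc : 0 < c)
    (hCK : 0 ≤ CK) :
    ∃ C : ℝ, 0 < C ∧ ∀ᶠ r : ℕ in atTop, ∀ B : Fin p.q → ℝ,
      (∀ l, c * QQ k r ^ (p.M * ((k - 1) * p.J - 2 * p.J * (p.J - 1))) ≤ B l) →
      (XX r) ^ (2 * k * p.q) * (CK ^ (2 * p.q) * ((2 * XX r) ^ (2 * p.q) *
        Real.exp (-Real.pi * (XX r) ^ 2) +
        (4 * XX r * (C0 * (XX r / (XX r) ^ p.m1))) ^ p.q / ∏ l, B l)) ≤ C / (XX r) ^ (k + 1) := by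
  have hk := p.hk
  refine ⟨CK ^ (2 * p.q) * (2 ^ (2 * p.q) + (4 * C0) ^ p.q / c ^ p.q) + 1, by positivity, ?_⟩
  filter_upwards [HighF_XX.eventually (HighF_mono (2 * k * p.q + 2 * p.q + (k + 1)))] with r hr B hB
  obtain ⟨P, hP⟩ : ∃ P, P = XX r := ⟨_, rfl⟩
  obtain ⟨Q, hQ⟩ : ∃ Q, Q = QQ k r := ⟨_, rfl⟩
  have hQ1 : 1 ≤ Q := hQ ▸ QQ_one_le (by omega) r
  have hPQ : Q ^ (k - 1) = P := by rw [hQ, hP]; exact QQ_pow (by omega) r
  have hP1 : 1 ≤ P := hP ▸ XX_one r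
  rw [← hP] at hr ⊢
  rw [← hQ] at hB
  have hP0 : 0 < P := by linarith
  have hQ0 : 0 < Q := by linarith
  obtain ⟨e, he⟩ : ∃ e, e = p.M * ((k - 1) * p.J - 2 * p.J * (p.J - 1)) := ⟨_, rfl⟩
  rw [← he] at hB
  have hBp : c ^ p.q * Q ^ (e * p.q) ≤ ∏ l, B l := by
    have h1 : ∏ l : Fin p.q, (c * Q ^ e) ≤ ∏ l, B l :=
      Finset.prod_le_prod (fun l _ => by positivity) (fun l _ => hB l)
    rw [Finset.prod_const, Finset.card_univ, Fintype.card_fin, mul_pow, ← pow_mul] at h1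
    exact h1
  have hB0 : 0 < ∏ l, B l := lt_of_lt_of_le (by positivity) hBp
  -- the exponents
  have hexp : (k - 1) * (2 * k * p.q + 2 * p.q + (k + 1)) ≤ (k - 1) * (p.m1 * p.q) + e * p.q := by
    have h8 := p.c8
    have h7 := p.c7
    have hJk := p.hJk
    obtain ⟨N, hN⟩ : ∃ N, N = k - 1 := ⟨_, rfl⟩
    rw [← hN] at h8 he ⊢
    obtain ⟨s, hs⟩ : ∃ s, 2 * k + 2 - p.m1 = s := ⟨_, rfl⟩
    have hs2 : s + p.m1 = 2 * k + 2 := by omega
    rw [hs] at h8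
    have hsub : 2 * p.J * (p.J - 1) ≤ N * p.J := by
      have : 2 * (p.J - 1) ≤ N := by omega
      calc 2 * p.J * (p.J - 1) = (2 * (p.J - 1)) * p.J := by ring
        _ ≤ N * p.J := Nat.mul_le_mul_right _ this
    obtain ⟨f, hf⟩ : ∃ f, N * p.J - 2 * p.J * (p.J - 1) = f := ⟨_, rfl⟩
    have hf2 : f + 2 * p.J * (p.J - 1) = N * p.J := by omega
    rw [hf] at he
    have h9 : p.q * p.M * (N * p.J) = p.q * p.M * f + p.q * p.M * (2 * p.J * (p.J - 1)) := by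
      rw [← hf2]; ring
    have h10 : N * (p.q * s + k + 1) ≤ p.q * p.M * f := by
      have e1 : p.q * p.M * (2 * p.J * (p.J - 1)) + N * (p.q * s + k + 1) ≤ p.q * p.M * (N * p.J) := h8
      rw [h9] at e1
      omega
    have h11 : N * (2 * k * p.q + 2 * p.q + (k + 1)) = N * (p.m1 * p.q) + N * (p.q * s + k + 1) := by
      have e2 : 2 * k * p.q + 2 * p.q = (s + p.m1) * p.q := by rw [hs2]; ring
      rw [e2]; ring
    rw [h11, he]
    have h12 : p.M * f * p.q = p.q * p.M * f := by ring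
    rw [h12]
    omega
  have hpow : P ^ (2 * k * p.q + 2 * p.q + (k + 1)) ≤ P ^ (p.m1 * p.q) * Q ^ (e * p.q) := by
    rw [← hPQ, ← pow_mul, ← pow_mul, ← pow_add]
    exact pow_le_pow_right₀ hQ1 hexp
  -- first term
  have t1 : P ^ (2 * k * p.q) * ((2 * P) ^ (2 * p.q) * Real.exp (-Real.pi * P ^ 2)) ≤
      2 ^ (2 * p.q) / P ^ (k + 1) := by
    rw [le_div_iff₀ (by positivity)]
    have e1 : P ^ (2 * k * p.q) * ((2 * P) ^ (2 * p.q) * Real.exp (-Real.pi * P ^ 2)) * P ^ (k + 1) =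
        2 ^ (2 * p.q) * (P ^ (2 * k * p.q + 2 * p.q + (k + 1)) * Real.exp (-Real.pi * P ^ 2)) := by
      rw [mul_pow, pow_add, pow_add]; ring
    rw [e1]
    calc (2 : ℝ) ^ (2 * p.q) * (P ^ (2 * k * p.q + 2 * p.q + (k + 1)) *
          Real.exp (-Real.pi * P ^ 2)) ≤ 2 ^ (2 * p.q) * 1 :=
        mul_le_mul_of_nonneg_left hr (by positivity)
      _ = 2 ^ (2 * p.q) := mul_one _
  -- second term
  have t2 : P ^ (2 * k * p.q) * ((4 * P * (C0 * (P / P ^ p.m1))) ^ p.q / ∏ l, B l) ≤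
      ((4 * C0) ^ p.q / c ^ p.q) / P ^ (k + 1) := by
    have e1 : (4 * P * (C0 * (P / P ^ p.m1))) ^ p.q = (4 * C0) ^ p.q * P ^ (2 * p.q) /
        P ^ (p.m1 * p.q) := by
      have : 4 * P * (C0 * (P / P ^ p.m1)) = (4 * C0) * P ^ 2 / P ^ p.m1 := by
        field_simp
      rw [this, div_pow, mul_pow, ← pow_mul, ← pow_mul]
    rw [e1]
    have h1 : P ^ (2 * k * p.q) * ((4 * C0) ^ p.q * P ^ (2 * p.q) / P ^ (p.m1 * p.q) / ∏ l, B l) ≤
        P ^ (2 * k * p.q) * ((4 * C0) ^ p.q * P ^ (2 * p.q) / P ^ (p.m1 * p.q) /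
          (c ^ p.q * Q ^ (e * p.q))) := by
      refine mul_le_mul_of_nonneg_left ?_ (by positivity)
      exact div_le_div_of_nonneg_left (by positivity) (by positivity) hBp
    refine h1.trans ?_
    have e2 : P ^ (2 * k * p.q) * ((4 * C0) ^ p.q * P ^ (2 * p.q) / P ^ (p.m1 * p.q) /
          (c ^ p.q * Q ^ (e * p.q))) = ((4 * C0) ^ p.q / c ^ p.q) *
          (P ^ (2 * k * p.q + 2 * p.q) / (P ^ (p.m1 * p.q) * Q ^ (e * p.q))) := by
      rw [pow_add]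
      field_simp
    rw [e2, div_eq_mul_inv ((4 * C0) ^ p.q / c ^ p.q) (P ^ (k + 1))]
    refine mul_le_mul_of_nonneg_left ?_ (by positivity)
    rw [div_le_iff₀ (by positivity), ← div_eq_inv_mul, le_div_iff₀ (by positivity), ← pow_add]
    exact hpow
  have hCK2 : 0 ≤ CK ^ (2 * p.q) := by positivity
  calc P ^ (2 * k * p.q) * (CK ^ (2 * p.q) * ((2 * P) ^ (2 * p.q) * Real.exp (-Real.pi * P ^ 2) +
        (4 * P * (C0 * (P / P ^ p.m1))) ^ p.q / ∏ l, B l)) =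
      CK ^ (2 * p.q) * (P ^ (2 * k * p.q) * ((2 * P) ^ (2 * p.q) * Real.exp (-Real.pi * P ^ 2)) +
        P ^ (2 * k * p.q) * ((4 * P * (C0 * (P / P ^ p.m1))) ^ p.q / ∏ l, B l)) := by ring
    _ ≤ CK ^ (2 * p.q) * (2 ^ (2 * p.q) / P ^ (k + 1) +
        ((4 * C0) ^ p.q / c ^ p.q) / P ^ (k + 1)) :=
      mul_le_mul_of_nonneg_left (add_le_add t1 t2) hCK2
    _ = CK ^ (2 * p.q) * (2 ^ (2 * p.q) + (4 * C0) ^ p.q / c ^ p.q) / P ^ (k + 1) := by ring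
    _ ≤ (CK ^ (2 * p.q) * (2 ^ (2 * p.q) + (4 * C0) ^ p.q / c ^ p.q) + 1) / P ^ (k + 1) := by
      refine div_le_div_of_nonneg_right ?_ (by positivity)
      linarith

theorem highF {k d : ℕ} (p : Par k d) (hp : ParF p) (g : ℕ → ℝ) (K : ℕ → ℝ → ℂ)
    (hK : ∀ r, Measurable (K r)) {CK : ℝ} (hCK : ∀ r θ, ‖K r θ‖ ≤ CK)
    (c : ℕ → ℤ → ℝ → ℂ) (hc : ∀ r m, Continuous (c r m)) {Cc : ℝ}
    (hcb : ∀ r m θ, |θ| ≤ 1 / 2 → ‖c r m θ‖ ≤ Cc / (1 + |(m : ℝ)|)) :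
    ∃ C : ℝ, 0 < C ∧ ∀ᶠ r : ℕ in atTop, ∀ φ : Fin p.q → ℕ, Function.Injective φ →
      (∀ l, φ l < p.L) → ∀ Y : ℝ,
      ∫⁻ t : Fin d → ℝ, ENNReal.ofReal (gw t * ∏ l,
        (‖MA (TH r) (K r) (c r) (DD r) k p.n p.J p.M (φ l) r (ff k d g t) Y‖ /
          sz k p.n p.J p.M (φ l) r) ^ 2) ≤
      ENNReal.ofReal (C / (XX r) ^ (k + 1)) := by
  have hk := p.hk
  have hCK0 : 0 ≤ CK := (norm_nonneg _).trans (hCK 0 0)
  obtain ⟨C1, hC1d⟩ : ∃ C1 : ℝ, C1 = max Cc 1 := ⟨_, rfl⟩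
  have hC1 : 0 < C1 := by
    rw [hC1d]
    exact lt_of_lt_of_le one_pos (le_max_right _ _)
  have hcb' : ∀ r m θ, |θ| ≤ 1 / 2 → ‖c r m θ‖ ≤ HighF_w C1 m := by
    intro r m θ hθ
    refine (hcb r m θ hθ).trans ?_
    unfold HighF_w
    rw [hC1d]
    exact div_le_div_of_nonneg_right (le_max_left _ _) (by positivity)
  obtain ⟨C0, hC0, hdec⟩ := dec_appF p hp
  obtain ⟨c0, hc0, hcard⟩ := card_Bk (k := k) (J := p.J) (M := p.M) (L := p.L) (by omega) p.hJk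
  obtain ⟨C, hC, har⟩ := HighF_arith p hC0 hc0 hCK0
  have hsz := sz_pos (k := k) (n := p.n) (J := p.J) (M := p.M) (L := p.L) (by omega) p.hJk
  have hgr := HighF_growth hC1 (Fintype.card (Gt p.n)) (Fintype.card (Fin p.J × Fin p.M)) p.q
  refine ⟨C, hC, ?_⟩
  filter_upwards [hdec, hcard, har, hsz, hgr] with r hdec hcard har hsz hgr φ hφ hφL Y
  obtain ⟨P, hP⟩ : ∃ P, P = XX r := ⟨_, rfl⟩
  have hP1 : 1 ≤ P := hP ▸ XX_one r
  have hP0 : 0 < P := by linarith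
  obtain ⟨Z, hZ⟩ : ∃ Z : ℝ, Z = ((Zs k p.n r).card : ℝ) := ⟨_, rfl⟩
  have hZpos : p.q ≠ 0 := by have := p.hq; omega
  have hL0 : 0 < p.L := by
    have h1 := hφL ⟨0, Nat.pos_of_ne_zero hZpos⟩
    omega
  have hZ0 : 0 < Z := by rw [hZ]; exact (hsz 0 hL0).2.1
  obtain ⟨B, hB⟩ : ∃ B : Fin p.q → ℝ, B = fun l => ((Bk k p.J p.M (φ l) r).card : ℝ) := ⟨_, rfl⟩
  have hB0 : ∀ l, 0 < B l := by
    intro l
    rw [hB]
    exact (hsz (φ l) (hφL l)).2.2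
  have hBp : 0 < ∏ l, B l := Finset.prod_pos fun l _ => hB0 l
  obtain ⟨ν, hν⟩ : ∃ ν : ℝ, ν = C0 * (P / P ^ p.m1) := ⟨_, rfl⟩
  have hν0 : 0 ≤ ν := by rw [hν]; positivity
  obtain ⟨sa, hsa⟩ : ∃ sa : ℝ, sa = 9 * HighF_s1 C1 (DD r) ^ Fintype.card (Gt p.n) := ⟨_, rfl⟩
  obtain ⟨sb, hsb⟩ : ∃ sb : ℝ, sb = HighF_s1 C1 (DD r) ^ Fintype.card (Fin p.J × Fin p.M) :=
    ⟨_, rfl⟩
  have hs0 := HighF_s1_nonneg hC1 (DD r)
  have hsa0 : 0 ≤ sa := by rw [hsa]; positivity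
  have hsb0 : 0 ≤ sb := by rw [hsb]; positivity
  rw [← hsa, ← hsb, ← hP] at hgr
  obtain ⟨bd, hbd⟩ : ∃ bd : ℝ, bd = CK ^ (2 * p.q) * sb ^ (2 * p.q) *
      ((∏ l, B l) ^ 2 * Real.exp (-Real.pi * P ^ 2) + (∏ l, B l) * (2 * ν) ^ p.q) := ⟨_, rfl⟩
  have hbd0 : 0 ≤ bd := by rw [hbd]; positivity
  have hW0 : ∀ s : Fin p.q → Fin 9 × (Zt × (Gt p.n → ℤ)),
      0 < ∏ l, ∏ γ, HighF_w C1 ((s l).2.2 γ) := fun s =>
    Finset.prod_pos fun l _ => Finset.prod_pos fun γ _ => HighF_w_pos hC1 _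
  -- one term
  have hone : ∀ s ∈ Fintype.piFinset (fun _ : Fin p.q => HighF_S k p.n r (DD r)),
      ∫⁻ t : Fin d → ℝ, ENNReal.ofReal (gw t *
        ∏ l, ‖HighF_R (HighF_T r (s l).1) (K r) (c r) (DD r) k d p.n p.J p.M (φ l) r g Y
          (s l).2 t‖ ^ 2) ≤
      ENNReal.ofReal ((∏ l, ∏ γ, HighF_w C1 ((s l).2.2 γ)) ^ 2 * bd) := by
    intro s hs
    have hs' : ∀ l, (s l).2.1 ∈ Zs k p.n r := fun l =>
      (Finset.mem_product.1 (Finset.mem_product.1 (Fintype.mem_piFinset.1 hs l)).2).1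
    have h1 := HighF_one (hK r) (hCK r) (hc r) hC1 (hcb' r) (DD r) k d p.n p.J p.M r φ g Y
      (E := P) (ν := ν) hP0.le hν0 s (by
        intro b b' hb hb' τ τ' hτ hτ' hi
        have hm : ∀ (e : Fin p.q → (Fin p.J × Fin p.M → ℕ) × (Fin p.J × Fin p.M → ℤ)),
            (∀ l, e l ∈ HighF_E k p.J p.M (φ l) r (DD r)) →
            (∀ l, (e l).1 ∈ Bk k p.J p.M (φ l) r) ∧ ∀ l x, |(e l).2 x| ≤ (DD r : ℤ) := by
          intro e he
          refine ⟨fun l => (Finset.mem_product.1 (he l)).1, fun l x => ?_⟩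
          have h2 := Fintype.mem_piFinset.1 (Finset.mem_product.1 (he l)).2 x
          rw [abs_le]
          exact Finset.mem_Icc.1 h2
        obtain ⟨hb1, hb2⟩ := hm b hb
        obtain ⟨hb1', hb2'⟩ := hm b' hb'
        have h3 := hdec φ hφ hφL (fun l => (s l).2.1) hs' (fun l => (b l).1) (fun l => (b' l).1)
          hb1 hb1' (fun l => (b l).2) (fun l => (b' l).2) hb2 hb2' τ τ' (fun l => (hτ l).1)
          (fun l => (hτ' l).1) (fun l => HighF_T_diff (hτ l) (hτ' l)) (by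
            intro i
            rw [hP] at hi
            refine le_trans (le_of_eq ?_) (hi i)
            congr 1
            refine Finset.sum_congr rfl fun l _ => ?_
            unfold HighF_V0 HighF_V1 bsum
            have e1 : ∀ (τ0 : ℝ) (e : (Fin p.J × Fin p.M → ℕ) × (Fin p.J × Fin p.M → ℤ)),
                ∑ x, (τ0 + e.2 x) * (e.1 x : ℝ) ^ (k - 1 - (i : ℕ)) =
                τ0 * ∑ x, (e.1 x : ℝ) ^ (k - 1 - (i : ℕ)) +
                ∑ x, (e.2 x : ℝ) * (e.1 x : ℝ) ^ (k - 1 - (i : ℕ)) := by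
              intro τ0 e
              rw [Finset.mul_sum, ← Finset.sum_add_distrib]
              exact Finset.sum_congr rfl fun x _ => by ring
            rw [Finset.sum_sub_distrib, e1 (τ l) (b l), e1 (τ' l) (b' l)]
            ring)
        obtain ⟨h4, h5, h6⟩ := h3
        refine ⟨?_, ?_⟩
        · funext l
          exact Prod.ext (congrFun h4 l) (congrFun h5 l)
        · rw [hν, hP]
          exact h6)
    rw [← hsb] at h1
    rw [hbd, hB]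
    exact h1
  -- the sum
  obtain ⟨D, hD⟩ : ∃ D : ℝ, D = (∏ l, (sz k p.n p.J p.M (φ l) r) ^ 2)⁻¹ * (Z * sa) ^ p.q :=
    ⟨_, rfl⟩
  have hsz0 : ∀ l, 0 < sz k p.n p.J p.M (φ l) r := fun l => (hsz (φ l) (hφL l)).1
  have hszp : 0 < ∏ l, (sz k p.n p.J p.M (φ l) r) ^ 2 :=
    Finset.prod_pos fun l _ => by have := hsz0 l; positivity
  have hD0 : 0 ≤ D := by rw [hD]; positivity
  have hSS : ∑ s ∈ HighF_S k p.n r (DD r), ∏ γ, HighF_w C1 (s.2.2 γ) = Z * sa := by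
    rw [HighF_sumS, hZ, hsa]
  have hpt : ∀ t : Fin d → ℝ, gw t * ∏ l,
      (‖MA (TH r) (K r) (c r) (DD r) k p.n p.J p.M (φ l) r (ff k d g t) Y‖ /
        sz k p.n p.J p.M (φ l) r) ^ 2 ≤
      D * ∑ s ∈ Fintype.piFinset (fun _ : Fin p.q => HighF_S k p.n r (DD r)),
        (∏ l, ∏ γ, HighF_w C1 ((s l).2.2 γ))⁻¹ * (gw t *
        ∏ l, ‖HighF_R (HighF_T r (s l).1) (K r) (c r) (DD r) k d p.n p.J p.M (φ l) r g Y
          (s l).2 t‖ ^ 2) := by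
    intro t
    have hg0 : 0 ≤ gw t := (Real.exp_pos _).le
    have h1 := HighF_CS (q := p.q) (hK r) (hCK r) (hc r) hC1 (hcb' r) (DD r) k d p.n p.J p.M r φ
      g Y t
    rw [hSS] at h1
    simp only [div_pow]
    rw [Finset.prod_div_distrib, hD, div_eq_mul_inv]
    have h2 : ∑ s ∈ Fintype.piFinset (fun _ : Fin p.q => HighF_S k p.n r (DD r)),
        (∏ l, ∏ γ, HighF_w C1 ((s l).2.2 γ))⁻¹ * (gw t *
        ∏ l, ‖HighF_R (HighF_T r (s l).1) (K r) (c r) (DD r) k d p.n p.J p.M (φ l) r g Y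
          (s l).2 t‖ ^ 2) = gw t *
        ∑ s ∈ Fintype.piFinset (fun _ : Fin p.q => HighF_S k p.n r (DD r)),
        (∏ l, ∏ γ, HighF_w C1 ((s l).2.2 γ))⁻¹ *
        ∏ l, ‖HighF_R (HighF_T r (s l).1) (K r) (c r) (DD r) k d p.n p.J p.M (φ l) r g Y
          (s l).2 t‖ ^ 2 := by
      rw [Finset.mul_sum]
      exact Finset.sum_congr rfl fun s _ => by ring
    rw [h2]
    calc gw t * ((∏ l, ‖MA (TH r) (K r) (c r) (DD r) k p.n p.J p.M (φ l) r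
          (ff k d g t) Y‖ ^ 2) * (∏ l, sz k p.n p.J p.M (φ l) r ^ 2)⁻¹) ≤
        gw t * (((Z * sa) ^ p.q *
          ∑ s ∈ Fintype.piFinset (fun _ : Fin p.q => HighF_S k p.n r (DD r)),
          (∏ l, ∏ γ, HighF_w C1 ((s l).2.2 γ))⁻¹ *
          ∏ l, ‖HighF_R (HighF_T r (s l).1) (K r) (c r) (DD r) k d p.n p.J p.M (φ l) r g Y
            (s l).2 t‖ ^ 2) * (∏ l, sz k p.n p.J p.M (φ l) r ^ 2)⁻¹) :=
          mul_le_mul_of_nonneg_left (mul_le_mul_of_nonneg_right h1 (by positivity)) hg0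
      _ = _ := by ring
  have hmeas : ∀ s ∈ Fintype.piFinset (fun _ : Fin p.q => HighF_S k p.n r (DD r)),
      AEMeasurable (fun t : Fin d → ℝ => ENNReal.ofReal (∏ l, ∏ γ, HighF_w C1 ((s l).2.2 γ))⁻¹ *
        ENNReal.ofReal (gw t *
        ∏ l, ‖HighF_R (HighF_T r (s l).1) (K r) (c r) (DD r) k d p.n p.J p.M (φ l) r g Y
          (s l).2 t‖ ^ 2)) volume := by
    intro s _
    refine AEMeasurable.const_mul ?_ _
    refine (Continuous.measurable ?_).ennreal_ofReal.aemeasurable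
    refine (HighF_gw d).mul (continuous_finset_prod _ fun l _ => ?_)
    exact ((HighF_R_cont (HighF_T_meas r _) (fun θ hθ => HighF_T_abs hθ) (HighF_T_fin r _) (hK r)
      (hCK r) (hc r) hC1 (hcb' r) (DD r) k d p.n p.J p.M (φ l) r g Y (s l).2).norm).pow 2
  have hsumW : ∑ s ∈ Fintype.piFinset (fun _ : Fin p.q => HighF_S k p.n r (DD r)),
      ∏ l, ∏ γ, HighF_w C1 ((s l).2.2 γ) = (Z * sa) ^ p.q := by
    rw [← Finset.prod_univ_sum (fun _ : Fin p.q => HighF_S k p.n r (DD r))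
      (fun _ s => ∏ γ, HighF_w C1 (s.2.2 γ)), hSS, Finset.prod_const, Finset.card_univ,
      Fintype.card_fin]
  calc ∫⁻ t : Fin d → ℝ, ENNReal.ofReal (gw t * ∏ l,
        (‖MA (TH r) (K r) (c r) (DD r) k p.n p.J p.M (φ l) r (ff k d g t) Y‖ /
          sz k p.n p.J p.M (φ l) r) ^ 2)
      ≤ ∫⁻ t : Fin d → ℝ, ENNReal.ofReal D *
          ∑ s ∈ Fintype.piFinset (fun _ : Fin p.q => HighF_S k p.n r (DD r)),
            ENNReal.ofReal (∏ l, ∏ γ, HighF_w C1 ((s l).2.2 γ))⁻¹ * ENNReal.ofReal (gw t *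
            ∏ l, ‖HighF_R (HighF_T r (s l).1) (K r) (c r) (DD r) k d p.n p.J p.M (φ l) r g Y
              (s l).2 t‖ ^ 2) := by
        refine lintegral_mono fun t => ?_
        refine (ENNReal.ofReal_le_ofReal (hpt t)).trans (le_of_eq ?_)
        have hg0 : 0 ≤ gw t := (Real.exp_pos _).le
        rw [ENNReal.ofReal_mul hD0, ENNReal.ofReal_sum_of_nonneg]
        · congr 1
          refine Finset.sum_congr rfl fun s _ => ?_
          rw [ENNReal.ofReal_mul (inv_nonneg.2 (hW0 s).le)]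
        · intro s _
          have := hW0 s
          positivity
    _ = ENNReal.ofReal D *
          ∑ s ∈ Fintype.piFinset (fun _ : Fin p.q => HighF_S k p.n r (DD r)),
            ENNReal.ofReal (∏ l, ∏ γ, HighF_w C1 ((s l).2.2 γ))⁻¹ *
            ∫⁻ t : Fin d → ℝ, ENNReal.ofReal (gw t *
            ∏ l, ‖HighF_R (HighF_T r (s l).1) (K r) (c r) (DD r) k d p.n p.J p.M (φ l) r g Y
              (s l).2 t‖ ^ 2) := by
        rw [lintegral_const_mul' _ _ ENNReal.ofReal_ne_top, lintegral_finset_sum' _ hmeas]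
        congr 1
        refine Finset.sum_congr rfl fun s _ => ?_
        rw [lintegral_const_mul' _ _ ENNReal.ofReal_ne_top]
    _ ≤ ENNReal.ofReal D *
          ∑ s ∈ Fintype.piFinset (fun _ : Fin p.q => HighF_S k p.n r (DD r)),
            ENNReal.ofReal ((∏ l, ∏ γ, HighF_w C1 ((s l).2.2 γ)) * bd) := by
        gcongr with s hs
        refine (mul_le_mul_right (hone s hs) _).trans (le_of_eq ?_)
        rw [← ENNReal.ofReal_mul (inv_nonneg.2 (hW0 s).le)]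
        congr 1
        have := (hW0 s).ne'
        field_simp
    _ = ENNReal.ofReal (D * ((Z * sa) ^ p.q * bd)) := by
        rw [← ENNReal.ofReal_sum_of_nonneg (fun s _ => mul_nonneg (hW0 s).le hbd0),
          ← Finset.sum_mul, hsumW, ENNReal.ofReal_mul hD0]
    _ ≤ ENNReal.ofReal (C / (XX r) ^ (k + 1)) := by
        refine ENNReal.ofReal_le_ofReal ?_
        have h1 := har B (by
          intro l
          rw [hB]
          exact (hcard (φ l) (hφL l)).1)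
        refine le_trans ?_ h1
        rw [← hP]
        have e1 : ∏ l, (sz k p.n p.J p.M (φ l) r) ^ 2 = (Z ^ p.q * ∏ l, B l) ^ 2 /
            P ^ (2 * k * p.q) := by
          unfold sz
          rw [← hZ, ← hP]
          have e2 : ∀ l : Fin p.q, (Z * ((Bk k p.J p.M (φ l) r).card : ℝ) / P ^ k) ^ 2 =
              (Z * B l) ^ 2 / P ^ (2 * k) := by
            intro l
            rw [hB, div_pow, ← pow_mul, mul_comm k 2]
          simp only [e2]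
          rw [Finset.prod_div_distrib, Finset.prod_pow, Finset.prod_mul_distrib, Finset.prod_const,
            Finset.prod_const, Finset.card_univ, Fintype.card_fin, ← pow_mul]
        have e3 : D * ((Z * sa) ^ p.q * bd) = P ^ (2 * k * p.q) * (CK ^ (2 * p.q) *
            ((sa ^ (2 * p.q) * sb ^ (2 * p.q)) * (Real.exp (-Real.pi * P ^ 2) +
              (2 * ν) ^ p.q / ∏ l, B l))) := by
          rw [hD, hbd, e1, mul_pow Z sa p.q]
          have e4 : sa ^ (2 * p.q) = (sa ^ p.q) ^ 2 := by rw [← pow_mul, mul_comm]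
          rw [e4]
          field_simp
        rw [e3]
        refine mul_le_mul_of_nonneg_left (mul_le_mul_of_nonneg_left ?_ (by positivity))
          (by positivity)
        have h2 : 0 ≤ Real.exp (-Real.pi * P ^ 2) + (2 * ν) ^ p.q / ∏ l, B l := by positivity
        refine (mul_le_mul_of_nonneg_right hgr h2).trans ?_
        rw [mul_add]
        refine add_le_add ?_ ?_
        · refine mul_le_mul_of_nonneg_right ?_ (Real.exp_pos _).le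
          have h3 : 2 * P ≤ (2 * P) ^ (2 * p.q) :=
            le_self_pow₀ (by linarith) (by omega)
          linarith
        · rw [← mul_div_assoc]
          refine div_le_div_of_nonneg_right ?_ hBp.le
          have h3 : P ≤ P ^ p.q := le_self_pow₀ hP1 hZpos
          calc P * (2 * ν) ^ p.q ≤ P ^ p.q * (2 * ν) ^ p.q :=
                mul_le_mul_of_nonneg_right h3 (by positivity)
            _ = (P * (2 * ν)) ^ p.q := (mul_pow _ _ _).symm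
            _ ≤ (4 * P * (C0 * (P / P ^ p.m1))) ^ p.q := by
                refine pow_le_pow_left₀ (by positivity) ?_ _
                rw [← hν]
                nlinarith [mul_nonneg hP0.le hν0]

end IWar
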