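import Pool.Agent.HWar.GaussQ

/-!
# IWar.HighW: Gaussian mean of a product of squares, weighted version of `HWar.highM`

PROOF of `gaussW`. As `HWar.gaussQ`/`gaussQ_l` (`Pool/Agent/HWar/GaussQ.lean`), with
`‖ψ ω conj (ψ ω')‖ ≤ w ω w ω'` instead of `C²` in the last step.

PROOF of `highW`. As `HWar.highM` (`Pool/Agent/HWar/HighM.lean`): for fixed `t`,
`∏_l ∑_{b ∈ 𝓑 l} I_l(b) = ∑_{β ∈ piFinset 𝓑} ∏_l I_l(β l)` and
`∏_l I_l(β l) = ∫_{τ ∈ ∏ T l} ∏_l ψ l (β l) (τ l) ee(∑_i t_i (∑_l (τ_l V0 l (β l) i + V1 l (β l) i))) dτ`.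
Apply `gaussW` on `Ω = (Fin q → β) × (Fin q → ℝ)` (or as in `HighM`) with
`w (β, τ) = ∏_l ω l (β l)` on `∏ T l`, `0` elsewhere. For given `β, β'` (in `piFinset 𝓑`), `τ, τ' ∈ ∏ T l`:
if `|(v - v') i| > E` for some `i` then `gw (v - v') ≤ exp(-π E²)`; otherwise `β = β'` and
`|τ_l - τ'_l| ≤ ν` by `hdec`, and `gw ≤ 1`. So the bound is
`∑_{β,β'} ∏ω ∏ω' exp(-πE²) (2R)^(2q) + ∑_β (∏ω)² (2R)^q (2ν)^q`, and
`∑_β ∏_l ω l (β l) = ∏_l ∑_{b ∈ 𝓑 l} ω l b`, `∑_β ∏_l (ω l (β l))² = ∏_l ∑_{b ∈ 𝓑 l} (ω l b)²`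
(`Finset.prod_univ_sum`).
-/

namespace IWar

open MeasureTheory MWg HWar

private theorem HighWg_norm_ee (x : ℝ) : ‖ee x‖ = 1 := by
  unfold ee
  rw [show (2 * (Real.pi : ℂ) * (x : ℂ) * Complex.I) = ((2 * Real.pi * x : ℝ) : ℂ) * Complex.I by
    push_cast; ring]
  exact Complex.norm_exp_ofReal_mul_I _

private theorem HighWg_conj_ee (x : ℝ) : (starRingEnd ℂ) (ee x) = ee (-x) := by
  unfold ee
  rw [← Complex.exp_conj]
  congr 1
  rw [show (2 * (Real.pi : ℂ) * (x : ℂ) * Complex.I) = ((2 * Real.pi * x : ℝ) : ℂ) * Complex.I by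
    push_cast; ring, map_mul, Complex.conj_ofReal, Complex.conj_I]
  push_cast
  ring

private theorem HighWg_ee_add (x y : ℝ) : ee x * ee y = ee (x + y) := by
  unfold ee
  rw [← Complex.exp_add]
  congr 1
  push_cast
  ring

private theorem HighWg_gw_nonneg {d : ℕ} (t : Fin d → ℝ) : 0 ≤ gw t := (Real.exp_pos _).le

private theorem HighWg_gw_cont {d : ℕ} : Continuous (gw : (Fin d → ℝ) → ℝ) := by
  unfold gw
  fun_prop

private theorem HighWg_ee_cont : Continuous ee := by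
  unfold ee
  fun_prop

/-- The integrand on the product space. -/
private noncomputable def HighWg_F {Ω : Type*} {d : ℕ} (ψ : Ω → ℂ) (v : Ω → Fin d → ℝ)
    (t : Fin d → ℝ) (p : Ω × Ω) : ℂ :=
  (gw t : ℂ) * ((ψ p.1 * ee (∑ i, t i * v p.1 i)) *
    (starRingEnd ℂ) (ψ p.2 * ee (∑ i, t i * v p.2 i)))

private theorem HighWg_F_eq {Ω : Type*} {d : ℕ} (ψ : Ω → ℂ) (v : Ω → Fin d → ℝ)
    (t : Fin d → ℝ) (p : Ω × Ω) :
    HighWg_F ψ v t p = (ψ p.1 * (starRingEnd ℂ) (ψ p.2)) *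
      ((gw t : ℂ) * ee (∑ i, t i * (v p.1 - v p.2) i)) := by
  unfold HighWg_F
  rw [map_mul, HighWg_conj_ee]
  have h : ee (∑ i, t i * (v p.1 - v p.2) i) =
      ee (∑ i, t i * v p.1 i) * ee (-∑ i, t i * v p.2 i) := by
    rw [HighWg_ee_add]
    congr 1
    rw [← sub_eq_add_neg, ← Finset.sum_sub_distrib]
    refine Finset.sum_congr rfl fun i _ => ?_
    rw [Pi.sub_apply]
    ring
  rw [h]
  ring

private theorem HighWg_F_norm {Ω : Type*} {d : ℕ} (ψ : Ω → ℂ) {C : ℝ} (hC : ∀ ω, ‖ψ ω‖ ≤ C)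
    (v : Ω → Fin d → ℝ) (t : Fin d → ℝ) (p : Ω × Ω) :
    ‖HighWg_F ψ v t p‖ ≤ C ^ 2 * gw t := by
  rw [HighWg_F_eq, norm_mul, norm_mul, norm_mul, HighWg_norm_ee, RCLike.norm_conj, mul_one,
    Complex.norm_real, Real.norm_of_nonneg (HighWg_gw_nonneg t), sq]
  exact mul_le_mul_of_nonneg_right (mul_le_mul (hC _) (hC _) (norm_nonneg _)
    ((norm_nonneg _).trans (hC p.1))) (HighWg_gw_nonneg t)

private theorem HighWg_F_integrable {Ω : Type*} [MeasurableSpace Ω] (ρ : Measure Ω)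
    [IsFiniteMeasure ρ] {d : ℕ} (ψ : Ω → ℂ) (hψ : Measurable ψ) {C : ℝ} (hC : ∀ ω, ‖ψ ω‖ ≤ C)
    (v : Ω → Fin d → ℝ) (hv : Measurable v) :
    Integrable (Function.uncurry (HighWg_F ψ v))
      ((volume : Measure (Fin d → ℝ)).prod (ρ.prod ρ)) := by
  have hg : Integrable (fun q : (Fin d → ℝ) × (Ω × Ω) => C ^ 2 * gw q.1)
      ((volume : Measure (Fin d → ℝ)).prod (ρ.prod ρ)) :=
    ((gw_integrable d).comp_fst (ρ.prod ρ)).const_mul (C ^ 2)
  refine hg.mono' ?_ (Filter.Eventually.of_forall fun q => HighWg_F_norm ψ hC v q.1 q.2)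
  apply Measurable.aestronglyMeasurable
  have hvi : ∀ i, Measurable fun ω => v ω i := fun i => (measurable_pi_apply i).comp hv
  have h1 : Measurable fun q : (Fin d → ℝ) × (Ω × Ω) => ((gw q.1 : ℝ) : ℂ) :=
    Complex.measurable_ofReal.comp (HighWg_gw_cont.measurable.comp measurable_fst)
  have h2 : Measurable fun q : (Fin d → ℝ) × (Ω × Ω) =>
      ψ q.2.1 * ee (∑ i, q.1 i * v q.2.1 i) := by
    refine (hψ.comp (measurable_fst.comp measurable_snd)).mul (HighWg_ee_cont.measurable.comp ?_)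
    refine Finset.measurable_sum _ fun i _ => ?_
    exact ((measurable_pi_apply i).comp measurable_fst).mul
      ((hvi i).comp (measurable_fst.comp measurable_snd))
  have h3 : Measurable fun q : (Fin d → ℝ) × (Ω × Ω) =>
      ψ q.2.2 * ee (∑ i, q.1 i * v q.2.2 i) := by
    refine (hψ.comp (measurable_snd.comp measurable_snd)).mul (HighWg_ee_cont.measurable.comp ?_)
    refine Finset.measurable_sum _ fun i _ => ?_
    exact ((measurable_pi_apply i).comp measurable_fst).mul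
      ((hvi i).comp (measurable_snd.comp measurable_snd))
  have h4 : Measurable fun q : (Fin d → ℝ) × (Ω × Ω) =>
      (starRingEnd ℂ) (ψ q.2.2 * ee (∑ i, q.1 i * v q.2.2 i)) :=
    Complex.continuous_conj.measurable.comp h3
  exact h1.mul (h2.mul h4)

private theorem HighWg_z {Ω : Type*} [MeasurableSpace Ω] (ρ : Measure Ω) [IsFiniteMeasure ρ]
    {d : ℕ} (ψ : Ω → ℂ) (v : Ω → Fin d → ℝ) (t : Fin d → ℝ) :
    ∫ p, HighWg_F ψ v t p ∂(ρ.prod ρ) =
      ((gw t * ‖∫ ω, ψ ω * ee (∑ i, t i * v ω i) ∂ρ‖ ^ 2 : ℝ) : ℂ) := by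
  unfold HighWg_F
  rw [integral_const_mul]
  have h := integral_prod_mul (μ := ρ) (ν := ρ) (fun ω => ψ ω * ee (∑ i, t i * v ω i))
    (fun ω => (starRingEnd ℂ) (ψ ω * ee (∑ i, t i * v ω i)))
  rw [h, integral_conj, Complex.mul_conj']
  push_cast
  rfl

private theorem HighWg_integrable {Ω : Type*} [MeasurableSpace Ω] (ρ : Measure Ω)
    [IsFiniteMeasure ρ] {d : ℕ} (ψ : Ω → ℂ) (hψ : Measurable ψ) {C : ℝ} (hC : ∀ ω, ‖ψ ω‖ ≤ C)
    (v : Ω → Fin d → ℝ) (hv : Measurable v) :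
    Integrable (fun t : Fin d → ℝ => gw t * ‖∫ ω, ψ ω * ee (∑ i, t i * v ω i) ∂ρ‖ ^ 2) := by
  have h := (HighWg_F_integrable ρ ψ hψ hC v hv).integral_prod_left.re
  refine h.congr (Filter.Eventually.of_forall fun t => ?_)
  simp only [Function.uncurry_apply_pair, RCLike.re_eq_complex_re]
  rw [HighWg_z, Complex.ofReal_re]

private theorem HighWh_ee_norm (x : ℝ) : ‖ee x‖ = 1 := by
  have h : (2 * Real.pi * x * Complex.I : ℂ) = ((2 * Real.pi * x : ℝ) : ℂ) * Complex.I := by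
    push_cast
    ring
  rw [ee, h, Complex.norm_exp_ofReal_mul_I]

private theorem HighWh_ee_add (x y : ℝ) : ee (x + y) = ee x * ee y := by
  rw [ee, ee, ee, ← Complex.exp_add]
  congr 1
  push_cast
  ring

private theorem HighWh_ee_sum {ι : Type*} (s : Finset ι) (f : ι → ℝ) :
    ee (∑ i ∈ s, f i) = ∏ i ∈ s, ee (f i) := by
  classical
  induction s using Finset.induction_on with
  | empty => simp [ee]
  | insert a s ha ih => rw [Finset.sum_insert ha, Finset.prod_insert ha, HighWh_ee_add, ih]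

private theorem HighWh_ee_meas : Measurable ee := by
  unfold ee
  fun_prop

/-- The integral over `count × μ` is the sum of the integrals. -/
private theorem HighWh_count {ι X : Type*} [Fintype ι] [MeasurableSpace ι]
    [MeasurableSingletonClass ι] [MeasurableSpace X] (μ : Measure X) [IsFiniteMeasure μ]
    (f : ι × X → ℂ) (hf : Measurable f) {C : ℝ} (hC : ∀ p, ‖f p‖ ≤ C) :
    ∫ p, f p ∂((Measure.count : Measure ι).prod μ) = ∑ i, ∫ x, f (i, x) ∂μ := by
  have hint : Integrable f ((Measure.count : Measure ι).prod μ) :=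
    Integrable.of_bound hf.aestronglyMeasurable C (Filter.Eventually.of_forall hC)
  rw [integral_prod f hint, integral_fintype hint.integral_prod_left]
  apply Finset.sum_congr rfl
  intro i _
  simp [measureReal_def]

private theorem HighWh_gw_le_one {d : ℕ} (y : Fin d → ℝ) : gw y ≤ 1 := by
  unfold gw
  rw [Real.exp_le_one_iff]
  have h1 : 0 ≤ ∑ i, y i ^ 2 := Finset.sum_nonneg fun i _ => sq_nonneg _
  nlinarith [Real.pi_pos]

private theorem HighWh_gw_small {d : ℕ} (y : Fin d → ℝ) {E : ℝ} (hE : 0 ≤ E) {i : Fin d}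
    (hi : E < |y i|) : gw y ≤ Real.exp (-Real.pi * E ^ 2) := by
  unfold gw
  rw [Real.exp_le_exp]
  have h1 : y i ^ 2 ≤ ∑ i, y i ^ 2 :=
    Finset.single_le_sum (f := fun i => y i ^ 2) (fun i _ => sq_nonneg _) (Finset.mem_univ i)
  have h2 : E ^ 2 ≤ y i ^ 2 := by
    rw [← sq_abs (y i)]
    exact pow_le_pow_left₀ hE hi.le 2
  nlinarith [Real.pi_pos]

private theorem HighWh_gw_nonneg {d : ℕ} (y : Fin d → ℝ) : 0 ≤ gw y := (Real.exp_pos _).le

private theorem HighWh_gw_meas {d : ℕ} : Measurable (gw : (Fin d → ℝ) → ℝ) := by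
  unfold gw
  fun_prop

/-- The integral over `count × μ` is the sum of the integrals (real functions). -/
private theorem HighWh_countR {ι X : Type*} [Fintype ι] [MeasurableSpace ι]
    [MeasurableSingletonClass ι] [MeasurableSpace X] (μ : Measure X) [IsFiniteMeasure μ]
    (f : ι × X → ℝ) (hf : Measurable f) {C : ℝ} (hC : ∀ p, ‖f p‖ ≤ C) :
    ∫ p, f p ∂((Measure.count : Measure ι).prod μ) = ∑ i, ∫ x, f (i, x) ∂μ := by
  have hint : Integrable f ((Measure.count : Measure ι).prod μ) :=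
    Integrable.of_bound hf.aestronglyMeasurable C (Filter.Eventually.of_forall hC)
  rw [integral_prod f hint, integral_fintype hint.integral_prod_left]
  apply Finset.sum_congr rfl
  intro i _
  simp [measureReal_def]

private theorem HighWh_alg (A B e R ν : ℝ) (q : ℕ) :
    e * (A * (2 * R) ^ q) * (A * (2 * R) ^ q) + (2 * ν) ^ q * (B * (2 * R) ^ q) =
      A ^ 2 * (2 * R) ^ (2 * q) * e + B * (4 * R * ν) ^ q := by
  have h1 : (4 * R * ν) ^ q = (2 * R) ^ q * (2 * ν) ^ q := by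
    rw [← mul_pow]
    congr 1
    ring
  have h2 : (2 * R) ^ (2 * q) = (2 * R) ^ q * (2 * R) ^ q := by
    rw [← pow_add]
    congr 1
    ring
  rw [h1, h2]
  ring

theorem gaussW {Ω : Type*} [MeasurableSpace Ω] (ρ : Measure Ω) [IsFiniteMeasure ρ] {d : ℕ}
    (ψ : Ω → ℂ) (hψ : Measurable ψ) (w : Ω → ℝ) (hw : Measurable w) (hψw : ∀ ω, ‖ψ ω‖ ≤ w ω)
    {C : ℝ} (hC : ∀ ω, w ω ≤ C) (v : Ω → Fin d → ℝ) (hv : Measurable v) :
    ∫⁻ t : Fin d → ℝ, ENNReal.ofReal (gw t * ‖∫ ω, ψ ω * ee (∑ i, t i * v ω i) ∂ρ‖ ^ 2) ≤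
      ENNReal.ofReal (∫ ω, ∫ ω', w ω * w ω' * gw (v ω - v ω') ∂ρ ∂ρ) := by
  have hψC : ∀ ω, ‖ψ ω‖ ≤ C := fun ω => (hψw ω).trans (hC ω)
  have hw0 : ∀ ω, 0 ≤ w ω := fun ω => (norm_nonneg _).trans (hψw ω)
  have hF := HighWg_F_integrable ρ ψ hψ hψC v hv
  have e1 : ((∫ t : Fin d → ℝ, gw t * ‖∫ ω, ψ ω * ee (∑ i, t i * v ω i) ∂ρ‖ ^ 2 : ℝ) : ℂ) =
      ∫ p : Ω × Ω, (ψ p.1 * (starRingEnd ℂ) (ψ p.2)) * (gw (v p.1 - v p.2) : ℂ)
        ∂(ρ.prod ρ) := by
    rw [← integral_complex_ofReal]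
    calc ∫ t : Fin d → ℝ, ((gw t * ‖∫ ω, ψ ω * ee (∑ i, t i * v ω i) ∂ρ‖ ^ 2 : ℝ) : ℂ)
        = ∫ t : Fin d → ℝ, ∫ p, HighWg_F ψ v t p ∂(ρ.prod ρ) := by
          refine integral_congr_ae (Filter.Eventually.of_forall fun t => ?_)
          simp only
          rw [HighWg_z]
      _ = ∫ p, (∫ t : Fin d → ℝ, HighWg_F ψ v t p) ∂(ρ.prod ρ) := integral_integral_swap hF
      _ = _ := by
          refine integral_congr_ae (Filter.Eventually.of_forall fun p => ?_)
          simp only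
          simp_rw [HighWg_F_eq]
          rw [integral_const_mul, gw_fourier]
  have hprodint : Integrable (fun p : Ω × Ω => w p.1 * w p.2 * gw (v p.1 - v p.2))
      (ρ.prod ρ) := by
    refine (integrable_const (C * C)).mono' ?_ (Filter.Eventually.of_forall fun p => ?_)
    · apply Measurable.aestronglyMeasurable
      exact ((hw.comp measurable_fst).mul (hw.comp measurable_snd)).mul
        (HighWg_gw_cont.measurable.comp ((hv.comp measurable_fst).sub (hv.comp measurable_snd)))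
    · have h0 : 0 ≤ w p.1 * w p.2 := mul_nonneg (hw0 _) (hw0 _)
      rw [Real.norm_of_nonneg (mul_nonneg h0 (HighWg_gw_nonneg _))]
      have h1 : gw (v p.1 - v p.2) ≤ 1 := by
        unfold gw
        rw [Real.exp_le_one_iff]
        have h2 : 0 ≤ ∑ i, (v p.1 - v p.2) i ^ 2 := Finset.sum_nonneg fun i _ => sq_nonneg _
        have := Real.pi_pos
        nlinarith
      have h3 : w p.1 * w p.2 ≤ C * C :=
        mul_le_mul (hC _) (hC _) (hw0 _) ((hw0 p.1).trans (hC p.1))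
      calc w p.1 * w p.2 * gw (v p.1 - v p.2) ≤ w p.1 * w p.2 * 1 :=
            mul_le_mul_of_nonneg_left h1 h0
        _ ≤ C * C := by rw [mul_one]; exact h3
  have e2 : ∫ t : Fin d → ℝ, gw t * ‖∫ ω, ψ ω * ee (∑ i, t i * v ω i) ∂ρ‖ ^ 2 ≤
      ∫ p : Ω × Ω, w p.1 * w p.2 * gw (v p.1 - v p.2) ∂(ρ.prod ρ) := by
    have h0 : 0 ≤ ∫ t : Fin d → ℝ, gw t * ‖∫ ω, ψ ω * ee (∑ i, t i * v ω i) ∂ρ‖ ^ 2 :=
      integral_nonneg fun t => mul_nonneg (HighWg_gw_nonneg t) (sq_nonneg _)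
    have h1 : ∫ t : Fin d → ℝ, gw t * ‖∫ ω, ψ ω * ee (∑ i, t i * v ω i) ∂ρ‖ ^ 2 =
        ‖((∫ t : Fin d → ℝ, gw t * ‖∫ ω, ψ ω * ee (∑ i, t i * v ω i) ∂ρ‖ ^ 2 : ℝ) : ℂ)‖ := by
      rw [Complex.norm_real, Real.norm_of_nonneg h0]
    rw [h1, e1]
    refine norm_integral_le_of_norm_le hprodint (Filter.Eventually.of_forall fun p => ?_)
    rw [norm_mul, norm_mul, RCLike.norm_conj, Complex.norm_real,
      Real.norm_of_nonneg (HighWg_gw_nonneg _)]
    exact mul_le_mul_of_nonneg_right (mul_le_mul (hψw _) (hψw _) (norm_nonneg _)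
      (hw0 p.1)) (HighWg_gw_nonneg _)
  rw [← ofReal_integral_eq_lintegral_ofReal (HighWg_integrable ρ ψ hψ hψC v hv)
    (Filter.Eventually.of_forall fun t => mul_nonneg (HighWg_gw_nonneg t) (sq_nonneg _))]
  apply ENNReal.ofReal_le_ofReal
  refine e2.trans (le_of_eq ?_)
  exact integral_prod _ hprodint

theorem highW {q d : ℕ} {β : Type} [DecidableEq β] (𝓑 : Fin q → Finset β) (T : Fin q → Set ℝ)
    (hT : ∀ l, MeasurableSet (T l)) {R : ℝ} (hR : 0 ≤ R) (hTR : ∀ l, ∀ θ ∈ T l, |θ| ≤ R)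
    (ψ : Fin q → β → ℝ → ℂ) (hψ : ∀ l b, Measurable (ψ l b)) (ω : Fin q → β → ℝ)
    (hω0 : ∀ l b, 0 ≤ ω l b) (hω : ∀ l, ∀ b ∈ 𝓑 l, ∀ θ ∈ T l, ‖ψ l b θ‖ ≤ ω l b)
    (V0 V1 : Fin q → β → Fin d → ℝ) {E ν : ℝ} (hE : 0 ≤ E) (hν : 0 ≤ ν)
    (hdec : ∀ b b' : Fin q → β, (∀ l, b l ∈ 𝓑 l) → (∀ l, b' l ∈ 𝓑 l) → ∀ τ τ' : Fin q → ℝ,
      (∀ l, τ l ∈ T l) → (∀ l, τ' l ∈ T l) →
      (∀ i, |∑ l, ((τ l * V0 l (b l) i + V1 l (b l) i) -
        (τ' l * V0 l (b' l) i + V1 l (b' l) i))| ≤ E) →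
      b = b' ∧ ∀ l, |τ l - τ' l| ≤ ν) :
    ∫⁻ t : Fin d → ℝ, ENNReal.ofReal (gw t *
        ∏ l, ‖∑ b ∈ 𝓑 l, ∫ θ in T l, ψ l b θ * ee (∑ i, t i * (θ * V0 l b i + V1 l b i))‖ ^ 2) ≤
      ENNReal.ofReal ((∏ l, ∑ b ∈ 𝓑 l, ω l b) ^ 2 * (2 * R) ^ (2 * q) *
        Real.exp (-Real.pi * E ^ 2) + (∏ l, ∑ b ∈ 𝓑 l, (ω l b) ^ 2) * (4 * R * ν) ^ q) := by
  classical
  let ι : Type := {b : Fin q → β // b ∈ Fintype.piFinset 𝓑}
  let _ : MeasurableSpace ι := ⊤
  have : DiscreteMeasurableSpace ι := ⟨fun _ => trivial⟩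
  have hTsub : ∀ l, T l ⊆ Set.Icc (-R) R := fun l θ hθ => abs_le.1 (hTR l θ hθ)
  have hvT : ∀ l, volume (T l) ≤ ENNReal.ofReal (2 * R) := by
    intro l
    refine (measure_mono (hTsub l)).trans ?_
    rw [Real.volume_Icc]
    apply le_of_eq
    congr 1
    ring
  have hfin : ∀ l, IsFiniteMeasure (volume.restrict (T l)) := fun l =>
    ⟨by rw [Measure.restrict_apply_univ]; exact lt_of_le_of_lt (hvT l) ENNReal.ofReal_lt_top⟩
  let μ : Measure (Fin q → ℝ) := Measure.pi fun l => volume.restrict (T l)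
  have hμuniv : μ Set.univ ≤ ENNReal.ofReal ((2 * R) ^ q) := by
    have h1 : μ Set.univ = ∏ l : Fin q, (volume.restrict (T l)) Set.univ := Measure.pi_univ _
    rw [h1, ENNReal.ofReal_pow (by positivity)]
    calc ∏ l : Fin q, (volume.restrict (T l)) Set.univ ≤
        ∏ _l : Fin q, ENNReal.ofReal (2 * R) := by
          apply Finset.prod_le_prod'
          intro l _
          rw [Measure.restrict_apply_univ]
          exact hvT l
      _ = ENNReal.ofReal (2 * R) ^ q := by simp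
  have hμreal : μ.real Set.univ ≤ (2 * R) ^ q := by
    rw [measureReal_def]
    exact ENNReal.toReal_le_of_le_ofReal (by positivity) hμuniv
  have hμae : ∀ᵐ τ ∂μ, ∀ l, τ l ∈ T l := by
    have h1 : μ = (volume : Measure (Fin q → ℝ)).restrict (Set.univ.pi fun l => T l) := by
      rw [volume_pi, Measure.restrict_pi_pi]
    rw [h1]
    have h2 := ae_restrict_mem (μ := (volume : Measure (Fin q → ℝ)))
      (MeasurableSet.univ_pi fun l : Fin q => hT l)
    filter_upwards [h2] with τ hτ l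
    exact hτ l (Set.mem_univ l)
  let ρ : Measure (ι × (Fin q → ℝ)) := (Measure.count : Measure ι).prod μ
  have hρae : ∀ᵐ ω ∂ρ, ∀ l, ω.2 l ∈ T l :=
    (Measure.quasiMeasurePreserving_snd (μ := (Measure.count : Measure ι)) (ν := μ)).ae hμae
  let Ψ : ι × (Fin q → ℝ) → ℂ := fun x => ∏ l, (T l).indicator (ψ l (x.1.1 l)) (x.2 l)
  let w : ι × (Fin q → ℝ) → ℝ := fun x => ∏ l, ω l (x.1.1 l)
  let v : ι × (Fin q → ℝ) → Fin d → ℝ := fun x i =>
    ∑ l, (x.2 l * V0 l (x.1.1 l) i + V1 l (x.1.1 l) i)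
  have hV0 : ∀ l i, Measurable fun x : ι × (Fin q → ℝ) => V0 l (x.1.1 l) i := fun l i =>
    (measurable_of_countable fun b : ι => V0 l (b.1 l) i).comp measurable_fst
  have hV1 : ∀ l i, Measurable fun x : ι × (Fin q → ℝ) => V1 l (x.1.1 l) i := fun l i =>
    (measurable_of_countable fun b : ι => V1 l (b.1 l) i).comp measurable_fst
  have h2l : ∀ l, Measurable fun x : ι × (Fin q → ℝ) => x.2 l := fun l =>
    (measurable_pi_apply l).comp measurable_snd
  have hΨ : Measurable Ψ := by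
    refine measurable_from_prod_countable_right fun b => ?_
    change Measurable fun τ : Fin q → ℝ => ∏ l, (T l).indicator (ψ l (b.1 l)) (τ l)
    apply Finset.measurable_prod
    intro l _
    exact ((hψ l (b.1 l)).indicator (hT l)).comp (measurable_pi_apply l)
  have hw : Measurable w :=
    (measurable_of_countable fun b : ι => ∏ l, ω l (b.1 l)).comp measurable_fst
  have hv : Measurable v := by
    rw [measurable_pi_iff]
    intro i
    apply Finset.measurable_sum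
    intro l _
    exact ((h2l l).mul (hV0 l i)).add (hV1 l i)
  have hw0 : ∀ x, 0 ≤ w x := fun x => Finset.prod_nonneg fun l _ => hω0 l _
  have hΨw : ∀ x, ‖Ψ x‖ ≤ w x := by
    intro x
    change ‖∏ l, (T l).indicator (ψ l (x.1.1 l)) (x.2 l)‖ ≤ ∏ l, ω l (x.1.1 l)
    rw [norm_prod]
    apply Finset.prod_le_prod (fun l _ => norm_nonneg _)
    intro l _
    by_cases h : x.2 l ∈ T l
    · rw [Set.indicator_of_mem h]
      exact hω l _ (Fintype.mem_piFinset.1 x.1.2 l) _ h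
    · rw [Set.indicator_of_notMem h, norm_zero]
      exact hω0 l _
  obtain ⟨C, hCdef⟩ : ∃ C : ℝ, C = ∑ b : ι, ∏ l, ω l (b.1 l) := ⟨_, rfl⟩
  have hC : ∀ x, w x ≤ C := by
    intro x
    rw [hCdef]
    exact Finset.single_le_sum (f := fun b : ι => ∏ l, ω l (b.1 l))
      (fun b _ => Finset.prod_nonneg fun l _ => hω0 l _) (Finset.mem_univ x.1)
  have hC0 : 0 ≤ C := by
    rw [hCdef]
    exact Finset.sum_nonneg fun b _ => Finset.prod_nonneg fun l _ => hω0 l _
  -- the product of the sums is one integral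
  have hz : ∀ t : Fin d → ℝ,
      ∏ l, ∑ b ∈ 𝓑 l, ∫ θ in T l, ψ l b θ * ee (∑ i, t i * (θ * V0 l b i + V1 l b i)) =
        ∫ x, Ψ x * ee (∑ i, t i * v x i) ∂ρ := by
    intro t
    have hm : Measurable fun x : ι × (Fin q → ℝ) => Ψ x * ee (∑ i, t i * v x i) := by
      refine hΨ.mul (HighWh_ee_meas.comp ?_)
      apply Finset.measurable_sum
      intro i _
      exact ((measurable_pi_apply i).comp hv).const_mul _
    rw [HighWh_count μ _ hm (C := C)
      (fun x => by rw [norm_mul, HighWh_ee_norm, mul_one]; exact (hΨw x).trans (hC x)),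
      Finset.prod_univ_sum]
    rw [← Finset.sum_coe_sort (Fintype.piFinset 𝓑)]
    apply Finset.sum_congr rfl
    intro b _
    have h1 := integral_fintype_prod_eq_prod (𝕜 := ℂ) (E := fun _ : Fin q => ℝ)
      (fun (l : Fin q) (θ : ℝ) => (T l).indicator (ψ l (b.1 l)) θ *
        ee (∑ i, t i * (θ * V0 l (b.1 l) i + V1 l (b.1 l) i)))
      (μ := fun l => volume.restrict (T l))
    have h0 : ∀ l : Fin q, ∫ θ in T l, ψ l (b.1 l) θ *
        ee (∑ i, t i * (θ * V0 l (b.1 l) i + V1 l (b.1 l) i)) =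
        ∫ θ in T l, (T l).indicator (ψ l (b.1 l)) θ *
        ee (∑ i, t i * (θ * V0 l (b.1 l) i + V1 l (b.1 l) i)) := by
      intro l
      refine setIntegral_congr_fun (hT l) fun θ hθ => ?_
      rw [Set.indicator_of_mem hθ]
    rw [Finset.prod_congr rfl fun l _ => h0 l, ← h1]
    apply integral_congr_ae
    refine Filter.Eventually.of_forall fun τ => ?_
    change ∏ l, ((T l).indicator (ψ l (b.1 l)) (τ l) *
        ee (∑ i, t i * (τ l * V0 l (b.1 l) i + V1 l (b.1 l) i))) =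
      (∏ l, (T l).indicator (ψ l (b.1 l)) (τ l)) *
        ee (∑ i, t i * ∑ l, (τ l * V0 l (b.1 l) i + V1 l (b.1 l) i))
    have h2 : ∑ i, t i * ∑ l, (τ l * V0 l (b.1 l) i + V1 l (b.1 l) i) =
        ∑ l, ∑ i, t i * (τ l * V0 l (b.1 l) i + V1 l (b.1 l) i) := by
      simp only [Finset.mul_sum]
      rw [Finset.sum_comm]
    rw [h2, HighWh_ee_sum, ← Finset.prod_mul_distrib]
  have hmain := gaussW ρ Ψ hΨ w hw hΨw hC v hv
  have hlhs : (∫⁻ t : Fin d → ℝ, ENNReal.ofReal (gw t *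
        ∏ l, ‖∑ b ∈ 𝓑 l, ∫ θ in T l, ψ l b θ *
          ee (∑ i, t i * (θ * V0 l b i + V1 l b i))‖ ^ 2)) =
      ∫⁻ t : Fin d → ℝ, ENNReal.ofReal (gw t * ‖∫ x, Ψ x * ee (∑ i, t i * v x i) ∂ρ‖ ^ 2) := by
    apply lintegral_congr
    intro t
    rw [← hz t, norm_prod, ← Finset.prod_pow]
  rw [hlhs]
  refine hmain.trans (ENNReal.ofReal_le_ofReal ?_)
  obtain ⟨A, hA⟩ : ∃ A : ℝ, A = ∏ l, ∑ b ∈ 𝓑 l, ω l b := ⟨_, rfl⟩
  obtain ⟨B, hB⟩ : ∃ B : ℝ, B = ∏ l, ∑ b ∈ 𝓑 l, (ω l b) ^ 2 := ⟨_, rfl⟩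
  obtain ⟨e, he⟩ : ∃ e : ℝ, e = Real.exp (-Real.pi * E ^ 2) := ⟨_, rfl⟩
  rw [← hA, ← hB, ← he]
  have hA0 : 0 ≤ A := by
    rw [hA]
    exact Finset.prod_nonneg fun l _ => Finset.sum_nonneg fun b _ => hω0 l b
  have hB0 : 0 ≤ B := by
    rw [hB]
    exact Finset.prod_nonneg fun l _ => Finset.sum_nonneg fun b _ => sq_nonneg _
  have he0 : 0 ≤ e := by
    rw [he]
    exact (Real.exp_pos _).le
  have hsumA : ∑ b : ι, ∏ l, ω l (b.1 l) = A := by
    rw [hA, Finset.prod_univ_sum, ← Finset.sum_coe_sort (Fintype.piFinset 𝓑)]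
  have hsumB : ∑ b : ι, (∏ l, ω l (b.1 l)) ^ 2 = B := by
    rw [hB, Finset.prod_univ_sum, ← Finset.sum_coe_sort (Fintype.piFinset 𝓑)]
    refine Finset.sum_congr rfl fun b _ => ?_
    rw [Finset.prod_pow]
  -- the integrals of w and of its square
  have hwint : Integrable w ρ := Integrable.of_bound hw.aestronglyMeasurable C
    (Filter.Eventually.of_forall fun x => by
      rw [Real.norm_of_nonneg (hw0 x)]
      exact hC x)
  have hw2int : Integrable (fun x => (w x) ^ 2) ρ :=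
    Integrable.of_bound (hw.pow_const 2).aestronglyMeasurable (C ^ 2)
    (Filter.Eventually.of_forall fun x => by
      rw [Real.norm_of_nonneg (sq_nonneg _)]
      exact pow_le_pow_left₀ (hw0 x) (hC x) 2)
  have hIw : ∫ x, w x ∂ρ ≤ A * (2 * R) ^ q := by
    have h1 := HighWh_countR μ w hw (C := C) (fun x => by
      rw [Real.norm_of_nonneg (hw0 x)]
      exact hC x)
    have h2 : ∑ b : ι, ∫ τ, w (b, τ) ∂μ = A * μ.real Set.univ := by
      rw [← hsumA, Finset.sum_mul]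
      refine Finset.sum_congr rfl fun b _ => ?_
      change ∫ _τ : Fin q → ℝ, (∏ l, ω l (b.1 l)) ∂μ = _
      rw [integral_const, smul_eq_mul, mul_comm]
    change ∫ x, w x ∂((Measure.count : Measure ι).prod μ) ≤ _
    rw [h1, h2]
    exact mul_le_mul_of_nonneg_left hμreal hA0
  have hIw2 : ∫ x, (w x) ^ 2 ∂ρ ≤ B * (2 * R) ^ q := by
    have h1 := HighWh_countR μ (fun x => (w x) ^ 2) (hw.pow_const 2) (C := C ^ 2) (fun x => by
      rw [Real.norm_of_nonneg (sq_nonneg _)]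
      exact pow_le_pow_left₀ (hw0 x) (hC x) 2)
    have h2 : ∑ b : ι, ∫ τ, (w (b, τ)) ^ 2 ∂μ = B * μ.real Set.univ := by
      rw [← hsumB, Finset.sum_mul]
      refine Finset.sum_congr rfl fun b _ => ?_
      change ∫ _τ : Fin q → ℝ, (∏ l, ω l (b.1 l)) ^ 2 ∂μ = _
      rw [integral_const, smul_eq_mul, mul_comm]
    change ∫ x, (w x) ^ 2 ∂((Measure.count : Measure ι).prod μ) ≤ _
    rw [h1, h2]
    exact mul_le_mul_of_nonneg_left hμreal hB0
  -- the inner integral
  have hinner : ∀ x : ι × (Fin q → ℝ), (∀ l, x.2 l ∈ T l) →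
      ∫ x', w x * w x' * gw (v x - v x') ∂ρ ≤
        w x * (e * (A * (2 * R) ^ q)) + (w x) ^ 2 * (2 * ν) ^ q := by
    intro x hx
    let S : Set (Fin q → ℝ) := Set.univ.pi fun l => Set.Icc (x.2 l - ν) (x.2 l + ν)
    have hS : MeasurableSet S := MeasurableSet.univ_pi fun _ => measurableSet_Icc
    let U : Set (ι × (Fin q → ℝ)) := {x.1} ×ˢ S
    have hU : MeasurableSet U := (measurableSet_singleton _).prod hS
    have hbd : ∀ᵐ x' ∂ρ, w x * w x' * gw (v x - v x') ≤
        w x * e * w x' + U.indicator (fun _ => (w x) ^ 2) x' := by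
      filter_upwards [hρae] with x' hx'
      have hww : 0 ≤ w x * w x' := mul_nonneg (hw0 x) (hw0 x')
      by_cases h : ∀ i, |(v x - v x') i| ≤ E
      · have h1 := hdec x.1.1 x'.1.1 (fun l => Fintype.mem_piFinset.1 x.1.2 l)
          (fun l => Fintype.mem_piFinset.1 x'.1.2 l) x.2 x'.2 hx hx' (fun i => by
            have h2 := h i
            have h3 : (v x - v x') i =
                ∑ l, ((x.2 l * V0 l (x.1.1 l) i + V1 l (x.1.1 l) i) -
                  (x'.2 l * V0 l (x'.1.1 l) i + V1 l (x'.1.1 l) i)) := by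
              rw [Finset.sum_sub_distrib]
              rfl
            rw [h3] at h2
            exact h2)
        have hx1 : x'.1 = x.1 := (Subtype.ext h1.1).symm
        have h4 : x' ∈ U := by
          refine ⟨hx1, ?_⟩
          intro l _
          have := abs_le.1 (h1.2 l)
          constructor <;> linarith
        have hwx : w x' = w x := by
          change ∏ l, ω l (x'.1.1 l) = ∏ l, ω l (x.1.1 l)
          rw [hx1]
        rw [Set.indicator_of_mem h4, hwx]
        have h5 := mul_le_mul_of_nonneg_left (HighWh_gw_le_one (v x - v x'))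
          (mul_nonneg (hw0 x) (hw0 x))
        have h6 : 0 ≤ w x * e * w x := mul_nonneg (mul_nonneg (hw0 x) he0) (hw0 x)
        have h7 : (w x) ^ 2 = w x * w x := sq _
        rw [h7]
        linarith
      · push Not at h
        obtain ⟨i, hi⟩ := h
        have h1 := HighWh_gw_small (v x - v x') hE hi
        rw [← he] at h1
        have h2 : 0 ≤ U.indicator (fun _ => (w x) ^ 2) x' :=
          Set.indicator_nonneg (fun _ _ => sq_nonneg _) _
        have h3 := mul_le_mul_of_nonneg_left h1 hww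
        have h4 : w x * w x' * e = w x * e * w x' := by ring
        linarith
    have hUint : Integrable (U.indicator (fun _ => (w x) ^ 2)) ρ :=
      (integrable_const ((w x) ^ 2)).indicator hU
    have hgint : Integrable (fun x' => w x * e * w x') ρ := hwint.const_mul _
    calc ∫ x', w x * w x' * gw (v x - v x') ∂ρ ≤
        ∫ x', (w x * e * w x' + U.indicator (fun _ => (w x) ^ 2) x') ∂ρ := by
          apply integral_mono_of_nonneg (Filter.Eventually.of_forall fun x' =>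
            mul_nonneg (mul_nonneg (hw0 x) (hw0 x')) (HighWh_gw_nonneg _))
            (hgint.add hUint) hbd
      _ = w x * e * ∫ x', w x' ∂ρ + ρ.real U * (w x) ^ 2 := by
          rw [integral_add hgint hUint, integral_const_mul,
            integral_indicator_const ((w x) ^ 2) hU, smul_eq_mul]
      _ ≤ w x * (e * (A * (2 * R) ^ q)) + (w x) ^ 2 * (2 * ν) ^ q := by
          apply add_le_add
          · have h1 := mul_le_mul_of_nonneg_left hIw (mul_nonneg (hw0 x) he0)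
            refine h1.trans (le_of_eq ?_)
            ring
          · rw [mul_comm]
            apply mul_le_mul_of_nonneg_left _ (sq_nonneg _)
            have h1 : ρ U = (Measure.count : Measure ι) {x.1} * μ S := Measure.prod_prod _ _
            rw [measureReal_def, h1, Measure.count_singleton, one_mul]
            apply ENNReal.toReal_le_of_le_ofReal (by positivity)
            have h2 : μ S = ∏ l, (volume.restrict (T l)) (Set.Icc (x.2 l - ν) (x.2 l + ν)) :=
              Measure.pi_pi _ _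
            rw [h2, ENNReal.ofReal_pow (by positivity)]
            calc ∏ l, (volume.restrict (T l)) (Set.Icc (x.2 l - ν) (x.2 l + ν)) ≤
                ∏ _l : Fin q, ENNReal.ofReal (2 * ν) := by
                  apply Finset.prod_le_prod'
                  intro l _
                  refine (Measure.restrict_apply_le _ _).trans ?_
                  rw [Real.volume_Icc]
                  apply le_of_eq
                  congr 1
                  ring
              _ = ENNReal.ofReal (2 * ν) ^ q := by simp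
  have hrhsint : Integrable (fun x => w x * (e * (A * (2 * R) ^ q)) +
      (w x) ^ 2 * (2 * ν) ^ q) ρ := (hwint.mul_const _).add (hw2int.mul_const _)
  calc ∫ x, ∫ x', w x * w x' * gw (v x - v x') ∂ρ ∂ρ ≤
      ∫ x, (w x * (e * (A * (2 * R) ^ q)) + (w x) ^ 2 * (2 * ν) ^ q) ∂ρ := by
        apply integral_mono_of_nonneg
          (Filter.Eventually.of_forall fun x => integral_nonneg fun x' =>
            mul_nonneg (mul_nonneg (hw0 x) (hw0 x')) (HighWh_gw_nonneg _))
          hrhsint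
        filter_upwards [hρae] with x hx
        exact hinner x hx
    _ = (∫ x, w x ∂ρ) * (e * (A * (2 * R) ^ q)) + (∫ x, (w x) ^ 2 ∂ρ) * (2 * ν) ^ q := by
        rw [integral_add (hwint.mul_const _) (hw2int.mul_const _), integral_mul_const,
          integral_mul_const]
    _ ≤ (A * (2 * R) ^ q) * (e * (A * (2 * R) ^ q)) + (B * (2 * R) ^ q) * (2 * ν) ^ q := by
        apply add_le_add
        · apply mul_le_mul_of_nonneg_right hIw
          exact mul_nonneg he0 (mul_nonneg hA0 (pow_nonneg (mul_nonneg zero_le_two hR) q))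
        · exact mul_le_mul_of_nonneg_right hIw2 (pow_nonneg (mul_nonneg zero_le_two hν) q)
    _ = A ^ 2 * (2 * R) ^ (2 * q) * e + B * (4 * R * ν) ^ q := by
        rw [← HighWh_alg A B e R ν q]
        ring

end IWar
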