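import Pool.Agent.MWg.Bump

/-!
# IWar.KernF: kernels for integer parts

`S i` real sums, `F i` integers with `|S i - F i| ≤ B`, none of them equal to `N`.

PROOF. Let `χ : ℝ → ℝ` be a smooth even bump function, `0 ≤ χ ≤ 1`, `χ = 1` on `[-1, 1]`, `χ = 0` outside
`(-2, 2)` (`ContDiffBump`), `ψ x = ∫ χ ξ ee (ξ x) dξ` (a Schwartz function, real valued), so
`∫ χ(Pθ) ee (θ x) dθ = P⁻¹ ψ (x/P)`. Let `K3 P θ = 1 - χ (Pθ)` for `|θ| ≤ 1/2`, `0` otherwise; it vanishes for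
`|θ| ≤ 1/P`. Let `f`, `G` be as in `Pool/Agent/HWar/Kernel.lean` (`Kernel_kernel`, copy what is needed):
`f x = ∫ ee (ξ x) G ξ dξ`, `f` a bump function with `f = 1` on `[-1/2, 1/2]`, `re f ≥ 0`, `f = 0` outside
`(-1,1)`; `∑_i H⁻¹ f ((S_i - N)/H) = ∫ G (Hθ) ee (-(θN)) ∑_i ee (θ S_i) dθ`, whose real part is
`≥ #{|S_i - N| ≤ H/2}/H`. Put `K1 H P θ = G (Hθ) - G 0 χ (Pθ)`. Bounds for `1 ≤ P ≤ H`: bounded;
`‖G(Hθ) - G 0‖ ≤ C H|θ|`, `|1 - χ(Pθ)| ≤ C P|θ| ≤ C H|θ|`; `|θ|^N0 ‖G(Hθ)‖ ≤ C`, and `χ(Pθ) = 0` for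
`|θ| > 2`. Hence
`#/H ≤ ‖∫ K1 ..‖ + ‖G 0‖ ‖∫ χ(Pθ) ee(-(θN)) ∑ ee (θ S_i) dθ‖`. The last integral is
`∑_i P⁻¹ ψ ((S_i - N)/P)`. Compare it with `∑_i P⁻¹ ψ ((F_i - N)/P) = ∫ χ(Pθ) ee(-(θN)) ∑ ee (θ F_i) dθ`;
since `F_i - N` is a nonzero integer, `∫_{-1/2}^{1/2} ee (θ (F_i - N)) dθ = 0`, and for `P ≥ 4` (so that
`χ(Pθ) = 0` for `|θ| > 1/2`) the latter is `- ∫ K3 P θ ee(-(θN)) ∑ ee (θ F_i) dθ`. The difference: with
`x = (S_i - N)/P`, `y = (F_i - N)/P`, `|x - y| ≤ B/P ≤ B`: by the mean value theorem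
`|ψ x - ψ y| ≤ (B/P) sup |ψ'| on the segment ≤ (B/P) C sup 1/(1+ξ²) ≤ (B/P) C 2(1+B²)/(1+x²)`
(`1 + x² ≤ 2(1+ξ²)(1+(x-ξ)²)`), so the difference is at most `P⁻¹ (B/P) C' ∑_i 1/(1+x_i²)`, and
`∫ exp(-|ξ|) ee (ξ x) dξ = 2/(1 + 4π²x²) ≥ (1/20)/(1+x²)`, so
`∑_i 1/(1+x_i²) ≤ 20 ∑_i P ∫ exp(-P|θ|) ee (θ (S_i - N)) dθ = 20 P ∫ exp(-P|θ|) ee(-(θN)) ∑ ee (θ S_i) dθ`.
Altogether the constants depend on `N0` and `B` only.
-/

namespace IWar

open MeasureTheory MWg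

private theorem KernF_ee_cont (x : ℝ) : Continuous fun θ : ℝ => ee (θ * x) := by
  unfold ee
  fun_prop

private theorem KernF_ee_norm (x : ℝ) : ‖ee x‖ = 1 := by
  unfold ee
  have : (2 * (Real.pi : ℂ) * x * Complex.I) = ((2 * Real.pi * x : ℝ) : ℂ) * Complex.I := by
    push_cast
    ring
  rw [this]
  exact Complex.norm_exp_ofReal_mul_I _

private theorem KernF_ee_add (x y : ℝ) : ee (x + y) = ee x * ee y := by
  unfold ee
  rw [← Complex.exp_add]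
  congr 1
  push_cast
  ring

open SchwartzMap FourierTransform in
private theorem KernF_inv (G : 𝓢(ℝ, ℂ)) (x : ℝ) :
    (𝓕⁻ G : 𝓢(ℝ, ℂ)) x = ∫ ξ : ℝ, ee (ξ * x) * G ξ := by
  rw [SchwartzMap.fourierInv_coe, Real.fourierInv_eq']
  refine integral_congr_ae (Filter.Eventually.of_forall fun ξ => ?_)
  simp only [smul_eq_mul]
  congr 1
  unfold ee
  congr 1
  simp
  ring

open SchwartzMap FourierTransform in
private theorem KernF_kernel : ∃ (f : ℝ → ℂ) (G : 𝓢(ℝ, ℂ)),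
    (∀ x, f x = ∫ ξ : ℝ, ee (ξ * x) * G ξ) ∧ (∀ x, 0 ≤ (f x).re) ∧
    (∀ x, |x| ≤ 1 / 2 → (f x).re = 1) := by
  let b : ContDiffBump (0 : ℝ) := ⟨1 / 2, 1, by norm_num, by norm_num⟩
  have h1 : HasCompactSupport (fun x => ((b x : ℝ) : ℂ)) :=
    b.hasCompactSupport.comp_left (g := fun r : ℝ => (r : ℂ)) rfl
  have h2 : ContDiff ℝ (⊤ : ℕ∞) (fun x => ((b x : ℝ) : ℂ)) :=
    Complex.ofRealCLM.contDiff.comp b.contDiff
  let f : 𝓢(ℝ, ℂ) := h1.toSchwartzMap h2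
  have hf : ∀ x, f x = ((b x : ℝ) : ℂ) := fun x => rfl
  refine ⟨f, 𝓕 f, ?_, ?_, ?_⟩
  · intro x
    have e1 : 𝓕⁻ (𝓕 f) = f := FourierTransform.fourierInv_fourier_eq f
    rw [← KernF_inv, e1]
  · intro x
    rw [hf, Complex.ofReal_re]
    exact b.nonneg
  · intro x hx
    rw [hf, Complex.ofReal_re]
    refine b.one_of_mem_closedBall ?_
    rw [Metric.mem_closedBall, dist_zero_right, Real.norm_eq_abs]
    exact hx

open SchwartzMap FourierTransform in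
private theorem KernF_chi : ∃ (χ Ψ : 𝓢(ℝ, ℂ)), (∀ x, Ψ x = ∫ ξ : ℝ, ee (ξ * x) * χ ξ) ∧
    (∀ x, |x| ≤ 1 → χ x = 1) ∧ (∀ x, 2 ≤ |x| → χ x = 0) := by
  let b : ContDiffBump (0 : ℝ) := ⟨1, 2, by norm_num, by norm_num⟩
  have h1 : HasCompactSupport (fun x => ((b x : ℝ) : ℂ)) :=
    b.hasCompactSupport.comp_left (g := fun r : ℝ => (r : ℂ)) rfl
  have h2 : ContDiff ℝ (⊤ : ℕ∞) (fun x => ((b x : ℝ) : ℂ)) :=
    Complex.ofRealCLM.contDiff.comp b.contDiff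
  let χ : 𝓢(ℝ, ℂ) := h1.toSchwartzMap h2
  have hf : ∀ x, χ x = ((b x : ℝ) : ℂ) := fun x => rfl
  refine ⟨χ, 𝓕⁻ χ, fun x => KernF_inv χ x, ?_, ?_⟩
  · intro x hx
    rw [hf, b.one_of_mem_closedBall, Complex.ofReal_one]
    rw [Metric.mem_closedBall, dist_zero_right, Real.norm_eq_abs]
    exact hx
  · intro x hx
    rw [hf, b.zero_of_le_dist, Complex.ofReal_zero]
    rw [dist_zero_right, Real.norm_eq_abs]
    exact hx

open SchwartzMap in
private theorem KernF_scaled {f : ℝ → ℂ} {G : 𝓢(ℝ, ℂ)} (h : ∀ x, f x = ∫ ξ : ℝ, ee (ξ * x) * G ξ)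
    {η : ℝ} (hη : 0 < η) (x : ℝ) :
    ((η⁻¹ : ℝ) : ℂ) * f (x / η) = ∫ θ : ℝ, ee (θ * x) * G (η * θ) := by
  have e1 := Measure.integral_comp_mul_left (fun y : ℝ => ee (y * (x / η)) * G y) η
  have e2 : (∫ θ : ℝ, ee (θ * x) * G (η * θ)) = ∫ θ : ℝ, ee (η * θ * (x / η)) * G (η * θ) := by
    refine integral_congr_ae (Filter.Eventually.of_forall fun θ => ?_)
    simp only
    congr 2
    field_simp
  rw [e2, e1, ← h, abs_of_pos (inv_pos.2 hη)]
  rfl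

open SchwartzMap in
private theorem KernF_int (G : 𝓢(ℝ, ℂ)) {η : ℝ} (hη : 0 < η) : Integrable (fun θ : ℝ => G (η * θ)) :=
  (G.integrable (μ := volume)).comp_mul_left' hη.ne'

private theorem KernF_int_ee {k : ℝ → ℂ} (hk : Integrable k) (x : ℝ) :
    Integrable (fun θ : ℝ => ee (θ * x) * k θ) := by
  refine hk.mono ?_ ?_
  · exact (KernF_ee_cont x).aestronglyMeasurable.mul hk.aestronglyMeasurable
  · refine Filter.Eventually.of_forall fun θ => ?_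
    rw [norm_mul, KernF_ee_norm, one_mul]

private theorem KernF_lin {ι : Type} (s : Finset ι) (S : ι → ℝ) (y : ℝ) {k : ℝ → ℂ}
    (hk : Integrable k) :
    (∫ θ : ℝ, k θ * ee (-(θ * y)) * ∑ i ∈ s, ee (θ * S i)) =
      ∑ i ∈ s, ∫ θ : ℝ, ee (θ * (S i - y)) * k θ := by
  rw [← integral_finsetSum]
  · refine integral_congr_ae (Filter.Eventually.of_forall fun θ => ?_)
    simp only
    rw [Finset.mul_sum]
    refine Finset.sum_congr rfl fun i _ => ?_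
    have e : θ * (S i - y) = -(θ * y) + θ * S i := by ring
    rw [e, KernF_ee_add]
    ring
  · intro i _
    exact KernF_int_ee hk _

/-- the two sided exponential -/
private theorem KernF_exp_int {P : ℝ} (hP : 0 < P) :
    Integrable (fun θ : ℝ => ((Real.exp (-(P * |θ|)) : ℝ) : ℂ)) ∧
    ∀ u : ℝ, (∫ θ : ℝ, ee (θ * u) * ((Real.exp (-(P * |θ|)) : ℝ) : ℂ)) =
      ((2 * P / (P ^ 2 + 4 * Real.pi ^ 2 * u ^ 2) : ℝ) : ℂ) := by
  have key : ∀ u : ℝ, IntegrableOn (fun θ : ℝ => ee (θ * u) * ((Real.exp (-(P * |θ|)) : ℝ) : ℂ)) (Set.Iic 0) ∧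
      IntegrableOn (fun θ : ℝ => ee (θ * u) * ((Real.exp (-(P * |θ|)) : ℝ) : ℂ)) (Set.Ioi 0) ∧
      (∫ θ in Set.Iic (0 : ℝ), ee (θ * u) * ((Real.exp (-(P * |θ|)) : ℝ) : ℂ)) =
        1 / ((P : ℂ) + 2 * Real.pi * u * Complex.I) ∧
      (∫ θ in Set.Ioi (0 : ℝ), ee (θ * u) * ((Real.exp (-(P * |θ|)) : ℝ) : ℂ)) =
        1 / ((P : ℂ) - 2 * Real.pi * u * Complex.I) := by
    intro u
    have r1 : (0 : ℝ) < ((P : ℂ) + 2 * Real.pi * u * Complex.I).re := by simp [hP]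
    have r2 : (-((P : ℂ) - 2 * Real.pi * u * Complex.I)).re < 0 := by simp [hP]
    have e1 : Set.EqOn (fun θ : ℝ => Complex.exp (((P : ℂ) + 2 * Real.pi * u * Complex.I) * θ))
        (fun θ : ℝ => ee (θ * u) * ((Real.exp (-(P * |θ|)) : ℝ) : ℂ)) (Set.Iic 0) := by
      intro θ hθ
      have hθ' : θ ≤ 0 := hθ
      simp only
      unfold ee
      rw [abs_of_nonpos hθ', Complex.ofReal_exp, ← Complex.exp_add]
      congr 1
      push_cast
      ring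
    have e2 : Set.EqOn (fun θ : ℝ => Complex.exp ((-((P : ℂ) - 2 * Real.pi * u * Complex.I)) * θ))
        (fun θ : ℝ => ee (θ * u) * ((Real.exp (-(P * |θ|)) : ℝ) : ℂ)) (Set.Ioi 0) := by
      intro θ hθ
      have hθ' : 0 < θ := hθ
      simp only
      unfold ee
      rw [abs_of_pos hθ', Complex.ofReal_exp, ← Complex.exp_add]
      congr 1
      push_cast
      ring
    refine ⟨(integrableOn_exp_mul_complex_Iic r1 0).congr_fun e1 measurableSet_Iic,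
      (integrableOn_exp_mul_complex_Ioi r2 0).congr_fun e2 measurableSet_Ioi, ?_, ?_⟩
    · rw [← setIntegral_congr_fun measurableSet_Iic e1, integral_exp_mul_complex_Iic r1]
      simp
    · rw [← setIntegral_congr_fun measurableSet_Ioi e2, integral_exp_mul_complex_Ioi r2]
      simp only [Complex.ofReal_zero, mul_zero, Complex.exp_zero]
      rw [neg_div_neg_eq]
  constructor
  · obtain ⟨h1, h2, -, -⟩ := key 0
    have h3 := h1.union h2
    rw [Set.Iic_union_Ioi, integrableOn_univ] at h3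
    refine h3.congr (Filter.Eventually.of_forall fun θ => ?_)
    simp [ee]
  · intro u
    obtain ⟨h1, h2, h3, h4⟩ := key u
    rw [← intervalIntegral.integral_Iic_add_Ioi h1 h2, h3, h4]
    have hne : (P : ℂ) ^ 2 + 4 * (Real.pi : ℂ) ^ 2 * (u : ℂ) ^ 2 ≠ 0 := by
      have : (0 : ℝ) < P ^ 2 + 4 * Real.pi ^ 2 * u ^ 2 := by positivity
      exact_mod_cast this.ne'
    have hfac : ((P : ℂ) + 2 * Real.pi * u * Complex.I) * ((P : ℂ) - 2 * Real.pi * u * Complex.I) =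
        (P : ℂ) ^ 2 + 4 * (Real.pi : ℂ) ^ 2 * (u : ℂ) ^ 2 := by
      ring_nf
      rw [Complex.I_sq]
      ring
    have n1 : ((P : ℂ) + 2 * Real.pi * u * Complex.I) ≠ 0 := by
      intro h
      rw [h, zero_mul] at hfac
      exact hne hfac.symm
    have n2 : ((P : ℂ) - 2 * Real.pi * u * Complex.I) ≠ 0 := by
      intro h
      rw [h, mul_zero] at hfac
      exact hne hfac.symm
    push_cast
    rw [div_add_div _ _ n1 n2, hfac]
    congr 1
    ring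

/-- orthogonality -/
private theorem KernF_orth {m : ℤ} (hm : m ≠ 0) :
    (∫ θ : ℝ, ee (θ * (m : ℝ)) * (Set.Icc (-(1 / 2)) (1 / 2) : Set ℝ).indicator (fun _ => (1 : ℂ)) θ) = 0 := by
  have e1 : (fun θ : ℝ => ee (θ * (m : ℝ)) *
      (Set.Icc (-(1 / 2)) (1 / 2) : Set ℝ).indicator (fun _ => (1 : ℂ)) θ) =
      (Set.Icc (-(1 / 2)) (1 / 2) : Set ℝ).indicator (fun θ => ee (θ * (m : ℝ))) := by
    funext θ
    by_cases h : θ ∈ (Set.Icc (-(1 / 2)) (1 / 2) : Set ℝ)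
    · rw [Set.indicator_of_mem h, Set.indicator_of_mem h, mul_one]
    · rw [Set.indicator_of_notMem h, Set.indicator_of_notMem h, mul_zero]
  rw [e1, integral_indicator measurableSet_Icc, integral_Icc_eq_integral_Ioc,
    ← intervalIntegral.integral_of_le (by norm_num)]
  have hc : (2 * (Real.pi : ℂ) * m * Complex.I) ≠ 0 := by
    have h1 : (Real.pi : ℂ) ≠ 0 := by exact_mod_cast Real.pi_ne_zero
    have h2 : ((m : ℤ) : ℂ) ≠ 0 := by exact_mod_cast hm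
    simp [h1, h2]
  have e2 : ∀ θ : ℝ, ee (θ * (m : ℝ)) = Complex.exp ((2 * (Real.pi : ℂ) * m * Complex.I) * θ) := by
    intro θ
    unfold ee
    congr 1
    push_cast
    ring
  simp only [e2]
  rw [integral_exp_mul_complex hc]
  have e3 : Complex.exp ((2 * (Real.pi : ℂ) * m * Complex.I) * ((1 / 2 : ℝ) : ℂ)) =
      Complex.exp ((2 * (Real.pi : ℂ) * m * Complex.I) * ((-(1 / 2) : ℝ) : ℂ)) := by
    rw [Complex.exp_eq_exp_iff_exists_int]
    refine ⟨m, ?_⟩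
    push_cast
    ring
  rw [e3, sub_self, zero_div]


open SchwartzMap in
private theorem KernF_bd (N0 : ℕ) (G : 𝓢(ℝ, ℂ)) : ∃ C : ℝ, 0 < C ∧ (∀ x, ‖G x‖ ≤ C) ∧
    (∀ x y, ‖G x - G y‖ ≤ C * |x - y|) ∧
    ∀ H θ : ℝ, 1 ≤ H → |θ| ^ N0 * ‖G (H * θ)‖ ≤ C := by
  obtain ⟨C0, h0, hC0⟩ := G.decay 0 0
  obtain ⟨C1, h1, hC1⟩ := G.decay 0 1
  obtain ⟨C3, h3, hC3⟩ := G.decay N0 0
  have b0 : ∀ x, ‖G x‖ ≤ C0 := fun x => by
    have := hC0 x
    rwa [pow_zero, one_mul, norm_iteratedFDeriv_zero] at this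
  have b3 : ∀ x : ℝ, |x| ^ N0 * ‖G x‖ ≤ C3 := fun x => by
    have := hC3 x
    rwa [norm_iteratedFDeriv_zero, Real.norm_eq_abs] at this
  have b1 : ∀ x y : ℝ, ‖G x - G y‖ ≤ C1 * |x - y| := fun x y => by
    refine Convex.norm_image_sub_le_of_norm_fderiv_le (𝕜 := ℝ) (s := Set.univ)
      (fun z _ => G.differentiableAt) ?_ convex_univ (Set.mem_univ y) (Set.mem_univ x)
    intro z _
    have := hC1 z
    rwa [pow_zero, one_mul, norm_iteratedFDeriv_one] at this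
  refine ⟨C0 + C1 + C3, by positivity, fun x => (b0 x).trans (by linarith),
    fun x y => (b1 x y).trans (mul_le_mul_of_nonneg_right (by linarith) (abs_nonneg _)), ?_⟩
  intro H θ hH
  have hH0 : 0 < H := by linarith
  have d1 : |θ| ^ N0 * ‖G (H * θ)‖ ≤ C3 := by
    have := b3 (H * θ)
    rw [abs_mul, abs_of_pos hH0, mul_pow] at this
    have hH3 : 1 ≤ H ^ N0 := one_le_pow₀ hH
    have e : 0 ≤ |θ| ^ N0 * ‖G (H * θ)‖ := by positivity
    nlinarith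
  linarith

open SchwartzMap in
private theorem KernF_mv (G : 𝓢(ℝ, ℂ)) (B : ℝ) : ∃ C : ℝ, 0 < C ∧
    ∀ x y : ℝ, |x - y| ≤ B → ‖G x - G y‖ ≤ C * |x - y| / (1 + x ^ 2) := by
  obtain ⟨C0, h0, hC0⟩ := G.decay 0 1
  obtain ⟨C2, h2, hC2⟩ := G.decay 2 1
  refine ⟨(C0 + C2) * (2 * (1 + B ^ 2)), by positivity, fun x y hxy => ?_⟩
  have hx : 0 < 1 + x ^ 2 := by positivity
  have b1 : ‖G x - G y‖ ≤ ((C0 + C2) * (2 * (1 + B ^ 2)) / (1 + x ^ 2)) * |x - y| := by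
    refine Convex.norm_image_sub_le_of_norm_fderiv_le (𝕜 := ℝ) (s := segment ℝ x y)
      (fun z _ => G.differentiableAt) ?_ (convex_segment x y) (right_mem_segment ℝ x y)
      (left_mem_segment ℝ x y)
    intro z hz
    have c0 : ‖fderiv ℝ G z‖ ≤ C0 := by
      have := hC0 z
      rwa [pow_zero, one_mul, norm_iteratedFDeriv_one] at this
    have c2 : z ^ 2 * ‖fderiv ℝ G z‖ ≤ C2 := by
      have := hC2 z
      rwa [norm_iteratedFDeriv_one, Real.norm_eq_abs, sq_abs] at this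
    have hzx : |x - z| ≤ B := by
      refine le_trans ?_ hxy
      rw [segment_eq_uIcc] at hz
      have h3 := Set.abs_sub_left_of_mem_uIcc hz
      rw [abs_sub_comm z x, abs_sub_comm y x] at h3
      exact h3
    have hz2 : (x - z) ^ 2 ≤ B ^ 2 := by
      rw [← sq_abs (x - z)]
      exact pow_le_pow_left₀ (abs_nonneg _) hzx 2
    have hq : 1 + x ^ 2 ≤ 2 * (1 + B ^ 2) * (1 + z ^ 2) := by
      nlinarith [sq_nonneg (x - 2 * z), sq_nonneg z, sq_nonneg B, mul_nonneg (sq_nonneg z) (sq_nonneg B)]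
    rw [le_div_iff₀ hx]
    have hn : 0 ≤ ‖fderiv ℝ G z‖ := norm_nonneg _
    calc ‖fderiv ℝ G z‖ * (1 + x ^ 2) ≤ ‖fderiv ℝ G z‖ * (2 * (1 + B ^ 2) * (1 + z ^ 2)) :=
          mul_le_mul_of_nonneg_left hq hn
      _ = (‖fderiv ℝ G z‖ + z ^ 2 * ‖fderiv ℝ G z‖) * (2 * (1 + B ^ 2)) := by ring
      _ ≤ (C0 + C2) * (2 * (1 + B ^ 2)) :=
          mul_le_mul_of_nonneg_right (add_le_add c0 c2) (by positivity)
  refine b1.trans (le_of_eq ?_)
  ring

theorem kernF (N0 : ℕ) {B : ℝ} (hB : 1 ≤ B) :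
    ∃ (C : ℝ) (K1 : ℝ → ℝ → ℝ → ℂ) (K3 : ℝ → ℝ → ℂ), 0 < C ∧ (∀ H P, Continuous (K1 H P)) ∧
      (∀ P, Measurable (K3 P)) ∧
      (∀ H P θ : ℝ, 1 ≤ P → P ≤ H → ‖K1 H P θ‖ ≤ C ∧ ‖K1 H P θ‖ ≤ C * (H * |θ|) ∧
        |θ| ^ N0 * ‖K1 H P θ‖ ≤ C) ∧
      (∀ P θ : ℝ, 1 ≤ P → ‖K3 P θ‖ ≤ C) ∧
      (∀ P θ : ℝ, 4 ≤ P → (|θ| ≤ P⁻¹ ∨ 1 / 2 < |θ|) → K3 P θ = 0) ∧
      ∀ (ι : Type) (s : Finset ι) (S F : ι → ℝ) (N : ℤ) (H P : ℝ), 4 ≤ P → P ≤ H →
        (∀ i ∈ s, ∃ n : ℤ, n ≠ N ∧ F i = n) → (∀ i ∈ s, |S i - F i| ≤ B) →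
        ((open Classical in (s.filter fun i => |S i - N| ≤ H / 2).card : ℕ) : ℝ) / H ≤
          ‖∫ θ : ℝ, K1 H P θ * ee (-(θ * N)) * ∑ i ∈ s, ee (θ * S i)‖ +
          C * ‖∫ θ : ℝ, K3 P θ * ee (-(θ * N)) * ∑ i ∈ s, ee (θ * F i)‖ +
          C / P * ‖∫ θ : ℝ, (Real.exp (-(P * |θ|)) : ℂ) * ee (-(θ * N)) *
            ∑ i ∈ s, ee (θ * S i)‖ := by
  obtain ⟨f, G, hinv, hnn, hone⟩ := KernF_kernel
  obtain ⟨χ, Ψ, hΨ, hχ1, hχ0⟩ := KernF_chi
  obtain ⟨CG, hCG, g0, g1, g3⟩ := KernF_bd N0 G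
  obtain ⟨Cχ, hCχ, x0, x1, x3⟩ := KernF_bd N0 χ
  obtain ⟨CΨ, hCΨ, hmv⟩ := KernF_mv Ψ B
  have hG0 : ‖G 0‖ ≤ CG := g0 0
  have hG0' : 0 ≤ ‖G 0‖ := norm_nonneg _
  have hχz : χ 0 = 1 := hχ1 0 (by simp)
  have hC1 : 0 ≤ CG * Cχ := by positivity
  have hC2 : 0 ≤ CG * (20 * B * CΨ) := by positivity
  set C : ℝ := CG + CG * Cχ + Cχ + 1 + CG * (20 * B * CΨ) with hC
  have hCpos : 0 < C := by positivity
  refine ⟨C, fun H P θ => G (H * θ) - G 0 * χ (P * θ),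
    fun P => (Set.Icc (-(1 / 2)) (1 / 2) : Set ℝ).indicator (fun θ => 1 - χ (P * θ)),
    hCpos, ?_, ?_, ?_, ?_, ?_, ?_⟩
  · intro H P
    exact (G.continuous.comp (continuous_const.mul continuous_id)).sub
      (continuous_const.mul (χ.continuous.comp (continuous_const.mul continuous_id)))
  · intro P
    refine Measurable.indicator ?_ measurableSet_Icc
    exact (continuous_const.sub (χ.continuous.comp (continuous_const.mul continuous_id))).measurable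
  · intro H P θ hP hPH
    have hH : 1 ≤ H := hP.trans hPH
    refine ⟨?_, ?_, ?_⟩
    · calc ‖G (H * θ) - G 0 * χ (P * θ)‖ ≤ ‖G (H * θ)‖ + ‖G 0 * χ (P * θ)‖ := norm_sub_le _ _
        _ ≤ CG + CG * Cχ := by
          rw [norm_mul]
          exact add_le_add (g0 _) (mul_le_mul hG0 (x0 _) (norm_nonneg _) hCG.le)
        _ ≤ C := by linarith
    · have e : G (H * θ) - G 0 * χ (P * θ) = (G (H * θ) - G 0) + G 0 * (χ 0 - χ (P * θ)) := by
        rw [hχz]; ring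
      have e1 : ‖G (H * θ) - G 0‖ ≤ CG * (H * |θ|) := by
        have := g1 (H * θ) 0
        rwa [sub_zero, abs_mul, abs_of_pos (by linarith : 0 < H)] at this
      have e2 : ‖χ 0 - χ (P * θ)‖ ≤ Cχ * (H * |θ|) := by
        have := x1 0 (P * θ)
        rw [zero_sub, abs_neg, abs_mul, abs_of_pos (by linarith : 0 < P)] at this
        refine this.trans (mul_le_mul_of_nonneg_left ?_ hCχ.le)
        exact mul_le_mul_of_nonneg_right hPH (abs_nonneg _)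
      have e4 : 0 ≤ H * |θ| := mul_nonneg (by linarith) (abs_nonneg _)
      show ‖G (H * θ) - G 0 * χ (P * θ)‖ ≤ C * (H * |θ|)
      rw [e]
      calc ‖(G (H * θ) - G 0) + G 0 * (χ 0 - χ (P * θ))‖
          ≤ ‖G (H * θ) - G 0‖ + ‖G 0 * (χ 0 - χ (P * θ))‖ := norm_add_le _ _
        _ ≤ CG * (H * |θ|) + CG * (Cχ * (H * |θ|)) := by
          rw [norm_mul]
          exact add_le_add e1 (mul_le_mul hG0 e2 (norm_nonneg _) hCG.le)
        _ = (CG + CG * Cχ) * (H * |θ|) := by ring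
        _ ≤ C * (H * |θ|) := mul_le_mul_of_nonneg_right (by linarith) e4
    · have hθ : 0 ≤ |θ| ^ N0 := by positivity
      calc |θ| ^ N0 * ‖G (H * θ) - G 0 * χ (P * θ)‖
          ≤ |θ| ^ N0 * (‖G (H * θ)‖ + ‖G 0‖ * ‖χ (P * θ)‖) := by
            refine mul_le_mul_of_nonneg_left ?_ hθ
            rw [← norm_mul]
            exact norm_sub_le _ _
        _ = |θ| ^ N0 * ‖G (H * θ)‖ + ‖G 0‖ * (|θ| ^ N0 * ‖χ (P * θ)‖) := by ring
        _ ≤ CG + CG * Cχ :=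
            add_le_add (g3 H θ hH) (mul_le_mul hG0 (x3 P θ hP) (by positivity) hCG.le)
        _ ≤ C := by linarith
  · intro P θ hP
    refine (norm_indicator_le_norm_self _ _).trans ?_
    refine (norm_sub_le _ _).trans ?_
    rw [norm_one]
    linarith [x0 (P * θ)]
  · rintro P θ hP (h | h)
    · have h1 : χ (P * θ) = 1 := by
        refine hχ1 _ ?_
        rw [abs_mul, abs_of_pos (by linarith : 0 < P)]
        calc P * |θ| ≤ P * P⁻¹ := mul_le_mul_of_nonneg_left h (by linarith)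
          _ = 1 := mul_inv_cancel₀ (by linarith)
      simp only [Set.indicator_apply, h1, sub_self, ite_self]
    · refine Set.indicator_of_notMem ?_ _
      intro h1
      rw [Set.mem_Icc, ← abs_le] at h1
      linarith
  · intro ι s S F N H P hP hPH hF hSF
    have hP0 : 0 < P := by linarith
    have hH0 : 0 < H := by linarith
    -- the five integrals as sums
    have iG := KernF_int G hH0
    have iχ := KernF_int χ hP0
    have iK1 : Integrable (fun θ : ℝ => G (H * θ) - G 0 * χ (P * θ)) := iG.sub (iχ.const_mul _)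
    have iI : Integrable ((Set.Icc (-(1 / 2)) (1 / 2) : Set ℝ).indicator (fun _ => (1 : ℂ))) :=
      (integrable_indicator_iff measurableSet_Icc).2 (integrableOn_const (by simp))
    have hK3 : ((Set.Icc (-(1 / 2)) (1 / 2) : Set ℝ).indicator (fun θ => 1 - χ (P * θ))) =
        fun θ => (Set.Icc (-(1 / 2)) (1 / 2) : Set ℝ).indicator (fun _ => (1 : ℂ)) θ - χ (P * θ) := by
      funext θ
      by_cases h : θ ∈ (Set.Icc (-(1 / 2)) (1 / 2) : Set ℝ)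
      · rw [Set.indicator_of_mem h, Set.indicator_of_mem h]
      · rw [Set.indicator_of_notMem h, Set.indicator_of_notMem h, hχ0, sub_zero]
        rw [Set.mem_Icc, ← abs_le, not_le] at h
        rw [abs_mul, abs_of_pos hP0]
        nlinarith
    have iK3 : Integrable (fun θ : ℝ =>
        (Set.Icc (-(1 / 2)) (1 / 2) : Set ℝ).indicator (fun _ => (1 : ℂ)) θ - χ (P * θ)) := iI.sub iχ
    obtain ⟨iE, hE⟩ := KernF_exp_int hP0
    have L1 := KernF_lin s S N iK1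
    have L3 := KernF_lin s F N iK3
    have LE := KernF_lin s S N iE
    beta_reduce
    rw [hK3]
    beta_reduce
    rw [L1, L3, LE]
    -- evaluation of K3
    have V3 : ∑ i ∈ s, ∫ θ : ℝ, ee (θ * (F i - N)) *
        ((Set.Icc (-(1 / 2)) (1 / 2) : Set ℝ).indicator (fun _ => (1 : ℂ)) θ - χ (P * θ)) =
        - ∑ i ∈ s, ((P⁻¹ : ℝ) : ℂ) * Ψ ((F i - N) / P) := by
      rw [← Finset.sum_neg_distrib]
      refine Finset.sum_congr rfl fun i hi => ?_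
      obtain ⟨n, hn, hFn⟩ := hF i hi
      have hm : n - N ≠ 0 := sub_ne_zero.2 hn
      have e1 : (F i - N) = ((n - N : ℤ) : ℝ) := by rw [hFn]; push_cast; ring
      rw [KernF_scaled hΨ hP0]
      have e2 : (∫ θ : ℝ, ee (θ * (F i - N)) *
          ((Set.Icc (-(1 / 2)) (1 / 2) : Set ℝ).indicator (fun _ => (1 : ℂ)) θ - χ (P * θ))) =
          (∫ θ : ℝ, ee (θ * (F i - N)) *
            (Set.Icc (-(1 / 2)) (1 / 2) : Set ℝ).indicator (fun _ => (1 : ℂ)) θ) -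
          ∫ θ : ℝ, ee (θ * (F i - N)) * χ (P * θ) := by
        rw [← integral_sub (KernF_int_ee iI _) (KernF_int_ee iχ _)]
        refine integral_congr_ae (Filter.Eventually.of_forall fun θ => ?_)
        simp only
        ring
      rw [e2, e1, KernF_orth hm, zero_sub]
    have V1 : ∑ i ∈ s, ((H⁻¹ : ℝ) : ℂ) * f ((S i - N) / H) =
        (∑ i ∈ s, ∫ θ : ℝ, ee (θ * (S i - N)) * (G (H * θ) - G 0 * χ (P * θ))) +
        G 0 * ∑ i ∈ s, ((P⁻¹ : ℝ) : ℂ) * Ψ ((S i - N) / P) := by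
      rw [Finset.mul_sum, ← Finset.sum_add_distrib]
      refine Finset.sum_congr rfl fun i hi => ?_
      rw [KernF_scaled hinv hH0, KernF_scaled hΨ hP0, ← integral_const_mul,
        ← integral_add (KernF_int_ee iK1 _) ((KernF_int_ee iχ _).const_mul _)]
      refine integral_congr_ae (Filter.Eventually.of_forall fun θ => ?_)
      simp only
      ring
    -- the comparison
    have D : ‖(∑ i ∈ s, ((P⁻¹ : ℝ) : ℂ) * Ψ ((S i - N) / P)) -
        ∑ i ∈ s, ((P⁻¹ : ℝ) : ℂ) * Ψ ((F i - N) / P)‖ ≤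
        (20 * B * CΨ) / P * ‖∑ i ∈ s, ∫ θ : ℝ, ee (θ * (S i - N)) *
          ((Real.exp (-(P * |θ|)) : ℝ) : ℂ)‖ := by
      have e1 : ∑ i ∈ s, ∫ θ : ℝ, ee (θ * (S i - N)) * ((Real.exp (-(P * |θ|)) : ℝ) : ℂ) =
          ((∑ i ∈ s, 2 * P / (P ^ 2 + 4 * Real.pi ^ 2 * (S i - N) ^ 2) : ℝ) : ℂ) := by
        rw [Complex.ofReal_sum]
        exact Finset.sum_congr rfl fun i _ => hE _
      rw [e1, Complex.norm_of_nonneg (Finset.sum_nonneg fun i _ => by positivity),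
        ← Finset.sum_sub_distrib, Finset.mul_sum]
      refine norm_sum_le_of_le _ fun i hi => ?_
      rw [← mul_sub, norm_mul, Complex.norm_of_nonneg (by positivity)]
      have e2 : (S i - N) / P - (F i - N) / P = (S i - F i) / P := by ring
      have e3 : |(S i - N) / P - (F i - N) / P| ≤ B / P := by
        rw [e2, abs_div, abs_of_pos hP0]
        exact div_le_div_of_nonneg_right (hSF i hi) hP0.le
      have e4 : B / P ≤ B := div_le_self (by linarith) (by linarith)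
      have e5 := hmv _ _ (e3.trans e4)
      have hx : 0 < 1 + ((S i - N) / P) ^ 2 := by positivity
      have hpi : 4 * Real.pi ^ 2 ≤ 40 := by
        nlinarith [Real.pi_lt_d2, Real.pi_pos]
      have e6 : 1 / (1 + ((S i - N) / P) ^ 2) ≤
          20 * P * (2 * P / (P ^ 2 + 4 * Real.pi ^ 2 * (S i - N) ^ 2)) := by
        have e7 : 20 * P * (2 * P / (P ^ 2 + 4 * Real.pi ^ 2 * (S i - N) ^ 2)) =
            40 * P ^ 2 / (P ^ 2 + 4 * Real.pi ^ 2 * (S i - N) ^ 2) := by ring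
        have e8 : 1 / (1 + ((S i - N) / P) ^ 2) = P ^ 2 / (P ^ 2 + (S i - N) ^ 2) := by
          field_simp
        rw [e7, e8, div_le_div_iff₀ (by positivity) (by positivity)]
        have h9 : 0 ≤ P ^ 2 := by positivity
        have h10 : P ^ 2 + 4 * Real.pi ^ 2 * (S i - N) ^ 2 ≤ 40 * (P ^ 2 + (S i - N) ^ 2) := by
          nlinarith [mul_le_mul_of_nonneg_right hpi (sq_nonneg (S i - N))]
        calc P ^ 2 * (P ^ 2 + 4 * Real.pi ^ 2 * (S i - N) ^ 2)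
            ≤ P ^ 2 * (40 * (P ^ 2 + (S i - N) ^ 2)) := mul_le_mul_of_nonneg_left h10 h9
          _ = 40 * P ^ 2 * (P ^ 2 + (S i - N) ^ 2) := by ring
      calc P⁻¹ * ‖Ψ ((S i - N) / P) - Ψ ((F i - N) / P)‖
          ≤ P⁻¹ * (CΨ * |(S i - N) / P - (F i - N) / P| / (1 + ((S i - N) / P) ^ 2)) :=
            mul_le_mul_of_nonneg_left e5 (by positivity)
        _ ≤ P⁻¹ * (CΨ * (B / P) / (1 + ((S i - N) / P) ^ 2)) := by
            refine mul_le_mul_of_nonneg_left ?_ (by positivity)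
            exact div_le_div_of_nonneg_right (mul_le_mul_of_nonneg_left e3 hCΨ.le) hx.le
        _ = P⁻¹ * (CΨ * (B / P)) * (1 / (1 + ((S i - N) / P) ^ 2)) := by ring
        _ ≤ P⁻¹ * (CΨ * (B / P)) * (20 * P * (2 * P / (P ^ 2 + 4 * Real.pi ^ 2 * (S i - N) ^ 2))) :=
            mul_le_mul_of_nonneg_left e6 (by positivity)
        _ = (P⁻¹ * P) * ((20 * B * CΨ) / P * (2 * P / (P ^ 2 + 4 * Real.pi ^ 2 * (S i - N) ^ 2))) := by
            ring
        _ = (20 * B * CΨ) / P * (2 * P / (P ^ 2 + 4 * Real.pi ^ 2 * (S i - N) ^ 2)) := by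
            rw [inv_mul_cancel₀ hP0.ne', one_mul]
    have hcount : ((open Classical in (s.filter fun i => |S i - N| ≤ H / 2).card : ℕ) : ℝ) / H ≤
        ‖∑ i ∈ s, ((H⁻¹ : ℝ) : ℂ) * f ((S i - N) / H)‖ := by
      refine le_trans ?_ (Complex.re_le_norm _)
      rw [Complex.re_sum, div_eq_mul_inv, Finset.card_filter, Nat.cast_sum, Finset.sum_mul]
      refine Finset.sum_le_sum fun i _ => ?_
      rw [Complex.re_ofReal_mul]
      split_ifs with h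
      · have h1 : |(S i - N) / H| ≤ 1 / 2 := by
          rw [abs_div, abs_of_pos hH0, div_le_iff₀ hH0]
          linarith
        rw [hone _ h1]
        simp
      · have h1 := hnn ((S i - N) / H)
        rw [Nat.cast_zero, zero_mul]
        positivity
    refine hcount.trans ?_
    rw [V1, V3, norm_neg]
    set IK := ∑ i ∈ s, ∫ θ : ℝ, ee (θ * (S i - N)) * (G (H * θ) - G 0 * χ (P * θ)) with hIK
    set IS := ∑ i ∈ s, ((P⁻¹ : ℝ) : ℂ) * Ψ ((S i - N) / P) with hIS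
    set IF := ∑ i ∈ s, ((P⁻¹ : ℝ) : ℂ) * Ψ ((F i - N) / P) with hIF
    set IE := ∑ i ∈ s, ∫ θ : ℝ, ee (θ * (S i - N)) * ((Real.exp (-(P * |θ|)) : ℝ) : ℂ) with hIE
    have hIFn : 0 ≤ ‖IF‖ := norm_nonneg _
    have hIEn : 0 ≤ ‖IE‖ / P := by positivity
    calc ‖IK + G 0 * IS‖ ≤ ‖IK‖ + ‖G 0 * IS‖ := norm_add_le _ _
      _ = ‖IK‖ + ‖G 0‖ * ‖IF + (IS - IF)‖ := by rw [norm_mul, add_sub_cancel]
      _ ≤ ‖IK‖ + CG * (‖IF‖ + (20 * B * CΨ) / P * ‖IE‖) := by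
        refine add_le_add le_rfl (mul_le_mul hG0 ?_ (norm_nonneg _) hCG.le)
        exact (norm_add_le _ _).trans (add_le_add le_rfl D)
      _ = ‖IK‖ + CG * ‖IF‖ + (CG * (20 * B * CΨ)) * (‖IE‖ / P) := by ring
      _ ≤ ‖IK‖ + C * ‖IF‖ + C * (‖IE‖ / P) := by
        refine add_le_add (add_le_add le_rfl ?_) ?_
        · exact mul_le_mul_of_nonneg_right (by linarith) hIFn
        · exact mul_le_mul_of_nonneg_right (by linarith) hIEn
      _ = ‖IK‖ + C * ‖IF‖ + C / P * ‖IE‖ := by ring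

end IWar
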